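import Mathlib

set_option autoImplicit false

namespace Pool.Agent.H943Z.AbelRenorm

variable {X : Type} [NormedAddCommGroup X] [NormedSpace ℝ X]

/-- the auxiliary operators -/
noncomputable def E (A H : X →L[ℝ] X) : ℕ → (X →L[ℝ] X)
  | 0 => 0
  | m + 1 => A * E A H m + H * A ^ m

theorem walk (B C : X →L[ℝ] X) (hB : ‖B‖ ≤ 1) (hC : ‖C‖ ≤ 1) (v : X) (m : ℕ) : ∀ s : ℝ,
    ‖s • (((1 / 2 : ℝ) • (B + C)) ^ m) v +
      E ((1 / 2 : ℝ) • (B + C)) ((1 / 2 : ℝ) • (B - C)) m v‖ ^ 2 ≤ (s ^ 2 + m) * ‖v‖ ^ 2 := by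
  set A := (1 / 2 : ℝ) • (B + C) with hA
  set H := (1 / 2 : ℝ) • (B - C) with hH
  induction m with
  | zero =>
    intro s
    simp [E, norm_smul, mul_pow]
  | succ m ih =>
    intro s
    have e : s • (A ^ (m + 1)) v + E A H (m + 1) v =
        (1 / 2 : ℝ) • B ((s + 1) • (A ^ m) v + E A H m v) +
          (1 / 2 : ℝ) • C ((s - 1) • (A ^ m) v + E A H m v) := by
      rw [pow_succ', E]
      simp only [ContinuousLinearMap.add_apply, ContinuousLinearMap.mul_apply, map_add, map_smul]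
      generalize (A ^ m) v = w
      generalize E A H m v = u
      simp only [hA, hH, ContinuousLinearMap.smul_apply, ContinuousLinearMap.add_apply,
        ContinuousLinearMap.sub_apply]
      module
    rw [e]
    have h1 := ih (s + 1)
    have h2 := ih (s - 1)
    set a := (s + 1) • (A ^ m) v + E A H m v
    set b := (s - 1) • (A ^ m) v + E A H m v
    have h3 : ‖B a‖ ≤ ‖a‖ := (B.le_opNorm a).trans (mul_le_of_le_one_left (norm_nonneg _) hB)
    have h4 : ‖C b‖ ≤ ‖b‖ := (C.le_opNorm b).trans (mul_le_of_le_one_left (norm_nonneg _) hC)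
    have h5 : ‖(1 / 2 : ℝ) • B a + (1 / 2 : ℝ) • C b‖ ≤ (‖a‖ + ‖b‖) / 2 := by
      refine (norm_add_le _ _).trans ?_
      rw [norm_smul, norm_smul, Real.norm_of_nonneg (by norm_num : (0 : ℝ) ≤ 1 / 2)]
      linarith
    have h6 := pow_le_pow_left₀ (norm_nonneg _) h5 2
    push_cast
    nlinarith [sq_nonneg (‖a‖ - ‖b‖)]

theorem approx (A H : X →L[ℝ] X) (hA : ‖A‖ ≤ 1) (hH : ‖H‖ ≤ 1) (hc : A * H = H * A) (f h : X)
    (ε : ℝ) (h1 : ‖A f - f‖ ≤ ε) (h2 : ‖H f - h‖ ≤ ε) (m : ℕ) :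
    ‖(A ^ m) f - f‖ ≤ m * ε ∧ ‖E A H m f - (m : ℝ) • h‖ ≤ 2 * m ^ 2 * ε := by
  have cA : ∀ x, ‖A x‖ ≤ ‖x‖ := fun x =>
    (A.le_opNorm x).trans (mul_le_of_le_one_left (norm_nonneg _) hA)
  have cH : ∀ x, ‖H x‖ ≤ ‖x‖ := fun x =>
    (H.le_opNorm x).trans (mul_le_of_le_one_left (norm_nonneg _) hH)
  have hε : 0 ≤ ε := (norm_nonneg _).trans h1
  have h3 : ‖A h - h‖ ≤ 3 * ε := by
    have e0 : A (H f) = H (A f) := by
      rw [← ContinuousLinearMap.mul_apply, hc, ContinuousLinearMap.mul_apply]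
    have e : A h - h = -(A (H f - h)) + H (A f - f) + (H f - h) := by
      rw [map_sub, map_sub, e0]
      abel
    rw [e]
    have := norm_add₃_le (a := -(A (H f - h))) (b := H (A f - f)) (c := H f - h)
    rw [norm_neg] at this
    linarith [cA (H f - h), cH (A f - f)]
  induction m with
  | zero => simp [E]
  | succ m ih =>
    obtain ⟨i1, i2⟩ := ih
    constructor
    · have e : (A ^ (m + 1)) f - f = A ((A ^ m) f - f) + (A f - f) := by
        rw [pow_succ', ContinuousLinearMap.mul_apply, map_sub]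
        abel
      rw [e]
      refine (norm_add_le _ _).trans ?_
      rw [Nat.cast_succ]
      linarith [cA ((A ^ m) f - f)]
    · have e : E A H (m + 1) f - ((m + 1 : ℕ) : ℝ) • h =
          A (E A H m f - (m : ℝ) • h) + (m : ℝ) • (A h - h) + (H ((A ^ m) f - f) + (H f - h)) := by
        rw [E]
        simp only [ContinuousLinearMap.add_apply, ContinuousLinearMap.mul_apply, map_sub, map_smul]
        push_cast
        module
      rw [e]
      have a1 := norm_add₃_le (a := A (E A H m f - (m : ℝ) • h)) (b := (m : ℝ) • (A h - h))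
        (c := H ((A ^ m) f - f) + (H f - h))
      have a2 := norm_add_le (H ((A ^ m) f - f)) (H f - h)
      have a3 : ‖(m : ℝ) • (A h - h)‖ ≤ m * (3 * ε) := by
        rw [norm_smul, Real.norm_natCast]
        exact mul_le_mul_of_nonneg_left h3 (Nat.cast_nonneg m)
      have a4 := cA (E A H m f - (m : ℝ) • h)
      have a5 := cH ((A ^ m) f - f)
      rw [Nat.cast_succ]
      nlinarith

theorem rigid (S : Set (X →L[ℝ] X)) (hS : ∀ A ∈ S, ‖A‖ ≤ 1)
    (hc : ∀ A ∈ S, ∀ B ∈ S, A * B = B * A) (f h : X)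
    (h1 : f + h ∈ closure ((fun A : X →L[ℝ] X => A f) '' S))
    (h2 : f - h ∈ closure ((fun A : X →L[ℝ] X => A f) '' S)) : h = 0 := by
  have key : ∀ m : ℕ, (m : ℝ) * ‖h‖ ≤ Real.sqrt m * ‖f‖ := by
    intro m
    apply le_of_forall_pos_le_add
    intro δ hδ
    set ε := δ / (2 * m ^ 2 + 1) with hε
    have hε0 : 0 < ε := by positivity
    obtain ⟨_, ⟨B, hB, rfl⟩, b1⟩ := Metric.mem_closure_iff.1 h1 ε hε0
    obtain ⟨_, ⟨C, hC, rfl⟩, c1⟩ := Metric.mem_closure_iff.1 h2 ε hε0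
    rw [dist_comm, dist_eq_norm] at b1 c1
    have w := walk B C (hS B hB) (hS C hC) f m 0
    set A := (1 / 2 : ℝ) • (B + C) with hA
    set H := (1 / 2 : ℝ) • (B - C) with hH
    have nA : ‖A‖ ≤ 1 := by
      rw [hA, norm_smul, Real.norm_of_nonneg (by norm_num : (0 : ℝ) ≤ 1 / 2)]
      linarith [norm_add_le B C, hS B hB, hS C hC]
    have nH : ‖H‖ ≤ 1 := by
      rw [hH, norm_smul, Real.norm_of_nonneg (by norm_num : (0 : ℝ) ≤ 1 / 2)]
      linarith [norm_sub_le B C, hS B hB, hS C hC]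
    have cm : A * H = H * A := by
      simp only [hA, hH, smul_mul_assoc, mul_smul_comm, add_mul, mul_add, sub_mul, mul_sub,
        hc C hC B hB]
      module
    have a1 : ‖A f - f‖ ≤ ε := by
      have e : A f - f = (1 / 2 : ℝ) • ((B f - (f + h)) + (C f - (f - h))) := by
        simp only [hA, ContinuousLinearMap.smul_apply, ContinuousLinearMap.add_apply]
        module
      rw [e, norm_smul, Real.norm_of_nonneg (by norm_num : (0 : ℝ) ≤ 1 / 2)]
      linarith [norm_add_le (B f - (f + h)) (C f - (f - h))]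
    have a2 : ‖H f - h‖ ≤ ε := by
      have e : H f - h = (1 / 2 : ℝ) • ((B f - (f + h)) - (C f - (f - h))) := by
        simp only [hH, ContinuousLinearMap.smul_apply, ContinuousLinearMap.sub_apply]
        module
      rw [e, norm_smul, Real.norm_of_nonneg (by norm_num : (0 : ℝ) ≤ 1 / 2)]
      linarith [norm_sub_le (B f - (f + h)) (C f - (f - h))]
    have a3 := (approx A H nA nH cm f h ε a1 a2 m).2
    rw [zero_smul, zero_add] at w
    have a4 : ‖E A H m f‖ ≤ Real.sqrt m * ‖f‖ := by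
      refine (pow_le_pow_iff_left₀ (norm_nonneg _) (by positivity) two_ne_zero).1 ?_
      rw [mul_pow, Real.sq_sqrt (Nat.cast_nonneg m)]
      simpa using w
    have a5 : (m : ℝ) * ‖h‖ = ‖(m : ℝ) • h‖ := by rw [norm_smul, Real.norm_natCast]
    have a6 : ‖(m : ℝ) • h‖ ≤ ‖E A H m f‖ + ‖E A H m f - (m : ℝ) • h‖ := by
      have := norm_sub_le (E A H m f) (E A H m f - (m : ℝ) • h)
      rwa [sub_sub_cancel] at this
    have a7 : 2 * (m : ℝ) ^ 2 * ε ≤ δ := by
      have : ε * (2 * m ^ 2 + 1) = δ := by rw [hε]; field_simp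
      nlinarith
    linarith
  by_contra hne
  have hp : 0 < ‖h‖ := norm_pos_iff.2 hne
  obtain ⟨m, hm⟩ := exists_nat_gt (‖f‖ ^ 2 / ‖h‖ ^ 2)
  have hm0 : (0 : ℝ) < m := lt_of_le_of_lt (by positivity) hm
  rw [div_lt_iff₀ (by positivity)] at hm
  have k := pow_le_pow_left₀ (by positivity) (key m) 2
  rw [mul_pow, mul_pow, Real.sq_sqrt hm0.le] at k
  nlinarith

variable (Γ : Subgroup (X ≃ₗᵢ[ℝ] X))

/-- invariant seminorm attached to a functional -/
noncomputable def p (φ : X →L[ℝ] ℝ) (x : X) : ℝ := ⨆ g : Γ, |φ (g.1 x)|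

theorem le_bd (φ : X →L[ℝ] ℝ) (x : X) (g : Γ) : |φ (g.1 x)| ≤ ‖φ‖ * ‖x‖ := by
  have := φ.le_opNorm (g.1 x)
  rwa [LinearIsometryEquiv.norm_map, Real.norm_eq_abs] at this

theorem bdd (φ : X →L[ℝ] ℝ) (x : X) : BddAbove (Set.range fun g : Γ => |φ (g.1 x)|) :=
  ⟨‖φ‖ * ‖x‖, by rintro _ ⟨g, rfl⟩; exact le_bd Γ φ x g⟩

theorem le_p (φ : X →L[ℝ] ℝ) (x : X) (g : Γ) : |φ (g.1 x)| ≤ p Γ φ x := le_ciSup (bdd Γ φ x) g

theorem p_le (φ : X →L[ℝ] ℝ) (x : X) : p Γ φ x ≤ ‖φ‖ * ‖x‖ := ciSup_le (le_bd Γ φ x)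

theorem p_nonneg (φ : X →L[ℝ] ℝ) (x : X) : 0 ≤ p Γ φ x := (abs_nonneg _).trans (le_p Γ φ x 1)

theorem p_add (φ : X →L[ℝ] ℝ) (x y : X) : p Γ φ (x + y) ≤ p Γ φ x + p Γ φ y := by
  refine ciSup_le fun g => ?_
  rw [LinearIsometryEquiv.map_add, map_add]
  exact (abs_add_le _ _).trans (add_le_add (le_p Γ φ x g) (le_p Γ φ y g))

theorem p_smul (φ : X →L[ℝ] ℝ) (r : ℝ) (x : X) : p Γ φ (r • x) = |r| * p Γ φ x := by
  unfold p
  rw [Real.mul_iSup_of_nonneg (abs_nonneg r)]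
  congr 1
  ext g
  rw [LinearIsometryEquiv.map_smul, map_smul, smul_eq_mul, abs_mul]

theorem p_inv (φ : X →L[ℝ] ℝ) (g : Γ) (x : X) : p Γ φ (g.1 x) = p Γ φ x := by
  unfold p
  rw [← (Equiv.mulRight g).iSup_comp (g := fun k : Γ => |φ (k.1 x)|)]
  rfl

theorem p_cont (φ : X →L[ℝ] ℝ) : Continuous (p Γ φ) := by
  refine (LipschitzWith.of_le_add_mul ‖φ‖₊ fun x y => ?_).continuous
  have h1 := p_add Γ φ y (x - y)
  rw [add_sub_cancel] at h1
  have h2 := p_le Γ φ (x - y)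
  rw [dist_eq_norm, coe_nnnorm]
  linarith

theorem sep (hΓ : ∀ a ∈ Γ, ∀ b ∈ Γ, a * b = b * a) (f h : X) (hne : h ≠ 0) :
    ∃ φ : X →L[ℝ] ℝ, p Γ φ f < max (p Γ φ (f + h)) (p Γ φ (f - h)) := by
  let S0 : Set (X →L[ℝ] X) := {A | ∃ g : Γ, A = (g.1 : X →L[ℝ] X) ∨ A = -(g.1 : X →L[ℝ] X)}
  let S := convexHull ℝ S0
  have hS : ∀ A ∈ S, ‖A‖ ≤ 1 := by
    intro A hA
    have : S ⊆ Metric.closedBall 0 1 := by
      refine convexHull_min ?_ (convex_closedBall 0 1)
      have n1 : ∀ g : Γ, ‖(g.1 : X →L[ℝ] X)‖ ≤ 1 := fun g =>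
        ContinuousLinearMap.opNorm_le_bound _ zero_le_one fun x => by simp
      rintro A ⟨g, rfl | rfl⟩
      · simpa using n1 g
      · simpa using n1 g
    simpa using this hA
  have cv : ∀ B : X →L[ℝ] X, Convex ℝ {A : X →L[ℝ] X | A * B = B * A} := by
    intro B A hA A' hA' a b _ _ _
    simp only [Set.mem_setOf_eq] at hA hA' ⊢
    rw [add_mul, mul_add, smul_mul_assoc, smul_mul_assoc, mul_smul_comm, mul_smul_comm, hA, hA']
  have c0 : ∀ g k : Γ, (g.1 : X →L[ℝ] X) * (k.1 : X →L[ℝ] X) =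
      (k.1 : X →L[ℝ] X) * (g.1 : X →L[ℝ] X) := by
    intro g k
    ext x
    exact congrArg (fun T : X ≃ₗᵢ[ℝ] X => T x) (hΓ g.1 g.2 k.1 k.2)
  have c1 : ∀ B ∈ S0, ∀ A ∈ S, A * B = B * A := by
    intro B hB
    have c2 : ∀ A ∈ S0, A * B = B * A := by
      obtain ⟨k, rfl | rfl⟩ := hB <;> rintro A ⟨g, rfl | rfl⟩ <;>
        simp only [mul_neg, neg_mul, c0 g k]
    exact fun A hA => convexHull_min c2 (cv B) hA
  have hc : ∀ A ∈ S, ∀ B ∈ S, A * B = B * A := by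
    intro A hA B hB
    exact (convexHull_min (fun B hB => (c1 B hB A hA).symm) (cv A) hB).symm
  have cvx : Convex ℝ (closure ((fun A : X →L[ℝ] X => A f) '' S)) :=
    ((convex_convexHull ℝ S0).linear_image
      (ContinuousLinearMap.apply ℝ X f).toLinearMap).closure
  have main : ∀ y, y ∉ closure ((fun A : X →L[ℝ] X => A f) '' S) →
      ∃ φ : X →L[ℝ] ℝ, p Γ φ f < p Γ φ y := by
    intro y hy
    obtain ⟨φ, u, h1, h2⟩ := geometric_hahn_banach_closed_point cvx isClosed_closure hy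
    refine ⟨φ, lt_of_le_of_lt (b := u) (ciSup_le fun g => ?_) (h2.trans_le ?_)⟩
    · have a1 := h1 _ (subset_closure ⟨_, subset_convexHull ℝ S0 ⟨g, Or.inl rfl⟩, rfl⟩)
      have a2 := h1 _ (subset_closure ⟨_, subset_convexHull ℝ S0 ⟨g, Or.inr rfl⟩, rfl⟩)
      simp only [ContinuousLinearMap.neg_apply, map_neg] at a2
      exact abs_le.2 ⟨by change -φ (g.1 f) < u at a2; linarith, a1.le⟩
    · exact (le_abs_self _).trans (le_p Γ φ y 1)
  by_cases h1 : f + h ∈ closure ((fun A : X →L[ℝ] X => A f) '' S)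
  · by_cases h2 : f - h ∈ closure ((fun A : X →L[ℝ] X => A f) '' S)
    · exact absurd (rigid S hS hc f h h1 h2) hne
    · obtain ⟨φ, hφ⟩ := main _ h2
      exact ⟨φ, hφ.trans_le (le_max_right _ _)⟩
  · obtain ⟨φ, hφ⟩ := main _ h1
    exact ⟨φ, hφ.trans_le (le_max_left _ _)⟩

theorem seq [TopologicalSpace.SeparableSpace X] (hΓ : ∀ a ∈ Γ, ∀ b ∈ Γ, a * b = b * a) :
    ∃ e : ℕ → (X →L[ℝ] ℝ), ∀ f h : X, h ≠ 0 →
      ∃ i, p Γ (e i) f < max (p Γ (e i) (f + h)) (p Γ (e i) (f - h)) := by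
  haveI : SecondCountableTopology X := UniformSpace.secondCountable_of_separable X
  let U : (X →L[ℝ] ℝ) → Set (X × X) := fun φ =>
    {z | p Γ φ z.1 < max (p Γ φ (z.1 + z.2)) (p Γ φ (z.1 - z.2))}
  have hU : ∀ φ, IsOpen (U φ) := by
    intro φ
    have := p_cont Γ φ
    exact isOpen_lt (by fun_prop) (by fun_prop)
  obtain ⟨T, hT, e⟩ := TopologicalSpace.isOpen_iUnion_countable U hU
  obtain ⟨s, hs⟩ := (hT.insert 0).exists_eq_range (Set.insert_nonempty _ _)
  refine ⟨s, fun f h hne => ?_⟩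
  have : (f, h) ∈ ⋃ i ∈ T, U i := by
    rw [e]
    exact Set.mem_iUnion.2 (sep Γ hΓ f h hne)
  obtain ⟨φ, hφ, hz⟩ := Set.mem_iUnion₂.1 this
  obtain ⟨i, rfl⟩ : φ ∈ Set.range s := hs ▸ Set.mem_insert_of_mem _ hφ
  exact ⟨i, hz⟩

theorem exists_norm [TopologicalSpace.SeparableSpace X]
    (hΓ : ∀ a ∈ Γ, ∀ b ∈ Γ, a * b = b * a) : ∃ N : X → ℝ,
      (∀ x y : X, N (x + y) ≤ N x + N y) ∧
      (∀ (r : ℝ) (x : X), N (r • x) = |r| * N x) ∧
      (∃ c C : ℝ, 0 < c ∧ 0 < C ∧ ∀ x : X, c * ‖x‖ ≤ N x ∧ N x ≤ C * ‖x‖) ∧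
      (∀ g ∈ Γ, ∀ x : X, N (g x) = N x) ∧
      (∀ x y : X, N x = 1 → N y = 1 → x ≠ y → N (x + y) < 2) := by
  obtain ⟨e, he⟩ := seq Γ hΓ
  let w : ℕ → ℝ := fun i => (1 / 2) ^ i / (‖e i‖ + 1) ^ 2
  have w0 : ∀ i, 0 < w i := fun i => by positivity
  let t : X → ℕ → ℝ := fun x i => w i * p Γ (e i) x ^ 2
  have t0 : ∀ x i, 0 ≤ t x i := fun x i => mul_nonneg (w0 i).le (sq_nonneg _)
  have t1 : ∀ x i, t x i ≤ (1 / 2) ^ i * ‖x‖ ^ 2 := by
    intro x i
    have h1 : p Γ (e i) x ≤ (‖e i‖ + 1) * ‖x‖ :=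
      (p_le Γ _ x).trans (mul_le_mul_of_nonneg_right (by linarith) (norm_nonneg _))
    have h2 := pow_le_pow_left₀ (p_nonneg Γ _ x) h1 2
    calc t x i ≤ w i * ((‖e i‖ + 1) * ‖x‖) ^ 2 := mul_le_mul_of_nonneg_left h2 (w0 i).le
      _ = _ := by
        simp only [w]
        field_simp
  have g0 : ∀ x : X, Summable fun i : ℕ => (1 / 2 : ℝ) ^ i * ‖x‖ ^ 2 := fun x =>
    summable_geometric_two.mul_right _
  have ts : ∀ x, Summable (t x) := fun x => Summable.of_nonneg_of_le (t0 x) (t1 x) (g0 x)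
  let Q : X → ℝ := fun x => ‖x‖ ^ 2 + ∑' i, t x i
  have Q1 : ∀ x, ‖x‖ ^ 2 ≤ Q x := fun x => le_add_of_nonneg_right (tsum_nonneg (t0 x))
  have Q0 : ∀ x, 0 ≤ Q x := fun x => (sq_nonneg _).trans (Q1 x)
  have Q2 : ∀ x, Q x ≤ (2 * ‖x‖) ^ 2 := by
    intro x
    have := (ts x).tsum_le_tsum (t1 x) (g0 x)
    rw [tsum_mul_right, tsum_geometric_two] at this
    simp only [Q]
    nlinarith [sq_nonneg ‖x‖]
  have Qs : ∀ (r : ℝ) (x : X), Q (r • x) = |r| ^ 2 * Q x := by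
    intro r x
    simp only [Q, t, p_smul, norm_smul, Real.norm_eq_abs, mul_add, ← tsum_mul_left]
    congr 1
    · ring
    · congr 1
      ext i
      ring
  have Qa : ∀ (x y : X) (a b : ℝ), 0 < a → 0 < b →
      Q (x + y) ≤ (1 + b / a) * Q x + (1 + a / b) * Q y := by
    intro x y a b ha hb
    have el : ∀ u v c : ℝ, 0 ≤ c → c ≤ u + v →
        c ^ 2 ≤ (1 + b / a) * u ^ 2 + (1 + a / b) * v ^ 2 := by
      intro u v c h0 h1
      have h2 := pow_le_pow_left₀ h0 h1 2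
      have h3 : (1 + b / a) * u ^ 2 + (1 + a / b) * v ^ 2 - (u + v) ^ 2 =
          (b * u - a * v) ^ 2 / (a * b) := by
        field_simp
        ring
      have h4 : 0 ≤ (b * u - a * v) ^ 2 / (a * b) := by positivity
      linarith
    have s1 : ∑' i, t (x + y) i ≤ ∑' i, ((1 + b / a) * t x i + (1 + a / b) * t y i) := by
      refine (ts _).tsum_le_tsum (fun i => ?_) (((ts x).mul_left _).add ((ts y).mul_left _))
      have := mul_le_mul_of_nonneg_left (el _ _ _ (p_nonneg Γ (e i) _) (p_add Γ (e i) x y))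
        (w0 i).le
      simp only [t]
      linarith
    rw [((ts x).mul_left _).tsum_add ((ts y).mul_left _), tsum_mul_left, tsum_mul_left] at s1
    have s2 := el _ _ _ (norm_nonneg _) (norm_add_le x y)
    simp only [Q]
    linarith
  have Qz : ∀ x, Real.sqrt (Q x) = 0 → x = 0 := by
    intro x hx
    rw [Real.sqrt_eq_zero (Q0 x)] at hx
    have := Q1 x
    rw [hx] at this
    exact norm_eq_zero.1 (pow_eq_zero_iff two_ne_zero |>.1 (le_antisymm this (sq_nonneg _)))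
  refine ⟨fun x => Real.sqrt (Q x), ?_, ?_, ⟨1, 2, one_pos, two_pos, fun x => ⟨?_, ?_⟩⟩, ?_, ?_⟩
  · intro x y
    rcases (Real.sqrt_nonneg (Q x)).eq_or_lt with ha | ha
    · rw [Qz x ha.symm, zero_add]
      exact le_add_of_nonneg_left (Real.sqrt_nonneg _)
    rcases (Real.sqrt_nonneg (Q y)).eq_or_lt with hb | hb
    · rw [Qz y hb.symm, add_zero]
      exact le_add_of_nonneg_right (Real.sqrt_nonneg _)
    have := Qa x y _ _ ha hb
    refine Real.sqrt_le_iff.2 ⟨by positivity, this.trans (le_of_eq ?_)⟩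
    beta_reduce
    have e1 := Real.sq_sqrt (Q0 x)
    have e2 := Real.sq_sqrt (Q0 y)
    generalize Real.sqrt (Q x) = a at *
    generalize Real.sqrt (Q y) = b at *
    rw [← e1, ← e2]
    have q1 : (1 + b / a) * a ^ 2 = a ^ 2 + a * b := by field_simp
    have q2 : (1 + a / b) * b ^ 2 = b ^ 2 + a * b := by field_simp
    rw [q1, q2]
    ring
  · intro r x
    simp only
    rw [Qs, Real.sqrt_mul (sq_nonneg _), Real.sqrt_sq (abs_nonneg r)]
  · rw [one_mul]
    exact Real.le_sqrt_of_sq_le (Q1 x)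
  · exact Real.sqrt_le_iff.2 ⟨by positivity, Q2 x⟩
  · intro g hg x
    have : ∀ i, p Γ (e i) (g x) = p Γ (e i) x := fun i => p_inv Γ (e i) ⟨g, hg⟩ x
    simp only [Q, t, this, LinearIsometryEquiv.norm_map]
  · intro x y hx hy hne
    simp only at hx hy ⊢
    rw [Real.sqrt_eq_one] at hx hy
    obtain ⟨i, hi⟩ := he ((1 / 2 : ℝ) • (x + y)) ((1 / 2 : ℝ) • (x - y))
      (smul_ne_zero (by norm_num) (sub_ne_zero.2 hne))
    have e1 : (1 / 2 : ℝ) • (x + y) + (1 / 2 : ℝ) • (x - y) = x := by module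
    have e2 : (1 / 2 : ℝ) • (x + y) - (1 / 2 : ℝ) • (x - y) = y := by module
    rw [e1, e2, p_smul, abs_of_pos (by norm_num : (0 : ℝ) < 1 / 2)] at hi
    have el : ∀ u v c : ℝ, 0 ≤ c → c ≤ u + v → c ^ 2 ≤ 2 * u ^ 2 + 2 * v ^ 2 := by
      intro u v c h0 h1
      have h2 := pow_le_pow_left₀ h0 h1 2
      nlinarith [sq_nonneg (u - v)]
    have s1 : ∑' i, t (x + y) i < ∑' i, (2 * t x i + 2 * t y i) := by
      refine Summable.tsum_lt_tsum (i := i) (fun i => ?_) ?_ (ts _)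
        (((ts x).mul_left _).add ((ts y).mul_left _))
      · have := mul_le_mul_of_nonneg_left (el _ _ _ (p_nonneg Γ (e i) _) (p_add Γ (e i) x y))
          (w0 i).le
        simp only [t]
        linarith
      · have a0 := p_nonneg Γ (e i) (x + y)
        have a1 := p_add Γ (e i) x y
        have a2 : p Γ (e i) (x + y) ^ 2 < 2 * p Γ (e i) x ^ 2 + 2 * p Γ (e i) y ^ 2 := by
          generalize p Γ (e i) (x + y) = c at *
          generalize p Γ (e i) x = u at *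
          generalize p Γ (e i) y = v at *
          by_cases huv : u = v
          · subst huv
            rw [max_self] at hi
            nlinarith
          · have h2 := pow_le_pow_left₀ a0 a1 2
            have h3 : 0 < (u - v) ^ 2 := by positivity
            nlinarith
        have := mul_lt_mul_of_pos_left a2 (w0 i)
        simp only [t]
        linarith
    rw [((ts x).mul_left _).tsum_add ((ts y).mul_left _), tsum_mul_left, tsum_mul_left] at s1
    have s2 := el _ _ _ (norm_nonneg _) (norm_add_le x y)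
    rw [Real.sqrt_lt' two_pos]
    simp only [Q] at hx hy ⊢
    linarith

end Pool.Agent.H943Z.AbelRenorm
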