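import Mathlib

set_option autoImplicit false

namespace Pool.Agent.H943Z.Hall

variable {α : Type}

/-- foliage of a tree -/
def fol : FreeMagma α → List α
  | FreeMagma.of a => [a]
  | FreeMagma.mul x y => fol x ++ fol y

@[simp] theorem fol_of (a : α) : fol (FreeMagma.of a) = [a] := rfl
@[simp] theorem fol_mul (x y : FreeMagma α) : fol (x * y) = fol x ++ fol y := rfl

/-- number of leaves -/
def len (t : FreeMagma α) : ℕ := (fol t).length

@[simp] theorem len_of (a : α) : len (FreeMagma.of a) = 1 := rfl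
@[simp] theorem len_mul (x y : FreeMagma α) : len (x * y) = len x + len y := by simp [len]

theorem len_pos (t : FreeMagma α) : 0 < len t := by
  induction t with
  | ih1 a => simp
  | ih2 x y hx _ => simp [hx]

theorem mul_inj {a b c d : FreeMagma α} (h : a * b = c * d) : a = c ∧ b = d := by
  cases h
  exact ⟨rfl, rfl⟩

theorem of_ne_mul (a : α) (c d : FreeMagma α) : FreeMagma.of a ≠ c * d := by
  intro h
  cases h

theorem finite_len [Finite α] (n : ℕ) : {t : FreeMagma α | len t ≤ n}.Finite := by
  induction n with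
  | zero =>
    convert Set.finite_empty
    ext t
    have := len_pos t
    simp only [Set.mem_setOf_eq, Set.mem_empty_iff_false, iff_false]
    omega
  | succ n ih =>
    refine ((Set.finite_range FreeMagma.of).union (ih.image2 (· * ·) ih)).subset ?_
    intro t ht
    induction t with
    | ih1 a => exact Or.inl ⟨a, rfl⟩
    | ih2 x y _ _ =>
      have h1 := len_pos x
      have h2 := len_pos y
      simp only [Set.mem_setOf_eq, len_mul] at ht
      exact Or.inr ⟨x, by simp only [Set.mem_setOf_eq]; omega, y,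
        by simp only [Set.mem_setOf_eq]; omega, rfl⟩

/-- Hall set axioms -/
structure IsHall (H : Set (FreeMagma α)) (r : FreeMagma α → FreeMagma α → Prop) : Prop where
  sto : IsStrictTotalOrder (FreeMagma α) r
  of_mem : ∀ a : α, FreeMagma.of a ∈ H
  right : ∀ t' t'' : FreeMagma α, t' * t'' ∈ H → t'' ∈ H ∧ r (t' * t'') t''
  mul_iff : ∀ t' t'' : FreeMagma α, t' * t'' ∈ H ↔
      (t' ∈ H ∧ t'' ∈ H ∧ r t' t'' ∧
        ((∃ a : α, t' = FreeMagma.of a) ∨ ∃ u v : FreeMagma α, t' = u * v ∧ ¬ r v t''))

variable {H : Set (FreeMagma α)} {r : FreeMagma α → FreeMagma α → Prop}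

theorem IsHall.irrefl (h : IsHall H r) (x : FreeMagma α) : ¬ r x x := by
  haveI := h.sto
  exact irrefl_of r x

theorem IsHall.trans (h : IsHall H r) {x y z : FreeMagma α} (h1 : r x y) (h2 : r y z) :
    r x z := by
  haveI := h.sto
  exact trans_of r h1 h2

theorem IsHall.asymm (h : IsHall H r) {x y : FreeMagma α} (h1 : r x y) : ¬ r y x :=
  fun h2 => h.irrefl x (h.trans h1 h2)

theorem IsHall.tri (h : IsHall H r) (x y : FreeMagma α) : r x y ∨ x = y ∨ r y x := by
  haveI := h.sto
  exact trichotomous_of r x y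

theorem IsHall.exists_max (h : IsHall H r) {S : Set (FreeMagma α)} (hS : S.Finite)
    (hne : S.Nonempty) : ∃ c ∈ S, ∀ x ∈ S, x ≠ c → r x c := by
  induction S, hS using Set.Finite.induction_on with
  | empty => exact absurd hne (by simp)
  | @insert a s _ _ ih =>
    rcases s.eq_empty_or_nonempty with rfl | hs
    · exact ⟨a, by simp, by simp⟩
    · obtain ⟨c, hc, hmax⟩ := ih hs
      rcases h.tri a c with h1 | h1 | h1
      · refine ⟨c, Or.inr hc, ?_⟩
        rintro x (rfl | hx) hne
        · exact h1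
        · exact hmax x hx hne
      · refine ⟨c, Or.inr hc, ?_⟩
        rintro x (rfl | hx) hne
        · exact absurd h1 hne
        · exact hmax x hx hne
      · refine ⟨a, Or.inl rfl, ?_⟩
        rintro x (rfl | hx) hne
        · exact absurd rfl hne
        · by_cases hxc : x = c
          · exact hxc ▸ h1
          · exact h.trans (hmax x hx hxc) h1

/-- data of one elimination step -/
structure Step (H : Set (FreeMagma α)) (r : FreeMagma α → FreeMagma α → Prop) (n : ℕ)
    (U : Set (FreeMagma α)) (c : FreeMagma α) : Prop where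
  sub : ∀ u ∈ U, u ∈ H
  mem : c ∈ H
  len_le : len c ≤ n
  not_mem : c ∉ U
  lt : ∀ u ∈ U, r c u
  max : ∀ x ∈ H, len x ≤ n → x ∉ U → x ≠ c → r x c

theorem IsHall.upInd [Finite α] (h : IsHall H r) (n : ℕ) (P : Set (FreeMagma α) → Prop)
    (h0 : P ∅) (hs : ∀ U c, Step H r n U c → P U → P (insert c U)) :
    P {x | x ∈ H ∧ len x ≤ n} := by
  have hfin : {x | x ∈ H ∧ len x ≤ n}.Finite := (finite_len n).subset fun x hx => hx.2
  have key : ∀ k, ∀ U : Set (FreeMagma α), U ⊆ {x | x ∈ H ∧ len x ≤ n} →
      (∀ u ∈ U, ∀ x ∈ H, len x ≤ n → x ∉ U → r x u) →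
      ({x | x ∈ H ∧ len x ≤ n} \ U).ncard = k → P U → P {x | x ∈ H ∧ len x ≤ n} := by
    intro k
    induction k with
    | zero =>
      intro U hU _ hk hP
      rw [Set.ncard_eq_zero (hfin.subset Set.diff_subset), Set.diff_eq_empty] at hk
      rwa [← Set.Subset.antisymm hU hk]
    | succ k ih =>
      intro U hU hup hk hP
      have hne : ({x | x ∈ H ∧ len x ≤ n} \ U).Nonempty :=
        Set.nonempty_of_ncard_ne_zero (by omega)
      obtain ⟨c, hc, hmax⟩ := h.exists_max (hfin.subset Set.diff_subset) hne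
      have st : Step H r n U c :=
        ⟨fun u hu => (hU hu).1, hc.1.1, hc.1.2, hc.2, fun u hu => hup u hu c hc.1.1 hc.1.2 hc.2,
          fun x h1 h2 h3 h4 => hmax x ⟨⟨h1, h2⟩, h3⟩ h4⟩
      refine ih (insert c U) ?_ ?_ ?_ (hs U c st hP)
      · rintro x (rfl | hx)
        · exact hc.1
        · exact hU hx
      · rintro u (rfl | hu) x h1 h2 h3
        · exact st.max x h1 h2 (fun hh => h3 (Or.inr hh)) (fun hh => h3 (Or.inl hh))
        · exact hup u hu x h1 h2 (fun hh => h3 (Or.inr hh))
      · have e : {x | x ∈ H ∧ len x ≤ n} \ insert c U = ({x | x ∈ H ∧ len x ≤ n} \ U) \ {c} := by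
          ext x
          simp only [Set.mem_diff, Set.mem_insert_iff, Set.mem_singleton_iff]
          tauto
        rw [e, Set.ncard_diff_singleton_of_mem hc, hk]
        rfl
  exact key _ ∅ (Set.empty_subset _) (by simp) rfl h0

/-- the current alphabet -/
def X0 (H : Set (FreeMagma α)) (n : ℕ) (U : Set (FreeMagma α)) : Set (FreeMagma α) :=
  {x | x ∈ H ∧ len x ≤ n ∧ x ∉ U ∧ ∀ a b, x = a * b → b ∈ U}

variable {n : ℕ} {U : Set (FreeMagma α)} {c : FreeMagma α}

theorem Step.c_mem (h : IsHall H r) (s : Step H r n U c) : c ∈ X0 H n U := by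
  refine ⟨s.mem, s.len_le, s.not_mem, ?_⟩
  rintro a b rfl
  obtain ⟨h1, h2⟩ := h.right a b s.mem
  by_contra hb
  have hl := s.len_le
  rw [len_mul] at hl
  by_cases hc : b = a * b
  · rw [← hc] at h2
    exact h.irrefl _ h2
  · exact h.asymm h2 (s.max b h1 (by omega) hb hc)

theorem Step.sub_insert (_s : Step H r n U c) {x : FreeMagma α} (hx : x ∈ X0 H n U)
    (hne : x ≠ c) : x ∈ X0 H n (insert c U) := by
  obtain ⟨h1, h2, h3, h4⟩ := hx
  refine ⟨h1, h2, ?_, fun a b hab => Or.inr (h4 a b hab)⟩
  rintro (h | h)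
  · exact hne h
  · exact h3 h

theorem Step.mul_mem (h : IsHall H r) (s : Step H r n U c) {y : FreeMagma α}
    (hy : y ∈ X0 H n (insert c U)) (hl : len (y * c) ≤ n) : y * c ∈ X0 H n (insert c U) := by
  obtain ⟨h1, h2, h3, h4⟩ := hy
  have hyc : r y c := s.max y h1 h2 (fun hh => h3 (Or.inr hh)) (fun hh => h3 (Or.inl hh))
  have hH : y * c ∈ H := by
    rw [h.mul_iff]
    refine ⟨h1, s.mem, hyc, ?_⟩
    induction y with
    | ih1 a => exact Or.inl ⟨a, rfl⟩
    | ih2 a b _ _ =>
      refine Or.inr ⟨a, b, rfl, ?_⟩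
      rcases h4 a b rfl with hb | hb
      · rw [hb]; exact h.irrefl _
      · exact h.asymm (s.lt b hb)
  refine ⟨hH, hl, ?_, ?_⟩
  · have := (h.right y c hH).2
    rintro (hh | hh)
    · rw [hh] at this
      exact h.irrefl _ this
    · exact h.asymm this (s.lt _ hh)
  · intro a b hab
    exact Or.inl (mul_inj hab).2.symm

open Classical in
/-- unpack the right-nested copies of `c` -/
noncomputable def unpack (c : FreeMagma α) : FreeMagma α → List (FreeMagma α)
  | FreeMagma.of a => [FreeMagma.of a]
  | FreeMagma.mul x y => if y = c then unpack c x ++ [c] else [x * y]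

open Classical in
/-- one step of the packing machine -/
noncomputable def pk (c : FreeMagma α) (st : ℕ × List (FreeMagma α)) (x : FreeMagma α) :
    ℕ × List (FreeMagma α) :=
  if x = c then
    (match st.2 with
      | [] => (st.1 + 1, [])
      | t :: ts => (st.1, (t * c) :: ts))
  else (st.1, x :: st.2)

theorem unpack_of (a : α) : unpack c (FreeMagma.of a) = [FreeMagma.of a] := rfl

theorem unpack_pos (x : FreeMagma α) : unpack c (x * c) = unpack c x ++ [c] := by
  show unpack c (FreeMagma.mul x c) = _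
  rw [unpack, if_pos rfl]

theorem unpack_neg (x y : FreeMagma α) (hy : y ≠ c) : unpack c (x * y) = [x * y] := by
  show unpack c (FreeMagma.mul x y) = _
  rw [unpack, if_neg hy]

theorem fol_unpack (y : FreeMagma α) : (unpack c y).flatMap fol = fol y := by
  induction y with
  | ih1 a => simp [unpack_of]
  | ih2 a b ha _ =>
    by_cases hb : b = c
    · subst hb
      simp [unpack_pos, ha]
    · simp [unpack_neg a b hb]

theorem pk_replicate (j k : ℕ) : (List.replicate k c).foldl (pk c) (j, []) = (j + k, []) := by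
  induction k generalizing j with
  | zero => rfl
  | succ k ih =>
    rw [List.replicate_succ, List.foldl_cons]
    have : pk c (j, []) c = (j + 1, []) := by simp [pk]
    rw [this, ih]
    congr 1
    omega

theorem Step.unpack_spec (h : IsHall H r) (s : Step H r n U c) {y : FreeMagma α}
    (hy : y ∈ X0 H n (insert c U)) :
    (∀ x ∈ unpack c y, x ∈ X0 H n U) ∧
      ∀ j ts, (unpack c y).foldl (pk c) (j, ts) = (j, y :: ts) := by
  induction y with
  | ih1 a =>
    obtain ⟨h1, h2, h3, _⟩ := hy
    have hne : FreeMagma.of a ≠ c := fun hh => h3 (Or.inl hh)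
    refine ⟨?_, ?_⟩
    · intro x hx
      rw [unpack_of, List.mem_singleton] at hx
      subst hx
      exact ⟨h1, h2, fun hh => h3 (Or.inr hh), fun u v huv => absurd huv (of_ne_mul a u v)⟩
    · intro j ts
      simp [unpack_of, pk, hne]
  | ih2 a b iha _ =>
    obtain ⟨h1, h2, h3, h4⟩ := hy
    by_cases hb : b = c
    · subst hb
      obtain ⟨g1, _, g3, g4⟩ := (h.mul_iff a b).1 h1
      rw [len_mul] at h2
      have ha : a ∈ X0 H n (insert b U) := by
        refine ⟨g1, by omega, ?_, ?_⟩
        · rintro (hh | hh)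
          · rw [hh] at g3
            exact h.irrefl _ g3
          · exact h.asymm g3 (s.lt _ hh)
        · rintro u v rfl
          rcases g4 with ⟨z, hz⟩ | ⟨u', v', huv, hv⟩
          · exact absurd hz.symm (of_ne_mul z u v)
          · obtain ⟨rfl, rfl⟩ := mul_inj huv
            by_contra hcon
            rw [len_mul] at h2
            exact hv (s.max v (h.right u v g1).1 (by omega) (fun hh => hcon (Or.inr hh))
              (fun hh => hcon (Or.inl hh)))
      obtain ⟨i1, i2⟩ := iha ha
      rw [unpack_pos]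
      refine ⟨?_, ?_⟩
      · intro x hx
        rcases List.mem_append.1 hx with hx | hx
        · exact i1 x hx
        · rw [List.mem_singleton] at hx
          subst hx
          exact s.c_mem h
      · intro j ts
        rw [List.foldl_append, i2]
        simp [pk]
    · rw [unpack_neg a b hb]
      have hne : a * b ≠ c := fun hh => h3 (Or.inl hh)
      refine ⟨?_, ?_⟩
      · intro x hx
        rw [List.mem_singleton] at hx
        subst hx
        refine ⟨h1, h2, fun hh => h3 (Or.inr hh), ?_⟩
        intro u v huv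
        obtain ⟨rfl, rfl⟩ := mul_inj huv
        rcases h4 a b rfl with hh | hh
        · exact absurd hh hb
        · exact hh
      · intro j ts
        simp [pk, hne]

theorem Step.pack (h : IsHall H r) (s : Step H r n U c) (u : List (FreeMagma α))
    (hu : ∀ t ∈ u, t ∈ X0 H n (insert c U)) (j : ℕ) (ts : List (FreeMagma α)) :
    (u.flatMap (unpack c)).foldl (pk c) (j, ts) = (j, u.reverse ++ ts) := by
  induction u generalizing ts with
  | nil => rfl
  | cons y u ih =>
    rw [List.flatMap_cons, List.foldl_append, (s.unpack_spec h (hu y (by simp))).2,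
      ih (fun t ht => hu t (by simp [ht]))]
    simp

theorem Step.split (h : IsHall H r) (s : Step H r n U c) (m : List (FreeMagma α))
    (hm : ∀ t ∈ m, t ∈ insert c U) (hp : m.Pairwise (fun x y => ¬ r x y)) :
    ∃ m0 j, m = m0 ++ List.replicate j c ∧ (∀ t ∈ m0, t ∈ U) ∧
      m0.Pairwise (fun x y => ¬ r x y) := by
  induction m with
  | nil => exact ⟨[], 0, rfl, by simp, by simp⟩
  | cons a m ih =>
    rw [List.pairwise_cons] at hp
    rcases hm a (by simp) with ha | ha
    · refine ⟨[], m.length + 1, ?_, by simp, by simp⟩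
      rw [List.nil_append, List.replicate_succ, ha]
      congr 1
      rw [List.eq_replicate_iff]
      refine ⟨rfl, fun b hb => ?_⟩
      rcases hm b (by simp [hb]) with hb' | hb'
      · exact hb'
      · exact absurd (s.lt b hb') (ha ▸ hp.1 b hb)
    · obtain ⟨m0, j, e, h1, h2⟩ := ih (fun t ht => hm t (by simp [ht])) hp.2
      refine ⟨a :: m0, j, by rw [e]; rfl, ?_, ?_⟩
      · intro t ht
        rcases List.mem_cons.1 ht with rfl | ht
        · exact ha
        · exact h1 t ht
      · rw [List.pairwise_cons]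
        exact ⟨fun b hb => hp.1 b (by rw [e]; simp [hb]), h2⟩

theorem letters_inj (u u' : List (FreeMagma α)) (hu : ∀ t ∈ u, ∃ a, t = FreeMagma.of a)
    (hu' : ∀ t ∈ u', ∃ a, t = FreeMagma.of a) (e : u.flatMap fol = u'.flatMap fol) : u = u' := by
  have key : ∀ v : List (FreeMagma α), (∀ t ∈ v, ∃ a, t = FreeMagma.of a) →
      v = (v.flatMap fol).map FreeMagma.of := by
    intro v hv
    induction v with
    | nil => rfl
    | cons t v ih =>
      obtain ⟨a, rfl⟩ := hv t (by simp)
      rw [List.flatMap_cons, fol_of, List.map_append, ← ih (fun t ht => hv t (by simp [ht]))]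
      rfl
  rw [key u hu, key u' hu', e]

theorem X0_empty {x : FreeMagma α} (hx : x ∈ X0 H n ∅) : ∃ a, x = FreeMagma.of a := by
  induction x with
  | ih1 a => exact ⟨a, rfl⟩
  | ih2 a b _ _ => exact absurd (hx.2.2.2 a b rfl) (by simp)

theorem IsHall.fol_inj [Finite α] (h : IsHall H r) (l l' : List (FreeMagma α))
    (hl : ∀ t ∈ l, t ∈ H) (hp : l.Pairwise (fun x y => ¬ r x y))
    (hl' : ∀ t ∈ l', t ∈ H) (hp' : l'.Pairwise (fun x y => ¬ r x y))
    (e : l.flatMap fol = l'.flatMap fol) : l = l' := by
  obtain ⟨n, hn⟩ : ∃ n, ∀ t ∈ l ++ l', len t ≤ n :=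
    ⟨((l ++ l').map len).sum, fun t ht => List.le_sum_of_mem (List.mem_map_of_mem ht)⟩
  have key := h.upInd n (fun U => ∀ m u m' u' : List (FreeMagma α),
      (∀ t ∈ m, t ∈ U) → m.Pairwise (fun x y => ¬ r x y) → (∀ t ∈ u, t ∈ X0 H n U) →
      (∀ t ∈ m', t ∈ U) → m'.Pairwise (fun x y => ¬ r x y) → (∀ t ∈ u', t ∈ X0 H n U) →
      (m ++ u).flatMap fol = (m' ++ u').flatMap fol → m = m' ∧ u = u') ?_ ?_
  · exact (key l [] l' [] (fun t ht => ⟨hl t ht, hn t (by simp [ht])⟩) hp (by simp)
      (fun t ht => ⟨hl' t ht, hn t (by simp [ht])⟩) hp' (by simp) (by simpa using e)).1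
  · intro m u m' u' h1 _ h3 h4 _ h6 e
    have e1 : m = [] := List.eq_nil_iff_forall_not_mem.2 fun t ht => h1 t ht
    have e2 : m' = [] := List.eq_nil_iff_forall_not_mem.2 fun t ht => h4 t ht
    subst e1 e2
    exact ⟨rfl, letters_inj u u' (fun t ht => X0_empty (h3 t ht)) (fun t ht => X0_empty (h6 t ht))
      (by simpa using e)⟩
  · intro U c s ih m u m' u' h1 h2 h3 h4 h5 h6 e
    obtain ⟨m0, j, rfl, a1, a2⟩ := s.split h m h1 h2
    obtain ⟨m0', j', rfl, a1', a2'⟩ := s.split h m' h4 h5
    have mem : ∀ (j : ℕ) (u : List (FreeMagma α)), (∀ t ∈ u, t ∈ X0 H n (insert c U)) →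
        ∀ t ∈ List.replicate j c ++ u.flatMap (unpack c), t ∈ X0 H n U := by
      intro j u hu t ht
      rcases List.mem_append.1 ht with ht | ht
      · rw [(List.mem_replicate.1 ht).2]
        exact s.c_mem h
      · obtain ⟨y, hy, hty⟩ := List.mem_flatMap.1 ht
        exact (s.unpack_spec h (hu y hy)).1 t hty
    have fl : ∀ u : List (FreeMagma α), (u.flatMap (unpack c)).flatMap fol = u.flatMap fol := by
      intro u
      rw [List.flatMap_assoc]
      simp only [fol_unpack]
    obtain ⟨b1, b2⟩ := ih m0 (List.replicate j c ++ u.flatMap (unpack c)) m0'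
      (List.replicate j' c ++ u'.flatMap (unpack c)) a1 a2 (mem j u h3) a1' a2' (mem j' u' h6)
      (by simpa only [List.flatMap_append, fl, List.append_assoc] using e)
    have b3 := congrArg (fun L => List.foldl (pk c) (0, []) L) b2
    simp only [List.foldl_append, pk_replicate, s.pack h u h3, s.pack h u' h6, Prod.mk.injEq,
      zero_add, List.append_nil, List.reverse_inj] at b3
    rw [b1, b3.1, b3.2]
    exact ⟨rfl, rfl⟩

end Pool.Agent.H943Z.Hall
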