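import Mathlib

set_option autoImplicit false

namespace Pool.Agent.H943Z.Zinb

/-- A commutative algebra with an integration `I x y` (think of the integral of `x dy`). -/
structure Integ (R : Type) [CommRing R] [Algebra ℚ R] where
  I : R →ₗ[ℚ] R →ₗ[ℚ] R
  e : R →ₐ[ℚ] ℚ
  leib : ∀ x y z, I x (y * z) = I (x * y) z + I (x * z) y
  assoc : ∀ x y z, I x (I y z) = I (x * y) z
  one : ∀ y, I 1 y = y - algebraMap ℚ R (e y)
  eI : ∀ x y, e (I x y) = 0

variable {R : Type} [CommRing R] [Algebra ℚ R] (D : Integ R)

/-- the area bracket -/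
def Integ.br (x y : R) : R := D.I x y - D.I y x

theorem Integ.I_one (x : R) : D.I x 1 = 0 := by
  have h := D.leib x 1 1
  simp only [mul_one] at h
  exact left_eq_add.1 h

theorem Integ.I_br (x y z : R) : D.I x (D.br y z) = D.I (x * y) z - D.I (x * z) y := by
  simp [Integ.br, D.assoc]

theorem Integ.e_br (x y : R) : D.e (D.br x y) = 0 := by
  simp [Integ.br, D.eI]

theorem Integ.I_pow (x c : R) (m : ℕ) :
    D.I x (c ^ (m + 1)) = ((m : ℚ) + 1) • D.I (x * c ^ m) c := by
  induction m generalizing x with
  | zero => simp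
  | succ m ih =>
    rw [pow_succ, D.leib, ih]
    have h1 : x * c * c ^ m = x * c ^ (m + 1) := by ring
    rw [h1]
    push_cast
    rw [add_smul ((m : ℚ) + 1) 1, one_smul, add_comm]

/-- iterated integrals of elements of `Y` -/
inductive It (Y : Set R) : R → Prop
  | one : It Y 1
  | step (b y : R) : It Y b → y ∈ Y → It Y (D.I b y)

/-- span of the iterated integrals -/
def BS (Y : Set R) : Submodule ℚ R := Submodule.span ℚ {b | It D Y b}

theorem It.mem {Y : Set R} {b : R} (h : It D Y b) : b ∈ BS D Y := Submodule.subset_span h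

theorem BS_step {Y : Set R} {b y : R} (hb : b ∈ BS D Y) (hy : y ∈ Y) : D.I b y ∈ BS D Y := by
  induction hb using Submodule.span_induction with
  | mem x hx => exact (It.step x y hx hy).mem
  | zero => simp
  | add x z _ _ h1 h2 => rw [map_add, LinearMap.add_apply]; exact add_mem h1 h2
  | smul a x _ h1 => rw [map_smul, LinearMap.smul_apply]; exact Submodule.smul_mem _ _ h1

theorem It.mul_mem {Y : Set R} {a b : R} (ha : It D Y a) (hb : It D Y b) : a * b ∈ BS D Y := by
  induction ha generalizing b with
  | one => rw [one_mul]; exact hb.mem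
  | step a y ha hy iha =>
    induction hb with
    | one => rw [mul_one]; exact (It.step a y ha hy).mem
    | step b z hb hz ihb =>
      have h1 : D.I a y * D.I b z = D.I 1 (D.I a y * D.I b z) := by
        rw [D.one, map_mul, D.eI]
        simp
      rw [h1, D.leib, one_mul, one_mul, D.assoc, D.assoc]
      refine add_mem (BS_step D ihb hz) (BS_step D ?_ hy)
      rw [mul_comm]
      exact iha (It.step b z hb hz)

theorem BS_mul {Y : Set R} {a b : R} (ha : a ∈ BS D Y) (hb : b ∈ BS D Y) : a * b ∈ BS D Y := by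
  induction ha using Submodule.span_induction with
  | mem x hx =>
    induction hb using Submodule.span_induction with
    | mem z hz => exact It.mul_mem D hx hz
    | zero => simp
    | add x z _ _ h1 h2 => rw [mul_add]; exact add_mem h1 h2
    | smul a x _ h1 => rw [mul_smul_comm]; exact Submodule.smul_mem _ _ h1
  | zero => simp
  | add x z _ _ h1 h2 => rw [add_mul]; exact add_mem h1 h2
  | smul a x _ h1 => rw [smul_mul_assoc]; exact Submodule.smul_mem _ _ h1

theorem BS_one (Y : Set R) : (1 : R) ∈ BS D Y := (It.one).mem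

theorem BS_I {Y : Set R} {a b : R} (ha : a ∈ BS D Y) (hb : b ∈ BS D Y) : D.I a b ∈ BS D Y := by
  induction hb using Submodule.span_induction with
  | mem z hz =>
    cases hz with
    | one => rw [D.I_one]; exact zero_mem _
    | step b y hb hy => rw [D.assoc]; exact BS_step D (BS_mul D ha hb.mem) hy
  | zero => simp
  | add x z _ _ h1 h2 => rw [map_add]; exact add_mem h1 h2
  | smul a x _ h1 => rw [map_smul]; exact Submodule.smul_mem _ _ h1

theorem BS_gen {Y : Set R} (hY : ∀ y ∈ Y, D.e y = 0) {y : R} (hy : y ∈ Y) : y ∈ BS D Y := by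
  have := BS_step D (BS_one D Y) hy
  rwa [D.one, hY y hy, map_zero, sub_zero] at this

theorem BS_prod {Y : Set R} (hY : ∀ y ∈ Y, D.e y = 0) (L : List R) (hL : ∀ y ∈ L, y ∈ Y) :
    L.prod ∈ BS D Y := by
  induction L with
  | nil => exact BS_one D Y
  | cons y L ih =>
    rw [List.prod_cons]
    exact BS_mul D (BS_gen D hY (hL y (by simp))) (ih fun z hz => hL z (by simp [hz]))

/-- polynomials in `c` with coefficients in the span of iterated integrals -/
def CS (Y : Set R) (c : R) : Submodule ℚ R :=
  Submodule.span ℚ {x | ∃ (j : ℕ) (b : R), b ∈ BS D Y ∧ x = c ^ j * b}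

theorem CS_mem {Y : Set R} (c : R) (j : ℕ) {b : R} (hb : b ∈ BS D Y) : c ^ j * b ∈ CS D Y c :=
  Submodule.subset_span ⟨j, b, hb, rfl⟩

theorem smul_cancel (S : Submodule ℚ R) (q : ℚ) (hq : q ≠ 0) {x : R} (h : q • x ∈ S) : x ∈ S := by
  have := S.smul_mem q⁻¹ h
  rwa [smul_smul, inv_mul_cancel₀ hq, one_smul] at this

theorem I_c_eq (c : R) (hc : D.e c = 0) (j : ℕ) (g : R) :
    ((j : ℚ) + 1) • D.I (c ^ j * g) c = c ^ (j + 1) * g - D.I (c ^ (j + 1)) g := by
  have h1 := D.leib 1 (c ^ (j + 1)) g
  rw [D.one, one_mul, one_mul, D.I_pow g c j, map_mul, map_pow, hc, mul_comm g] at h1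
  simp only [ne_eq, Nat.add_eq_zero_iff, one_ne_zero, and_false, not_false_eq_true, zero_pow,
    zero_mul, map_zero, sub_zero] at h1
  rw [h1]
  abel

theorem key {Y : Set R} (hY : ∀ y ∈ Y, D.e y = 0) (c : R) (hc : D.e c = 0)
    (hYc : ∀ y ∈ Y, D.br y c ∈ Y) (j : ℕ) :
    ∀ g ∈ BS D Y, D.I (c ^ j) g ∈ CS D Y c := by
  induction j with
  | zero =>
    intro g hg
    have := CS_mem D c 0 (BS_I D (BS_one D Y) hg)
    simpa using this
  | succ j ih =>
    have star : ∀ d ∈ BS D Y, ∀ y ∈ Y,
        ((j : ℚ) + 1) • D.I (c ^ (j + 1) * d) y + D.I (c ^ (j + 1)) (d * y) ∈ CS D Y c := by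
      intro d hd y hy
      have h1 : D.I (c ^ (j + 1) * d) y =
          D.I (c ^ j * (d * y)) c - D.I (c ^ j) (D.I d (D.br y c)) := by
        rw [D.assoc, D.I_br]
        have e1 : c ^ j * d * y = c ^ j * (d * y) := by ring
        have e2 : c ^ j * d * c = c ^ (j + 1) * d := by ring
        rw [e1, e2]
        abel
      rw [h1, smul_sub, I_c_eq D c hc]
      have e3 : c ^ (j + 1) * (d * y) - D.I (c ^ (j + 1)) (d * y) -
          ((j : ℚ) + 1) • D.I (c ^ j) (D.I d (D.br y c)) + D.I (c ^ (j + 1)) (d * y) =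
          c ^ (j + 1) * (d * y) - ((j : ℚ) + 1) • D.I (c ^ j) (D.I d (D.br y c)) := by abel
      rw [e3]
      exact sub_mem (CS_mem D c _ (BS_mul D hd (BS_gen D hY hy)))
        (Submodule.smul_mem _ _ (ih _ (BS_step D hd (hYc y hy))))
    have lst : ∀ (L : List R), (∀ y ∈ L, y ∈ Y) → ∀ d ∈ BS D Y,
        ((j : ℚ) + 1) • D.I (c ^ (j + 1) * d) L.prod +
          (L.length : ℚ) • D.I (c ^ (j + 1)) (d * L.prod) ∈ CS D Y c := by
      intro L
      induction L with
      | nil => intro _ d _; simp [D.I_one]
      | cons y L ihL =>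
        intro hL d hd
        have hy : y ∈ Y := hL y (by simp)
        have hL' : ∀ z ∈ L, z ∈ Y := fun z hz => hL z (by simp [hz])
        have a1 := ihL hL' (d * y) (BS_mul D hd (BS_gen D hY hy))
        have a2 := star (d * L.prod) (BS_mul D hd (BS_prod D hY L hL')) y hy
        have a3 := add_mem a1 a2
        rw [List.prod_cons, D.leib, List.length_cons]
        have e1 : c ^ (j + 1) * d * y = c ^ (j + 1) * (d * y) := by ring
        have e2 : c ^ (j + 1) * d * L.prod = c ^ (j + 1) * (d * L.prod) := by ring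
        have e3 : d * y * L.prod = d * (y * L.prod) := by ring
        have e4 : d * L.prod * y = d * (y * L.prod) := by ring
        rw [e3, e4] at a3
        rw [e1, e2]
        convert a3 using 1
        push_cast
        rw [smul_add, add_smul (L.length : ℚ) 1, one_smul]
        abel
    have main : ∀ b, It D Y b → ∀ (L : List R), (∀ y ∈ L, y ∈ Y) →
        D.I (c ^ (j + 1)) (b * L.prod) ∈ CS D Y c := by
      intro b hb
      induction hb with
      | one =>
        intro L hL
        have a1 := lst L hL 1 (BS_one D Y)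
        rw [mul_one, one_mul, ← add_smul] at a1
        rw [one_mul]
        exact smul_cancel _ _ (by positivity) a1
      | step b z hb hz ihb =>
        intro L hL
        have a1 := lst L hL (D.I b z) (It.step b z hb hz).mem
        have a2 := star (L.prod * b) (BS_mul D (BS_prod D hY L hL) hb.mem) z hz
        have a3 := ihb (z :: L) (by
          intro y hy
          rcases List.mem_cons.1 hy with h | h
          · exact h ▸ hz
          · exact hL y h)
        have e1 : b * (z :: L).prod = L.prod * b * z := by rw [List.prod_cons]; ring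
        rw [e1] at a3
        have a4 := add_mem a1 (sub_mem a2 a3)
        have e2 : D.I (c ^ (j + 1)) (D.I b z * L.prod) =
            D.I (c ^ (j + 1) * D.I b z) L.prod + D.I (c ^ (j + 1) * (L.prod * b)) z := by
          rw [D.leib, D.assoc, mul_assoc]
        refine smul_cancel _ ((j : ℚ) + 1 + L.length) (by positivity) ?_
        convert a4 using 1
        rw [add_smul]
        nth_rewrite 1 [e2]
        rw [smul_add]
        abel
    intro g hg
    induction hg using Submodule.span_induction with
    | mem z hz => simpa using main z hz [] (by simp)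
    | zero => simp
    | add x z _ _ h1 h2 => rw [map_add]; exact add_mem h1 h2
    | smul a x _ h1 => rw [map_smul]; exact Submodule.smul_mem _ _ h1

theorem CS_step {Y : Set R} (hY : ∀ y ∈ Y, D.e y = 0) (c : R) (hc : D.e c = 0)
    (hYc : ∀ y ∈ Y, D.br y c ∈ Y) {x y : R} (hx : x ∈ CS D Y c) (hy : y ∈ insert c Y) :
    D.I x y ∈ CS D Y c := by
  induction hx using Submodule.span_induction with
  | mem z hz =>
    obtain ⟨j, b, hb, rfl⟩ := hz
    rcases hy with rfl | hy
    · refine smul_cancel _ ((j : ℚ) + 1) (by positivity) ?_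
      rw [I_c_eq D y hc]
      exact sub_mem (CS_mem D y _ hb) (key D hY y hc hYc _ b hb)
    · rw [← D.assoc]
      exact key D hY c hc hYc j _ (BS_step D hb hy)
  | zero => simp
  | add x z _ _ h1 h2 => rw [map_add, LinearMap.add_apply]; exact add_mem h1 h2
  | smul a x _ h1 => rw [map_smul, LinearMap.smul_apply]; exact Submodule.smul_mem _ _ h1

/-- Elimination step. -/
theorem elim {X Y : Set R} (hY : ∀ y ∈ Y, D.e y = 0) (c : R) (hc : D.e c = 0)
    (hYc : ∀ y ∈ Y, D.br y c ∈ Y) (hX : X ⊆ insert c Y) (A : Subalgebra ℚ R) (hcA : c ∈ A)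
    (hA : ∀ b ∈ BS D Y, b ∈ A) : ∀ b ∈ BS D X, b ∈ A := by
  have h1 : ∀ x ∈ CS D Y c, x ∈ A := by
    intro x hx
    induction hx using Submodule.span_induction with
    | mem z hz =>
      obtain ⟨j, b, hb, rfl⟩ := hz
      exact A.mul_mem (A.pow_mem hcA j) (hA b hb)
    | zero => exact A.zero_mem
    | add x z _ _ h1 h2 => exact A.add_mem h1 h2
    | smul a x _ h1 => exact A.smul_mem h1 a
  have h2 : ∀ b, It D X b → b ∈ CS D Y c := by
    intro b hb
    induction hb with
    | one => simpa using CS_mem D c 0 (BS_one D Y)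
    | step b y _ hy ih => exact CS_step D hY c hc hYc ih (hX hy)
  intro b hb
  apply h1
  induction hb using Submodule.span_induction with
  | mem z hz => exact h2 z hz
  | zero => simp
  | add x z _ _ h1 h2 => exact add_mem h1 h2
  | smul a x _ h1 => exact Submodule.smul_mem _ _ h1

end Pool.Agent.H943Z.Zinb
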