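import Mathlib
import Pool.Agent.H943Z.Zinb
import Pool.Agent.H943Z.Hall

set_option autoImplicit false

namespace Pool.Agent.H943Z.Shuf

open Pool.Agent.H943Z.Zinb Pool.Agent.H943Z.Hall

/-- words -/
abbrev V (d : ℕ) : Type := List (Fin d) →₀ ℚ

/-- shuffle and half shuffle, characterised by their recursions -/
structure Data (d : ℕ) where
  sh : V d →ₗ[ℚ] V d →ₗ[ℚ] V d
  hs : V d →ₗ[ℚ] V d →ₗ[ℚ] V d
  one_sh : ∀ x, sh (Finsupp.single [] 1) x = x
  sh_one : ∀ x, sh x (Finsupp.single [] 1) = x
  sh_rec : ∀ (u v : List (Fin d)) (a b : Fin d),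
      sh (Finsupp.single (u ++ [a]) 1) (Finsupp.single (v ++ [b]) 1) =
        Finsupp.mapDomain (fun w : List (Fin d) => w ++ [a])
            (sh (Finsupp.single u 1) (Finsupp.single (v ++ [b]) 1)) +
          Finsupp.mapDomain (fun w : List (Fin d) => w ++ [b])
            (sh (Finsupp.single (u ++ [a]) 1) (Finsupp.single v 1))
  hs_one : ∀ x, hs x (Finsupp.single [] 1) = 0
  hs_rec : ∀ (x : V d) (v : List (Fin d)) (b : Fin d),
      hs x (Finsupp.single (v ++ [b]) 1) =
        Finsupp.mapDomain (fun w : List (Fin d) => w ++ [b]) (sh x (Finsupp.single v 1))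

variable {d : ℕ}

theorem app_inj (b : Fin d) : Function.Injective (fun w : List (Fin d) => w ++ [b]) :=
  List.append_left_injective [b]

/-- removal of a last letter -/
noncomputable def del (b : Fin d) : V d →ₗ[ℚ] V d := Finsupp.lcomapDomain _ (app_inj b)

theorem del_apply (b : Fin d) (x : V d) (w : List (Fin d)) : del b x w = x (w ++ [b]) := rfl

/-- appending a letter -/
noncomputable def app (b : Fin d) : V d →ₗ[ℚ] V d :=
  Finsupp.lmapDomain ℚ ℚ (fun w : List (Fin d) => w ++ [b])

theorem app_def (b : Fin d) (x : V d) :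
    Finsupp.mapDomain (fun w : List (Fin d) => w ++ [b]) x = app b x := rfl

theorem app_nil (b : Fin d) (x : V d) : app b x [] = 0 := by
  rw [← app_def]
  apply Finsupp.mapDomain_notin_range
  rintro ⟨w, hw⟩
  simp at hw

theorem del_app (a b : Fin d) (x : V d) : del b (app a x) = if a = b then x else 0 := by
  ext w
  rw [del_apply, ← app_def]
  split_ifs with h
  · subst h
    exact Finsupp.mapDomain_apply (app_inj a) x w
  · rw [Finsupp.mapDomain_notin_range]
    · rfl
    · rintro ⟨v, hv⟩
      simp only at hv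
      exact h (List.append_singleton_inj.1 hv).2

theorem app_single (a : Fin d) (u : List (Fin d)) :
    app a (Finsupp.single u 1) = Finsupp.single (u ++ [a]) 1 := by
  rw [← app_def, Finsupp.mapDomain_single]

theorem del_single (a b : Fin d) (u : List (Fin d)) :
    del b (Finsupp.single (u ++ [a]) 1) = if a = b then Finsupp.single u 1 else 0 := by
  rw [← app_single, del_app]

theorem del_nil (b : Fin d) : del b (Finsupp.single [] 1) = 0 := by
  ext w
  rw [del_apply, Finsupp.single_eq_of_ne (by simp)]
  rfl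

theorem ext_del {x y : V d} (h0 : x [] = y []) (h : ∀ b, del b x = del b y) : x = y := by
  ext w
  rcases List.eq_nil_or_concat' w with rfl | ⟨v, b, rfl⟩
  · exact h0
  · rw [← del_apply, ← del_apply, h]

theorem bilin_ext {W : Type} [AddCommGroup W] [Module ℚ W] (f g : V d →ₗ[ℚ] V d →ₗ[ℚ] W)
    (h : ∀ u v : List (Fin d), f (Finsupp.single u 1) (Finsupp.single v 1) =
      g (Finsupp.single u 1) (Finsupp.single v 1)) (x y : V d) : f x y = g x y := by
  have : f = g := by
    apply Finsupp.lhom_ext'
    intro u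
    apply LinearMap.ext_ring
    apply Finsupp.lhom_ext'
    intro v
    apply LinearMap.ext_ring
    exact h u v
  rw [this]

variable (D : Data d)

theorem sh_nil (x y : V d) : D.sh x y [] = x [] * y [] := by
  refine bilin_ext (D.sh.compr₂ (Finsupp.lapply [])) 
    ((LinearMap.mul ℚ ℚ).compl₁₂ (Finsupp.lapply []) (Finsupp.lapply [])) ?_ x y
  intro u v
  simp only [LinearMap.compr₂_apply, Finsupp.lapply_apply, LinearMap.compl₁₂_apply,
    LinearMap.mul_apply']
  rcases List.eq_nil_or_concat' u with rfl | ⟨u, a, rfl⟩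
  · rw [D.one_sh]; simp
  rcases List.eq_nil_or_concat' v with rfl | ⟨v, b, rfl⟩
  · rw [D.sh_one]; simp
  rw [D.sh_rec, app_def, app_def, Finsupp.add_apply, app_nil, app_nil,
    Finsupp.single_eq_of_ne (by simp)]
  simp

theorem del_sh (c : Fin d) (x y : V d) :
    del c (D.sh x y) = D.sh (del c x) y + D.sh x (del c y) := by
  refine bilin_ext (D.sh.compr₂ (del c))
    (D.sh.compl₁₂ (del c) LinearMap.id + D.sh.compl₁₂ LinearMap.id (del c)) ?_ x y
  intro u v
  simp only [LinearMap.compr₂_apply, LinearMap.compl₁₂_apply, LinearMap.add_apply,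
    LinearMap.id_apply]
  rcases List.eq_nil_or_concat' u with rfl | ⟨u, a, rfl⟩
  · rw [D.one_sh, D.one_sh, del_nil]; simp
  rcases List.eq_nil_or_concat' v with rfl | ⟨v, b, rfl⟩
  · rw [D.sh_one, D.sh_one, del_nil]; simp
  rw [D.sh_rec, app_def, app_def, map_add, del_app, del_app, del_single, del_single]
  split_ifs <;> simp

theorem hs_nil (x y : V d) : D.hs x y [] = 0 := by
  refine bilin_ext (D.hs.compr₂ (Finsupp.lapply [])) 0 ?_ x y
  intro u v
  simp only [LinearMap.compr₂_apply, Finsupp.lapply_apply, LinearMap.zero_apply]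
  rcases List.eq_nil_or_concat' v with rfl | ⟨v, b, rfl⟩
  · rw [D.hs_one]; simp
  rw [D.hs_rec, app_def, app_nil]

theorem del_hs (c : Fin d) (x y : V d) : del c (D.hs x y) = D.sh x (del c y) := by
  refine bilin_ext (D.hs.compr₂ (del c)) (D.sh.compl₁₂ LinearMap.id (del c)) ?_ x y
  intro u v
  simp only [LinearMap.compr₂_apply, LinearMap.compl₁₂_apply, LinearMap.id_apply]
  rcases List.eq_nil_or_concat' v with rfl | ⟨v, b, rfl⟩
  · rw [D.hs_one, del_nil]; simp
  rw [D.hs_rec, app_def, del_app, del_single]
  split_ifs <;> simp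

theorem sh_comm (x y : V d) : D.sh x y = D.sh y x := by
  have key : ∀ w : List (Fin d), ∀ x y : V d, D.sh x y w = D.sh y x w := by
    intro w
    induction w using List.reverseRecOn with
    | nil => intro x y; rw [sh_nil, sh_nil, mul_comm]
    | append_singleton w b ih =>
      intro x y
      rw [← del_apply, ← del_apply, del_sh, del_sh, Finsupp.add_apply, Finsupp.add_apply,
        ih (del b x) y, ih x (del b y), add_comm]
  ext w
  exact key w x y

theorem sh_assoc (x y z : V d) : D.sh (D.sh x y) z = D.sh x (D.sh y z) := by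
  have key : ∀ w : List (Fin d), ∀ x y z : V d,
      D.sh (D.sh x y) z w = D.sh x (D.sh y z) w := by
    intro w
    induction w using List.reverseRecOn with
    | nil => intro x y z; simp only [sh_nil, mul_assoc]
    | append_singleton w b ih =>
      intro x y z
      rw [← del_apply, ← del_apply]
      simp only [del_sh, map_add, LinearMap.add_apply, Finsupp.add_apply, ih, add_assoc]
  ext w
  exact key w x y z

theorem hs_leib (x y z : V d) :
    D.hs x (D.sh y z) = D.hs (D.sh x y) z + D.hs (D.sh x z) y := by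
  apply ext_del
  · simp [hs_nil]
  · intro b
    rw [map_add, del_hs, del_hs, del_hs, del_sh, map_add, sh_assoc, sh_assoc,
      sh_comm D (del b y) z, add_comm]

theorem hs_assoc (x y z : V d) : D.hs x (D.hs y z) = D.hs (D.sh x y) z := by
  apply ext_del
  · simp [hs_nil]
  · intro b
    rw [del_hs, del_hs, del_hs, sh_assoc]

theorem hs_unit (y : V d) :
    D.hs (Finsupp.single [] 1) y = y - (y []) • (Finsupp.single [] 1 : V d) := by
  apply ext_del
  · simp [hs_nil]
  · intro b
    rw [del_hs, D.one_sh, map_sub, map_smul, del_nil]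
    simp

/-- the shuffle algebra -/
def Sh (_D : Data d) : Type := V d

noncomputable instance : AddCommGroup (Sh D) := inferInstanceAs (AddCommGroup (V d))
noncomputable instance : Module ℚ (Sh D) := inferInstanceAs (Module ℚ (V d))

noncomputable instance : CommRing (Sh D) :=
  { (inferInstance : AddCommGroup (Sh D)) with
    mul := fun x y => D.sh x y
    one := (Finsupp.single [] 1 : V d)
    mul_assoc := sh_assoc D
    one_mul := D.one_sh
    mul_one := D.sh_one
    left_distrib := fun x y z => map_add (D.sh x) y z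
    right_distrib := fun x y z => LinearMap.map_add₂ D.sh x y z
    zero_mul := fun x => LinearMap.map_zero₂ D.sh x
    mul_zero := fun x => map_zero (D.sh x)
    mul_comm := sh_comm D }

noncomputable instance : Algebra ℚ (Sh D) :=
  Algebra.ofModule
    (fun q x y => LinearMap.map_smul₂ D.sh q x y)
    (fun q x y => map_smul (D.sh x) q y)

theorem mul_def (x y : Sh D) : x * y = D.sh x y := rfl
theorem one_def : (1 : Sh D) = (Finsupp.single [] 1 : V d) := rfl

/-- constant term -/
noncomputable def eps : Sh D →ₐ[ℚ] ℚ :=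
  AlgHom.ofLinearMap (Finsupp.lapply ([] : List (Fin d)) : V d →ₗ[ℚ] ℚ)
    (by
      show (Finsupp.single ([] : List (Fin d)) (1 : ℚ)) [] = 1
      simp)
    (fun x y => sh_nil D x y)

/-- the integration structure -/
noncomputable def integ : Integ (Sh D) where
  I := D.hs
  e := eps D
  leib x y z := hs_leib D x y z
  assoc x y z := hs_assoc D x y z
  one y := by
    rw [Algebra.algebraMap_eq_smul_one]
    exact hs_unit D y
  eI x y := hs_nil D x y

/-- homogeneous part -/
def G (d : ℕ) (P : ℕ → Prop) : Submodule ℚ (V d) :=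
  Finsupp.supported ℚ ℚ {w : List (Fin d) | P w.length}

theorem mem_G {P : ℕ → Prop} {x : V d} : x ∈ G d P ↔ ∀ w, ¬ P w.length → x w = 0 :=
  Finsupp.mem_supported' ℚ x

theorem sh_deg (w : List (Fin d)) : ∀ (x y : V d) (P Q : ℕ → Prop), x ∈ G d P → y ∈ G d Q →
    (∀ i j, P i → Q j → i + j ≠ w.length) → D.sh x y w = 0 := by
  induction w using List.reverseRecOn with
  | nil =>
    intro x y P Q hx hy h
    rw [sh_nil]
    by_cases hP : P 0
    · rw [mem_G.1 hy [] (fun hQ => h 0 0 hP hQ rfl), mul_zero]
    · rw [mem_G.1 hx [] hP, zero_mul]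
  | append_singleton w b ih =>
    intro x y P Q hx hy h
    rw [← del_apply, del_sh, Finsupp.add_apply]
    rw [ih (del b x) y (fun i => P (i + 1)) Q ?_ hy ?_, ih x (del b y) P (fun i => Q (i + 1)) hx ?_ ?_,
      add_zero]
    · rw [mem_G]
      intro v hv
      rw [del_apply]
      exact mem_G.1 hy _ (by simpa using hv)
    · intro i j hi hj e
      exact h i (j + 1) hi hj (by simp; omega)
    · rw [mem_G]
      intro v hv
      rw [del_apply]
      exact mem_G.1 hx _ (by simpa using hv)
    · intro i j hi hj e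
      exact h (i + 1) j hi hj (by simp; omega)

theorem sh_mem {P Q S : ℕ → Prop} {x y : V d} (hx : x ∈ G d P) (hy : y ∈ G d Q)
    (h : ∀ i j, P i → Q j → S (i + j)) : D.sh x y ∈ G d S := by
  rw [mem_G]
  intro w hw
  exact sh_deg D w x y P Q hx hy fun i j hi hj e => hw (e ▸ h i j hi hj)

theorem hs_mem {P Q S : ℕ → Prop} {x y : V d} (hx : x ∈ G d P) (hy : y ∈ G d Q)
    (h : ∀ i j, P i → Q j → S (i + j)) : D.hs x y ∈ G d S := by
  rw [mem_G]
  intro w hw
  rcases List.eq_nil_or_concat' w with rfl | ⟨v, b, rfl⟩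
  · exact hs_nil D x y
  · rw [← del_apply, del_hs]
    refine sh_deg D v x (del b y) P (fun i => Q (i + 1)) hx ?_ ?_
    · rw [mem_G]
      intro u hu
      rw [del_apply]
      exact mem_G.1 hy _ (by simpa using hu)
    · intro i j hi hj e
      apply hw
      have := h i (j + 1) hi hj
      simpa [← e, add_assoc] using this

theorem mem_G_true (x : V d) : x ∈ G d (fun _ => True) := by
  rw [mem_G]
  intro w hw
  exact absurd trivial hw

end Pool.Agent.H943Z.Shuf
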