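import Mathlib
import Pool.Agent.H943Z.Shuf

set_option autoImplicit false

namespace Pool.Agent.H943Z.Shuf

open Pool.Agent.H943Z.Zinb Pool.Agent.H943Z.Hall

variable {d : ℕ} (D : Data d)

/-- iterated areas -/
structure IsArea (ar : FreeMagma (Fin d) → V d) : Prop where
  of_eq : ∀ a : Fin d, ar (FreeMagma.of a) = Finsupp.single [a] 1
  mul_eq : ∀ x y : FreeMagma (Fin d), ar (x * y) = D.hs (ar x) (ar y) - D.hs (ar y) (ar x)

variable {D} {ar : FreeMagma (Fin d) → V d}

theorem IsArea.deg (ha : IsArea D ar) (t : FreeMagma (Fin d)) : ar t ∈ G d (fun i => i = len t) := by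
  induction t with
  | ih1 a =>
    rw [ha.of_eq]
    exact Finsupp.single_mem_supported ℚ 1 (by simp)
  | ih2 x y hx hy =>
    rw [ha.mul_eq]
    refine sub_mem (hs_mem D hx hy ?_) (hs_mem D hy hx ?_)
    · rintro i j rfl rfl
      simp
    · rintro i j rfl rfl
      simp [add_comm]

theorem IsArea.eps_eq (ha : IsArea D ar) (t : FreeMagma (Fin d)) : (integ D).e (ar t) = 0 :=
  mem_G.1 (ha.deg t) [] (by have := len_pos t; simp; omega)

/-- areas seen in the shuffle algebra -/
def arS (D : Data d) (ar : FreeMagma (Fin d) → V d) (t : FreeMagma (Fin d)) : Sh D := ar t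

/-- current generators -/
def XS (D : Data d) (ar : FreeMagma (Fin d) → V d) (H : Set (FreeMagma (Fin d))) (n : ℕ)
    (U : Set (FreeMagma (Fin d))) : Set (Sh D) :=
  arS D ar '' (X0 H n U ∪ {t | n < len t})

variable {H : Set (FreeMagma (Fin d))} {r : FreeMagma (Fin d) → FreeMagma (Fin d) → Prop}

theorem single_It (h : IsHall H r) (ha : IsArea D ar) (n : ℕ) (w : List (Fin d)) :
    It (integ D) (XS D ar H n ∅) (Finsupp.single w 1 : V d) := by
  induction w using List.reverseRecOn with
  | nil => exact It.one
  | append_singleton w b ih =>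
    have e : (Finsupp.single (w ++ [b]) 1 : V d) =
        D.hs (Finsupp.single w 1) (ar (FreeMagma.of b)) := by
      have := D.hs_rec (Finsupp.single w 1) [] b
      rw [List.nil_append, D.sh_one, Finsupp.mapDomain_single] at this
      rw [ha.of_eq, this]
    rw [e]
    refine It.step (D := integ D) _ _ ih ⟨FreeMagma.of b, ?_, rfl⟩
    by_cases hn : n < 1
    · exact Or.inr hn
    · exact Or.inl ⟨h.of_mem b, by simp; omega, by simp,
        fun u v huv => absurd huv (of_ne_mul b u v)⟩

theorem gen (h : IsHall H r) (ha : IsArea D ar) (n : ℕ) (A : Subalgebra ℚ (Sh D))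
    (h1 : ∀ u ∈ H, arS D ar u ∈ A)
    (h2 : ∀ x : V d, x ∈ G d (fun i => n < i) → (show Sh D from x) ∈ A) (w : List (Fin d)) :
    (show Sh D from (Finsupp.single w 1 : V d)) ∈ A := by
  have key := h.upInd n (fun U => ∀ A : Subalgebra ℚ (Sh D), (∀ u ∈ U, arS D ar u ∈ A) →
      (∀ b ∈ BS (integ D) (XS D ar H n U), b ∈ A) →
      (show Sh D from (Finsupp.single w 1 : V d)) ∈ A) ?_ ?_
  · refine key A (fun u hu => h1 u hu.1) ?_
    have it : ∀ b, It (integ D) (XS D ar H n {x | x ∈ H ∧ len x ≤ n}) b → b ∈ A := by
      intro b hb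
      cases hb with
      | one => exact A.one_mem
      | step b y _ hy =>
        obtain ⟨t, ht, rfl⟩ := hy
        rcases ht with ht | ht
        · exact absurd ⟨ht.1, ht.2.1⟩ ht.2.2.1
        · refine h2 _ (hs_mem D (mem_G_true b) (ha.deg t) ?_)
          rintro i j - rfl
          exact lt_of_lt_of_le ht (Nat.le_add_left _ _)
    intro b hb
    induction hb using Submodule.span_induction with
    | mem z hz => exact it z hz
    | zero => exact A.zero_mem
    | add x z _ _ h1 h2 => exact A.add_mem h1 h2
    | smul a x _ h1 => exact A.smul_mem h1 a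
  · intro A _ hA
    exact hA _ (single_It h ha n w).mem
  · intro U c s ih A hU hA
    refine ih A (fun u hu => hU u (Or.inr hu)) ?_
    refine elim (integ D) (Y := XS D ar H n (insert c U)) ?_ (arS D ar c) (ha.eps_eq c) ?_ ?_ A
      (hU c (Or.inl rfl)) hA
    · rintro y ⟨t, -, rfl⟩
      exact ha.eps_eq t
    · rintro y ⟨t, ht, rfl⟩
      refine ⟨t * c, ?_, ha.mul_eq t c⟩
      by_cases hl : len (t * c) ≤ n
      · rcases ht with ht | ht
        · exact Or.inl (s.mul_mem h ht hl)
        · rw [len_mul] at hl
          exact absurd ht (by simp only [Set.mem_setOf_eq]; omega)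
      · exact Or.inr (not_le.1 hl)
    · rintro y ⟨t, ht, rfl⟩
      by_cases htc : t = c
      · exact Or.inl (by rw [htc])
      · refine Or.inr ⟨t, ?_, rfl⟩
        rcases ht with ht | ht
        · exact Or.inl (s.sub_insert ht htc)
        · exact Or.inr ht

/-- index set of the family -/
abbrev Lam (H : Set (FreeMagma (Fin d))) (r : FreeMagma (Fin d) → FreeMagma (Fin d) → Prop) :=
  {l : List (FreeMagma (Fin d)) // (∀ t ∈ l, t ∈ H) ∧ l.Pairwise (fun x y => ¬ r x y)}

/-- shuffle product of the areas of a list of trees -/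
noncomputable def pr (D : Data d) (ar : FreeMagma (Fin d) → V d)
    (l : List (FreeMagma (Fin d))) : V d :=
  l.foldr (fun t acc => D.sh (ar t) acc) (Finsupp.single [] 1)

theorem pr_eq (l : List (FreeMagma (Fin d))) :
    (show Sh D from pr D ar l) = (l.map (arS D ar)).prod := by
  induction l with
  | nil => rfl
  | cons t l ih =>
    rw [List.map_cons, List.prod_cons, ← ih]
    rfl

theorem pr_deg (ha : IsArea D ar) (l : List (FreeMagma (Fin d))) :
    pr D ar l ∈ G d (fun i => i = (l.flatMap fol).length) := by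
  induction l with
  | nil => exact Finsupp.single_mem_supported ℚ 1 (by simp)
  | cons t l ih =>
    refine sh_mem D (ha.deg t) ih ?_
    rintro i j rfl rfl
    simp [len]

theorem pr_sort (h : IsHall H r) (l : List (FreeMagma (Fin d))) (hl : ∀ t ∈ l, t ∈ H) :
    ∃ l' : Lam H r, pr D ar l'.1 = pr D ar l := by
  classical
  haveI : Std.Total (fun x y => ¬ r x y) := ⟨fun x y => by
    by_cases hxy : r x y
    · exact Or.inr (h.asymm hxy)
    · exact Or.inl hxy⟩
  haveI : IsTrans _ (fun x y => ¬ r x y) := ⟨fun x y z h1 h2 h3 => by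
    rcases h.tri x y with g | g | g
    · exact h1 g
    · exact h2 (g ▸ h3)
    · exact h2 (h.trans g h3)⟩
  have hp := List.perm_insertionSort (fun x y => ¬ r x y) l
  refine ⟨⟨l.insertionSort (fun x y => ¬ r x y), fun t ht => hl t (hp.mem_iff.1 ht),
    List.pairwise_insertionSort _ l⟩, ?_⟩
  have := (hp.map (arS D ar)).prod_eq
  rw [← pr_eq, ← pr_eq] at this
  exact this

theorem pr_append (l l' : List (FreeMagma (Fin d))) :
    pr D ar (l ++ l') = D.sh (pr D ar l) (pr D ar l') := by
  have : ((l ++ l').map (arS D ar)).prod = (l.map (arS D ar)).prod * (l'.map (arS D ar)).prod := by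
    rw [List.map_append, List.prod_append]
  rw [← pr_eq, ← pr_eq, ← pr_eq] at this
  exact this

/-- span of the family -/
noncomputable def SP (D : Data d) (ar : FreeMagma (Fin d) → V d) (H : Set (FreeMagma (Fin d)))
    (r : FreeMagma (Fin d) → FreeMagma (Fin d) → Prop) : Submodule ℚ (V d) :=
  Submodule.span ℚ (Set.range fun l : Lam H r => pr D ar l.1)

theorem pr_mem (h : IsHall H r) (l : List (FreeMagma (Fin d))) (hl : ∀ t ∈ l, t ∈ H) :
    pr D ar l ∈ SP D ar H r := by
  obtain ⟨l', e⟩ := pr_sort (D := D) (ar := ar) h l hl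
  exact Submodule.subset_span ⟨l', e⟩

theorem SP_mul (h : IsHall H r) {x y : V d} (hx : x ∈ SP D ar H r) (hy : y ∈ SP D ar H r) :
    D.sh x y ∈ SP D ar H r := by
  induction hx using Submodule.span_induction with
  | mem x hx =>
    induction hy using Submodule.span_induction with
    | mem z hz =>
      obtain ⟨l, rfl⟩ := hx
      obtain ⟨l', rfl⟩ := hz
      simp only
      rw [← pr_append]
      refine pr_mem h _ fun t ht => ?_
      rcases List.mem_append.1 ht with ht | ht
      · exact l.2.1 t ht
      · exact l'.2.1 t ht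
    | zero => simp
    | add x z _ _ h1 h2 => rw [map_add]; exact add_mem h1 h2
    | smul a x _ h1 => rw [map_smul]; exact Submodule.smul_mem _ _ h1
  | zero => simp
  | add x z _ _ h1 h2 => rw [map_add, LinearMap.add_apply]; exact add_mem h1 h2
  | smul a x _ h1 => rw [map_smul, LinearMap.smul_apply]; exact Submodule.smul_mem _ _ h1

theorem sup_mul (h : IsHall H r) (n : ℕ) {x y : V d}
    (hx : x ∈ SP D ar H r ⊔ G d (fun i => n < i)) (hy : y ∈ SP D ar H r ⊔ G d (fun i => n < i)) :
    D.sh x y ∈ SP D ar H r ⊔ G d (fun i => n < i) := by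
  obtain ⟨a, ha, b, hb, rfl⟩ := Submodule.mem_sup.1 hx
  obtain ⟨a', ha', b', hb', rfl⟩ := Submodule.mem_sup.1 hy
  rw [map_add D.sh a b, LinearMap.add_apply, map_add (D.sh a)]
  refine add_mem (add_mem (Submodule.mem_sup_left (SP_mul h ha ha')) (Submodule.mem_sup_right ?_))
    (Submodule.mem_sup_right ?_)
  · exact sh_mem D (mem_G_true a) hb' fun i j _ hj => by omega
  · exact sh_mem D hb (mem_G_true _) fun i j hi _ => by omega

theorem single_mem_sup (h : IsHall H r) (ha : IsArea D ar) (n : ℕ) (w : List (Fin d)) :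
    (Finsupp.single w 1 : V d) ∈ SP D ar H r ⊔ G d (fun i => n < i) := by
  have one : (Finsupp.single [] 1 : V d) ∈ SP D ar H r ⊔ G d (fun i => n < i) :=
    Submodule.mem_sup_left (pr_mem h [] (by simp))
  let A : Subalgebra ℚ (Sh D) :=
    { carrier := {x | (show V d from x) ∈ SP D ar H r ⊔ G d (fun i => n < i)}
      mul_mem' := fun hx hy => sup_mul h n hx hy
      add_mem' := fun hx hy => (SP D ar H r ⊔ G d (fun i => n < i)).add_mem hx hy
      algebraMap_mem' := fun q => by
        rw [Algebra.algebraMap_eq_smul_one]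
        exact (SP D ar H r ⊔ G d (fun i => n < i)).smul_mem q one }
  refine gen h ha n A ?_ ?_ w
  · intro u hu
    have := pr_mem (D := D) (ar := ar) h [u] (by simpa using hu)
    have e : pr D ar [u] = ar u := D.sh_one _
    rw [e] at this
    exact (Submodule.mem_sup_left this : ar u ∈ SP D ar H r ⊔ G d (fun i => n < i))
  · intro x hx
    exact (Submodule.mem_sup_right hx : x ∈ SP D ar H r ⊔ G d (fun i => n < i))

/-- projection to degree `n` -/
noncomputable def proj (d n : ℕ) : V d →ₗ[ℚ] V d where
  toFun := Finsupp.filter (fun w => w.length = n)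
  map_add' _ _ := Finsupp.filter_add
  map_smul' _ _ := Finsupp.filter_smul

theorem proj_apply (n : ℕ) (x : V d) (w : List (Fin d)) :
    proj d n x w = if w.length = n then x w else 0 := Finsupp.filter_apply _ _ _

theorem proj_eq_zero {P : ℕ → Prop} {x : V d} (hx : x ∈ G d P) (n : ℕ) (hn : ¬ P n) :
    proj d n x = 0 := by
  ext w
  rw [proj_apply]
  split_ifs with hw
  · exact mem_G.1 hx w (hw ▸ hn)
  · rfl

theorem proj_eq_self {x : V d} {n : ℕ} (hx : x ∈ G d (fun i => i = n)) : proj d n x = x := by
  ext w
  rw [proj_apply]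
  split_ifs with hw
  · rfl
  · exact (mem_G.1 hx w hw).symm

/-- degree `n` part of the index set -/
abbrev LamN (H : Set (FreeMagma (Fin d))) (r : FreeMagma (Fin d) → FreeMagma (Fin d) → Prop)
    (n : ℕ) := {l : Lam H r // (l.1.flatMap fol).length = n}

theorem single_mem_deg (h : IsHall H r) (ha : IsArea D ar) (w : List (Fin d)) :
    (Finsupp.single w 1 : V d) ∈
      Submodule.span ℚ (Set.range fun l : LamN H r w.length => pr D ar l.1.1) := by
  obtain ⟨a, ha', b, hb, e⟩ := Submodule.mem_sup.1 (single_mem_sup h ha w.length w)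
  have e1 := congrArg (proj d w.length) e
  rw [map_add, proj_eq_zero hb _ (lt_irrefl _), add_zero,
    proj_eq_self (x := Finsupp.single w 1) (Finsupp.single_mem_supported ℚ 1 (by simp))] at e1
  rw [← e1]
  clear e e1
  induction ha' using Submodule.span_induction with
  | mem z hz =>
    obtain ⟨l, rfl⟩ := hz
    by_cases hl : (l.1.flatMap fol).length = w.length
    · have := pr_deg ha l.1
      rw [hl] at this
      simp only
      rw [proj_eq_self this]
      exact Submodule.subset_span ⟨⟨l, hl⟩, rfl⟩
    · simp only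
      rw [proj_eq_zero (pr_deg ha l.1) _ (fun hh => hl hh.symm)]
      exact zero_mem _
  | zero => simp
  | add x z _ _ h1 h2 => rw [map_add]; exact add_mem h1 h2
  | smul a x _ h1 => rw [map_smul]; exact Submodule.smul_mem _ _ h1

theorem span_top (h : IsHall H r) (ha : IsArea D ar) : SP D ar H r = ⊤ := by
  rw [eq_top_iff, ← Finsupp.supported_univ, Finsupp.supported_eq_span_single, Submodule.span_le]
  rintro _ ⟨w, -, rfl⟩
  refine Submodule.span_mono ?_ (single_mem_deg h ha w)
  rintro _ ⟨l, rfl⟩
  exact ⟨l.1, rfl⟩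

theorem indep_deg (h : IsHall H r) (ha : IsArea D ar) (n : ℕ) :
    LinearIndependent ℚ (fun l : LamN H r n => pr D ar l.1.1) := by
  classical
  haveI : Finite {w : List (Fin d) // w.length = n} := (List.finite_length_eq (Fin d) n).to_subtype
  let f : LamN H r n → {w : List (Fin d) // w.length = n} := fun l => ⟨l.1.1.flatMap fol, l.2⟩
  have hf : Function.Injective f := by
    intro l l' e
    apply Subtype.ext
    apply Subtype.ext
    exact h.fol_inj _ _ l.1.2.1 l.1.2.2 l'.1.2.1 l'.1.2.2 (congrArg Subtype.val e)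
  haveI : Finite (LamN H r n) := Finite.of_injective f hf
  letI := Fintype.ofFinite (LamN H r n)
  letI := Fintype.ofFinite {w : List (Fin d) // w.length = n}
  rw [linearIndependent_iff_card_le_finrank_span]
  refine (Fintype.card_le_of_injective f hf).trans ?_
  set S := Submodule.span ℚ (Set.range fun l : LamN H r n => pr D ar l.1.1) with hS
  haveI : Module.Finite ℚ S := Module.Finite.span_of_finite ℚ (Set.finite_range _)
  let s : {w : List (Fin d) // w.length = n} → S := fun w =>
    ⟨Finsupp.single w.1 1, by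
      obtain ⟨w, rfl⟩ := w
      exact single_mem_deg h ha w⟩
  have hs : LinearIndependent ℚ s := by
    apply LinearIndependent.of_comp S.subtype
    exact (Finsupp.linearIndependent_single_one ℚ (List (Fin d))).comp Subtype.val
      Subtype.val_injective
  exact hs.fintype_card_le_finrank

theorem indep (h : IsHall H r) (ha : IsArea D ar) :
    LinearIndependent ℚ (fun l : Lam H r => pr D ar l.1) := by
  classical
  rw [linearIndependent_iff']
  intro s g hg l0 hl0
  set n := (l0.1.flatMap fol).length with hn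
  have h1 := linearIndependent_iff'.1 (indep_deg h ha n)
    (s.subtype (fun l => (l.1.flatMap fol).length = n)) (fun l => g l.1) ?_ ⟨l0, rfl⟩
    (by simpa using hl0)
  · exact h1
  · have e := congrArg (proj d n) hg
    rw [map_sum, map_zero] at e
    rw [Finset.sum_subtype_eq_sum_filter (fun l : Lam H r => g l • pr D ar l.1), Finset.sum_filter]
    refine Eq.trans (Finset.sum_congr rfl fun l _ => ?_) e
    rw [map_smul]
    split_ifs with hl
    · have := pr_deg ha l.1
      rw [hl] at this
      rw [proj_eq_self this]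
    · rw [proj_eq_zero (pr_deg ha l.1) _ (fun hh => hl hh.symm), smul_zero]

end Pool.Agent.H943Z.Shuf
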