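import Mathlib

set_option autoImplicit false

namespace Pool.Agent.H943Z.Lamp

open scoped symmDiff

/-- The lamplighter group: a finite set of lit lamps and a position. -/
@[ext] structure L where
  b : Finset ℤ
  n : ℤ

/-- shift of a lamp configuration -/
def sh (m : ℤ) (b : Finset ℤ) : Finset ℤ := b.map (Equiv.subRight m).toEmbedding

@[simp] theorem mem_sh (m : ℤ) (b : Finset ℤ) (x : ℤ) : x ∈ sh m b ↔ x + m ∈ b := by
  simp [sh, Finset.mem_map_equiv]

instance : Mul L := ⟨fun g h => ⟨sh h.n g.b ∆ h.b, g.n + h.n⟩⟩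
instance : One L := ⟨⟨∅, 0⟩⟩
instance : Inv L := ⟨fun g => ⟨sh (-g.n) g.b, -g.n⟩⟩

@[simp] theorem mul_b (g h : L) : (g * h).b = sh h.n g.b ∆ h.b := rfl
@[simp] theorem mul_n (g h : L) : (g * h).n = g.n + h.n := rfl
@[simp] theorem one_b : (1 : L).b = ∅ := rfl
@[simp] theorem one_n : (1 : L).n = 0 := rfl
@[simp] theorem inv_b (g : L) : (g⁻¹).b = sh (-g.n) g.b := rfl
@[simp] theorem inv_n (g : L) : (g⁻¹).n = -g.n := rfl

instance : Group L := Group.ofLeftAxioms
  (by
    intro a b c
    ext x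
    · simp only [mul_b, mul_n, Finset.mem_symmDiff, mem_sh]
      have : x + (b.n + c.n) = x + c.n + b.n := by ring
      rw [this]
      tauto
    · simp [add_assoc])
  (by
    intro a
    ext x
    · simp [Finset.mem_symmDiff]
    · simp)
  (by
    intro a
    ext x
    · simp [Finset.mem_symmDiff]
    · simp)

instance : Countable L := by
  have : Function.Injective (fun g : L => (g.b, g.n)) := by
    intro a b h
    simp only [Prod.mk.injEq] at h
    exact L.ext h.1 h.2
  exact this.countable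

/-- the Folner box -/
noncomputable def box (R M : ℕ) : Finset L :=
  ((Finset.Icc (-(R : ℤ)) R).powerset ×ˢ Finset.Ico (0 : ℤ) M).map
    ⟨fun p => ⟨p.1, p.2⟩, by
      intro a b h
      simp only [L.mk.injEq] at h
      exact Prod.ext h.1 h.2⟩

theorem mem_box (R M : ℕ) (g : L) :
    g ∈ box R M ↔ g.b ⊆ Finset.Icc (-(R : ℤ)) R ∧ 0 ≤ g.n ∧ g.n < M := by
  constructor
  · intro h
    simp only [box, Finset.mem_map, Finset.mem_product, Finset.mem_powerset, Finset.mem_Ico,
      Function.Embedding.coeFn_mk] at h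
    obtain ⟨p, hp, rfl⟩ := h
    exact hp
  · intro h
    simp only [box, Finset.mem_map, Finset.mem_product, Finset.mem_powerset, Finset.mem_Ico,
      Function.Embedding.coeFn_mk]
    exact ⟨(g.b, g.n), h, rfl⟩

theorem card_box (R M : ℕ) :
    (box R M).card = (Finset.Icc (-(R : ℤ)) R).powerset.card * M := by
  simp [box]

/-- strip of the box that may leave it -/
noncomputable def strip (R M K : ℕ) : Finset L :=
  ((Finset.Icc (-(R : ℤ)) R).powerset ×ˢ
      (Finset.Ico (0 : ℤ) K ∪ Finset.Ico ((M : ℤ) - K) M)).map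
    ⟨fun p => ⟨p.1, p.2⟩, by
      intro a b h
      simp only [L.mk.injEq] at h
      exact Prod.ext h.1 h.2⟩

theorem mem_strip (R M K : ℕ) (g : L) (h1 : g.b ⊆ Finset.Icc (-(R : ℤ)) R)
    (h2 : (0 ≤ g.n ∧ g.n < K) ∨ ((M : ℤ) - K ≤ g.n ∧ g.n < M)) : g ∈ strip R M K := by
  simp only [strip, Finset.mem_map, Finset.mem_product, Finset.mem_powerset, Finset.mem_Ico,
      Function.Embedding.coeFn_mk, Finset.mem_union]
  exact ⟨(g.b, g.n), ⟨h1, h2⟩, rfl⟩

theorem card_strip (R M K : ℕ) :
    (strip R M K).card ≤ (Finset.Icc (-(R : ℤ)) R).powerset.card * (2 * K) := by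
  simp only [strip, Finset.card_map, Finset.card_product]
  apply Nat.mul_le_mul_left
  refine (Finset.card_union_le _ _).trans ?_
  simp only [Int.card_Ico]
  omega

theorem step (K M : ℕ) (g : L) (hb : ∀ x ∈ g.b, |x| ≤ K) (hn : |g.n| ≤ K) (a : L)
    (ha : a ∈ box (K + M) M) (hs : a ∉ strip (K + M) M K) : g * a ∈ box (K + M) M := by
  rw [mem_box] at ha ⊢
  obtain ⟨h1, h2, h3⟩ := ha
  have h4 : ¬ ((0 ≤ a.n ∧ a.n < K) ∨ ((M : ℤ) - K ≤ a.n ∧ a.n < M)) :=
    fun h => hs (mem_strip _ _ _ _ h1 h)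
  rw [abs_le] at hn
  refine ⟨?_, by simp only [mul_n]; omega, by simp only [mul_n]; omega⟩
  intro x hx
  simp only [mul_b, Finset.mem_symmDiff, mem_sh] at hx
  rcases hx with hx | hx
  · have := abs_le.1 (hb _ hx.1)
    simp only [Finset.mem_Icc]
    push_cast
    omega
  · exact h1 hx.1

theorem folner (F : Finset L) (ε : ℝ) (hε : 0 < ε) : ∃ A : Set L, A.Finite ∧ A.Nonempty ∧
    ∀ g ∈ F, ((symmDiff ((fun x => g * x) '' A) A).ncard : ℝ) < ε * (A.ncard : ℝ) := by
  classical
  obtain ⟨K, hK⟩ : ∃ K : ℕ, ∀ g ∈ F, (∀ x ∈ g.b, |x| ≤ K) ∧ |g.n| ≤ K := by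
    refine ⟨F.sup (fun g => g.b.sup Int.natAbs + g.n.natAbs), fun g hg => ?_⟩
    have h1 : g.b.sup Int.natAbs + g.n.natAbs ≤
        F.sup (fun g => g.b.sup Int.natAbs + g.n.natAbs) :=
      Finset.le_sup (f := fun g : L => g.b.sup Int.natAbs + g.n.natAbs) hg
    refine ⟨fun x hx => ?_, ?_⟩
    · have h2 : x.natAbs ≤ g.b.sup Int.natAbs := Finset.le_sup (f := Int.natAbs) hx
      rw [Int.abs_eq_natAbs]
      exact_mod_cast (by omega)
    · rw [Int.abs_eq_natAbs]
      exact_mod_cast (by omega)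
  obtain ⟨M, hM⟩ : ∃ M : ℕ, (4 * K : ℝ) / ε < M := exists_nat_gt _
  have hM' : (4 * K : ℝ) < ε * M := by
    rw [div_lt_iff₀ hε] at hM
    linarith
  have hM0 : 0 < M := by
    rcases Nat.eq_zero_or_pos M with h | h
    · subst h
      have : (0 : ℝ) ≤ 4 * K := by positivity
      simp at hM'
      linarith
    · exact h
  set P := (Finset.Icc (-((K + M : ℕ) : ℤ)) ((K + M : ℕ) : ℤ)).powerset.card with hP
  have hP0 : 0 < P := Finset.card_pos.2 ⟨∅, by simp⟩
  refine ⟨(box (K + M) M : Set L), Finset.finite_toSet _, ⟨1, ?_⟩, fun g hg => ?_⟩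
  · simp only [Finset.mem_coe, mem_box, one_b, one_n]
    exact ⟨Finset.empty_subset _, le_refl _, by exact_mod_cast hM0⟩
  · set B := box (K + M) M with hB
    have e1 : symmDiff ((fun x => g * x) '' (B : Set L)) (B : Set L) =
        ((symmDiff (B.image (fun x => g * x)) B : Finset L) : Set L) := by
      simp [Finset.coe_symmDiff]
    rw [e1, Set.ncard_coe_finset, Set.ncard_coe_finset]
    have c1 : (B.image (fun x => g * x)).card = B.card :=
      Finset.card_image_of_injective _ (mul_right_injective g)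
    have c2 : (B.image (fun x => g * x) \ B).card ≤ P * (2 * K) := by
      refine le_trans ?_ (card_strip (K + M) M K)
      refine le_trans (Finset.card_le_card (t := (strip (K + M) M K).image (fun x => g * x)) ?_)
        Finset.card_image_le
      intro y hy
      simp only [Finset.mem_sdiff, Finset.mem_image] at hy ⊢
      obtain ⟨⟨a, ha, rfl⟩, hy⟩ := hy
      refine ⟨a, ?_, rfl⟩
      by_contra hs
      exact hy (step K M g (hK g hg).1 (hK g hg).2 a ha hs)
    have c3 : (B \ B.image (fun x => g * x)).card = (B.image (fun x => g * x) \ B).card :=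
      Finset.card_sdiff_comm c1.symm
    have c4 : (symmDiff (B.image (fun x => g * x)) B).card ≤ P * (4 * K) := by
      rw [symmDiff_def]
      refine (Finset.card_union_le _ _).trans ?_
      rw [c3]
      nlinarith
    have c5 : B.card = P * M := card_box _ _
    have c6 : ((symmDiff (B.image (fun x => g * x)) B).card : ℝ) ≤ P * (4 * K) := by
      exact_mod_cast c4
    rw [c5]
    push_cast
    have hP1 : (0 : ℝ) < P := by exact_mod_cast hP0
    nlinarith

instance : TopologicalSpace L := ⊥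
instance : DiscreteTopology L := ⟨rfl⟩

open BoundedContinuousFunction

/-- right translation on bounded functions -/
noncomputable def R (s : L) (f : L →ᵇ ℝ) : L →ᵇ ℝ :=
  f.compContinuous ⟨fun k => k * s, continuous_of_discreteTopology⟩

@[simp] theorem R_apply (s : L) (f : L →ᵇ ℝ) (k : L) : R s f k = f (k * s) := rfl

theorem R_mul (s t : L) (f : L →ᵇ ℝ) : R s (R t f) = R (s * t) f := by
  ext k
  simp [mul_assoc]

theorem R_one (f : L →ᵇ ℝ) : R 1 f = f := by
  ext k
  simp

theorem norm_R_le (s : L) (f : L →ᵇ ℝ) : ‖R s f‖ ≤ ‖f‖ := norm_compContinuous_le _ _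

theorem norm_R (s : L) (f : L →ᵇ ℝ) : ‖R s f‖ = ‖f‖ := by
  refine le_antisymm (norm_R_le s f) ?_
  calc ‖f‖ = ‖R s⁻¹ (R s f)‖ := by rw [R_mul, inv_mul_cancel, R_one]
    _ ≤ _ := norm_R_le _ _

/-- right translation as a linear isometry -/
noncomputable def RL (s : L) : (L →ᵇ ℝ) →ₗᵢ[ℝ] (L →ᵇ ℝ) where
  toFun := R s
  map_add' f g := by ext k; simp
  map_smul' c f := by ext k; simp
  norm_map' := norm_R s

/-- the bounded harmonic function -/
noncomputable def phi : L →ᵇ ℝ :=
  BoundedContinuousFunction.ofNormedAddCommGroupDiscrete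
    (fun k : L => if 1 ≤ k.n then (if -k.n ∈ k.b then -1 else 1) else 0) 1
    (by
      intro k
      split_ifs <;> simp)

theorem phi_apply (k : L) :
    phi k = if 1 ≤ k.n then (if -k.n ∈ k.b then -1 else 1) else 0 := rfl

/-- first generator -/
def g0 : L := ⟨∅, 1⟩
/-- second generator -/
def h0 : L := ⟨{-1}, 1⟩

theorem harmonic : (1 / 2 : ℝ) • (R g0 phi + R h0 phi) = phi := by
  ext k
  simp only [BoundedContinuousFunction.coe_smul, BoundedContinuousFunction.coe_add, Pi.smul_apply,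
    Pi.add_apply, R_apply, phi_apply, mul_n, mul_b, g0, h0, Finset.mem_symmDiff, mem_sh,
    smul_eq_mul, Finset.mem_singleton, Finset.notMem_empty]
  have e : -(k.n + 1) + 1 = -k.n := by ring
  rw [e]
  rcases lt_trichotomy k.n 0 with h | h | h
  · rw [if_neg (by omega), if_neg (by omega), if_neg (by omega)]
    simp
  · rw [h]
    by_cases hb : (0 : ℤ) ∈ k.b <;> simp [hb]
  · have h1 : 1 ≤ k.n + 1 := by omega
    have h2 : 1 ≤ k.n := by omega
    have h3 : ¬ (k.n = 0) := by omega
    rw [if_pos h1, if_pos h1, if_pos h2]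
    by_cases hb : -k.n ∈ k.b <;> simp [hb, h3] <;> norm_num

theorem R_ne : R g0 phi ≠ R h0 phi := by
  intro h
  have := congrArg (fun f : L →ᵇ ℝ => f 1) h
  simp [phi_apply, g0, h0] at this
  norm_num at this

/-- the separable invariant subspace -/
noncomputable def X : Submodule ℝ (L →ᵇ ℝ) :=
  (Submodule.span ℝ (Set.range fun s : L => R s phi)).topologicalClosure

instance : CompleteSpace X := (Submodule.isClosed_topologicalClosure _).completeSpace_coe

instance : TopologicalSpace.SeparableSpace X := by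
  have h : TopologicalSpace.IsSeparable (X : Set (L →ᵇ ℝ)) :=
    ((Set.countable_range _).isSeparable.span (R := ℝ)).closure
  exact h.separableSpace

theorem R_mem (s : L) (f : L →ᵇ ℝ) (hf : f ∈ X) : R s f ∈ X := by
  have h1 : Set.MapsTo (RL s) (Submodule.span ℝ (Set.range fun s : L => R s phi) : Set (L →ᵇ ℝ))
      (Submodule.span ℝ (Set.range fun s : L => R s phi) : Set (L →ᵇ ℝ)) := by
    intro f hf
    have : Submodule.map (RL s).toLinearMap (Submodule.span ℝ (Set.range fun s : L => R s phi)) ≤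
        Submodule.span ℝ (Set.range fun s : L => R s phi) := by
      rw [Submodule.map_span, Submodule.span_le]
      rintro _ ⟨_, ⟨t, rfl⟩, rfl⟩
      apply Submodule.subset_span
      exact ⟨s * t, (R_mul s t phi).symm⟩
    exact this ⟨f, hf, rfl⟩
  exact h1.closure (RL s).continuous hf

theorem phi_mem : phi ∈ X :=
  Submodule.le_topologicalClosure _ (Submodule.subset_span ⟨1, R_one phi⟩)

/-- the action on the subspace -/
noncomputable def rho0 (s : L) : X ≃ₗᵢ[ℝ] X where
  toFun f := ⟨R s f.1, R_mem s f.1 f.2⟩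
  invFun f := ⟨R s⁻¹ f.1, R_mem s⁻¹ f.1 f.2⟩
  map_add' f g := by ext k; simp
  map_smul' c f := by ext k; simp
  left_inv f := by ext k; simp
  right_inv f := by ext k; simp
  norm_map' f := norm_R s f.1

theorem rho0_val (s : L) (f : X) : (rho0 s f).1 = R s f.1 := rfl

/-- the action as a homomorphism -/
noncomputable def rho : L →* (X ≃ₗᵢ[ℝ] X) where
  toFun := rho0
  map_one' := by
    ext f k
    simp [rho0_val]
  map_mul' s t := by
    ext f k
    simp [rho0_val, mul_assoc]

theorem no_norm : ¬ ∃ N : X → ℝ,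
    (∀ x y : X, N (x + y) ≤ N x + N y) ∧
    (∀ (c : ℝ) (x : X), N (c • x) = |c| * N x) ∧
    (∃ a b : ℝ, 0 < a ∧ 0 < b ∧ ∀ x : X, a * ‖x‖ ≤ N x ∧ N x ≤ b * ‖x‖) ∧
    (∀ (g : L) (x : X), N (rho g x) = N x) ∧
    (∀ x y : X, N x = 1 → N y = 1 → x ≠ y → N ((1 / 2 : ℝ) • (x + y)) < 1) := by
  rintro ⟨N, -, hs, ⟨a, b, ha, -, hab⟩, hi, hc⟩
  set x : X := ⟨phi, phi_mem⟩ with hx
  have hne : rho g0 x ≠ rho h0 x := fun h => R_ne (congrArg Subtype.val h)
  have hx0 : x ≠ 0 := by
    intro h
    apply hne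
    rw [h, LinearIsometryEquiv.map_zero, LinearIsometryEquiv.map_zero]
  have hx1 : 0 < ‖x‖ := by
    have : phi ≠ 0 := fun h => hx0 (Subtype.ext h)
    exact (norm_pos_iff.2 this : 0 < ‖phi‖)
  have hN : 0 < N x := lt_of_lt_of_le (mul_pos ha hx1) (hab x).1
  have hh : (1 / 2 : ℝ) • (rho g0 x + rho h0 x) = x := Subtype.ext harmonic
  have h1 : N ((N x)⁻¹ • x) = 1 := by
    rw [hs, abs_of_pos (inv_pos.2 hN), inv_mul_cancel₀ hN.ne']
  have := hc (rho g0 ((N x)⁻¹ • x)) (rho h0 ((N x)⁻¹ • x)) (by rw [hi, h1]) (by rw [hi, h1]) (by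
    intro h
    rw [LinearIsometryEquiv.map_smul, LinearIsometryEquiv.map_smul] at h
    exact hne (smul_right_injective _ (inv_pos.2 hN).ne' h))
  rw [LinearIsometryEquiv.map_smul, LinearIsometryEquiv.map_smul, ← smul_add, smul_comm, hh, h1] at this
  exact lt_irrefl _ this

end Pool.Agent.H943Z.Lamp
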