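import Mathlib

set_option autoImplicit false
open MeasureTheory Set Filter Topology
open scoped ENNReal

namespace Pool.Agent.H943Z.MV

noncomputable section

abbrev V4 := Fin 4 → ℝ
abbrev V5 := Fin 5 → ℝ

def pt (w : V5) (s t : ℝ) : V4 := ![s, t, w 3, w 4]
def aff (w : V5) (s t : ℝ) : ℝ := w 0 + w 1 * s + w 2 * t

def Cs (φ : V4 → ℝ) : Set V5 := {w | ∀ s t : ℝ, aff w s t ≤ φ (pt w s t)}
def top1 (φ : V4 → ℝ) : V4 → ℝ := fun u => max (φ u) 1
def Ss (φ : V4 → ℝ) : Set V5 := Cs (top1 φ) \ Cs φ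
def z (φ : V4 → ℝ) : ℝ := (volume (Ss φ)).toReal

theorem Cs_mono {φ ψ : V4 → ℝ} (h : ∀ u, φ u ≤ ψ u) : Cs φ ⊆ Cs ψ :=
  fun _ hw s t => (hw s t).trans (h _)

theorem pt_cont (s t : ℝ) : Continuous (fun w : V5 => pt w s t) := by
  unfold pt
  refine continuous_pi (fun i => ?_)
  fin_cases i <;> simp <;> fun_prop

theorem Cs_closed {φ : V4 → ℝ} (h : Continuous φ) : IsClosed (Cs φ) := by
  have : Cs φ = ⋂ s : ℝ, ⋂ t : ℝ, {w : V5 | aff w s t ≤ φ (pt w s t)} := by
    ext w; simp [Cs]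
  rw [this]
  refine isClosed_iInter fun s => isClosed_iInter fun t => ?_
  refine isClosed_le ?_ (h.comp (pt_cont s t))
  unfold aff; fun_prop

theorem top1_cont {φ : V4 → ℝ} (h : Continuous φ) : Continuous (top1 φ) :=
  h.max continuous_const

theorem le_top1 (φ : V4 → ℝ) (u : V4) : φ u ≤ top1 φ u := le_max_left _ _

theorem Ss_meas {φ : V4 → ℝ} (h : Continuous φ) : MeasurableSet (Ss φ) :=
  (Cs_closed (top1_cont h)).measurableSet.diff (Cs_closed h).measurableSet

theorem Cs_min (φ ψ : V4 → ℝ) : Cs (fun u => min (φ u) (ψ u)) = Cs φ ∩ Cs ψ := by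
  ext w
  simp only [Cs, mem_ofPred_eq, mem_inter_iff, le_min_iff]
  exact ⟨fun h => ⟨fun s t => (h s t).1, fun s t => (h s t).2⟩, fun h s t => ⟨h.1 s t, h.2 s t⟩⟩

theorem pt_combo (w : V5) (s t s' t' a : ℝ) :
    pt w ((1 - a) * s + a * s') ((1 - a) * t + a * t') = (1 - a) • pt w s t + a • pt w s' t' := by
  ext i
  fin_cases i <;> simp [pt] <;> ring

theorem Cs_max {φ ψ : V4 → ℝ} (hφ : Continuous φ) (hψ : Continuous ψ)
    (hc : ConvexOn ℝ univ (fun u => min (φ u) (ψ u))) :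
    Cs (fun u => max (φ u) (ψ u)) = Cs φ ∪ Cs ψ := by
  apply Subset.antisymm
  · intro w hw
    by_contra hn
    simp only [mem_union, not_or, Cs, mem_ofPred_eq, not_forall, not_le] at hn
    obtain ⟨⟨s, t, h1⟩, ⟨s', t', h2⟩⟩ := hn
    have hw1 := hw s t
    have hw2 := hw s' t'
    simp only at hw1 hw2
    have e1 : φ (pt w s t) < ψ (pt w s t) := by
      rcases le_max_iff.1 hw1 with h | h <;> linarith
    have e2 : ψ (pt w s' t') < φ (pt w s' t') := by
      rcases le_max_iff.1 hw2 with h | h <;> linarith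
    let γ : ℝ → V4 := fun a => (1 - a) • pt w s t + a • pt w s' t'
    have hγ : Continuous γ := by fun_prop
    have hcont : ContinuousOn (fun a => φ (γ a) - ψ (γ a)) (Icc 0 1) :=
      ((hφ.comp hγ).sub (hψ.comp hγ)).continuousOn
    have hmem : (0:ℝ) ∈ Icc (φ (γ 0) - ψ (γ 0)) (φ (γ 1) - ψ (γ 1)) := by
      simp only [γ]
      constructor <;> simp <;> linarith
    obtain ⟨a, ha, hz⟩ := intermediate_value_Icc zero_le_one hcont hmem
    have h3 := hw ((1 - a) * s + a * s') ((1 - a) * t + a * t')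
    simp only at h3
    rw [pt_combo] at h3
    have h4 := hc.2 (mem_univ (pt w s t)) (mem_univ (pt w s' t')) (sub_nonneg.2 ha.2) ha.1
      (by ring)
    simp only [smul_eq_mul] at h4
    have hz' : φ (γ a) = ψ (γ a) := by simp only at hz; linarith
    change aff w _ _ ≤ max (φ (γ a)) (ψ (γ a)) at h3
    change min (φ (γ a)) (ψ (γ a)) ≤ _ at h4
    rw [hz', max_self] at h3
    rw [hz', min_self, min_eq_left e1.le, min_eq_right e2.le] at h4
    have h5 : aff w ((1 - a) * s + a * s') ((1 - a) * t + a * t')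
        = (1 - a) * aff w s t + a * aff w s' t' := by unfold aff; ring
    rw [h5] at h3
    have ha0 := ha.1
    have ha1 := ha.2
    rcases eq_or_lt_of_le ha0 with h | h
    · subst h; nlinarith
    · nlinarith [mul_pos h (sub_pos.2 h2), mul_nonneg (sub_nonneg.2 ha1) (sub_pos.2 h1).le]
  · exact union_subset (Cs_mono fun u => le_max_left _ _) (Cs_mono fun u => le_max_right _ _)

theorem vol_val {φ ψ : V4 → ℝ} (hφ : Continuous φ) (hψ : Continuous ψ)
    (hc : ConvexOn ℝ univ (fun u => min (φ u) (ψ u))) :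
    volume (Ss (fun u => max (φ u) (ψ u))) + volume (Ss (fun u => min (φ u) (ψ u)))
      = volume (Ss φ) + volume (Ss ψ) := by
  have t1 : top1 (fun u => max (φ u) (ψ u)) = fun u => max (top1 φ u) (top1 ψ u) := by
    funext u; simp only [top1]; exact sup_sup_distrib_right _ _ _
  have t2 : top1 (fun u => min (φ u) (ψ u)) = fun u => min (top1 φ u) (top1 ψ u) := by
    funext u; simp only [top1]; exact max_min_distrib_right _ _ _
  have hc' : ConvexOn ℝ univ (fun u => min (top1 φ u) (top1 ψ u)) := by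
    rw [← t2]
    exact hc.sup (convexOn_const 1 convex_univ)
  have e1 : Ss (fun u => max (φ u) (ψ u)) = (Cs (top1 φ) ∪ Cs (top1 ψ)) \ (Cs φ ∪ Cs ψ) := by
    unfold Ss; rw [t1, Cs_max (top1_cont hφ) (top1_cont hψ) hc', Cs_max hφ hψ hc]
  have e2 : Ss (fun u => min (φ u) (ψ u)) = (Cs (top1 φ) ∩ Cs (top1 ψ)) \ (Cs φ ∩ Cs ψ) := by
    unfold Ss; rw [t2, Cs_min, Cs_min]
  have m1 := Ss_meas (hφ.max hψ)
  have m2 := Ss_meas (hφ.min hψ)
  have m3 := Ss_meas hφ
  have m4 := Ss_meas hψ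
  rw [← lintegral_indicator_one m1, ← lintegral_indicator_one m2, ← lintegral_indicator_one m3,
    ← lintegral_indicator_one m4, ← lintegral_add_left (measurable_one.indicator m1),
    ← lintegral_add_left (measurable_one.indicator m3)]
  congr 1
  funext w
  rw [e1, e2]
  have b1 : w ∈ Cs φ → w ∈ Cs (top1 φ) := fun h => Cs_mono (le_top1 φ) h
  have b2 : w ∈ Cs ψ → w ∈ Cs (top1 ψ) := fun h => Cs_mono (le_top1 ψ) h
  unfold Ss
  by_cases h1 : w ∈ Cs φ <;> by_cases h2 : w ∈ Cs ψ <;> by_cases h3 : w ∈ Cs (top1 φ) <;>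
    by_cases h4 : w ∈ Cs (top1 ψ) <;> simp_all [indicator]

/-- Uniform bounds. -/
def Bd (ρ c : ℝ) (φ : V4 → ℝ) : Prop :=
  1 ≤ ρ ∧ 1 ≤ c ∧ (∀ u, ‖u‖ ≤ ρ * φ u) ∧ ∀ u, ‖u‖ ≤ ρ + 1 → φ u ≤ c

theorem pt_norm_le {w : V5} {s t R : ℝ} (hR : 0 ≤ R) (h0 : |s| ≤ R) (h1 : |t| ≤ R)
    (h2 : |w 3| ≤ R) (h3 : |w 4| ≤ R) : ‖pt w s t‖ ≤ R := by
  refine (pi_norm_le_iff_of_nonneg hR).2 fun i => ?_
  fin_cases i <;> simpa [pt]

theorem Ss_sub {ρ c : ℝ} {φ : V4 → ℝ} (h : Bd ρ c φ) :
    Ss φ ⊆ Metric.closedBall 0 (c * (1 + 2 * ρ)) := by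
  obtain ⟨hρ, hc, hl, hu⟩ := h
  rintro w ⟨hw1, hw2⟩
  simp only [Cs, mem_ofPred_eq, not_forall, not_le] at hw2
  obtain ⟨s, t, hst⟩ := hw2
  have h1 := hw1 s t
  have hpos : ∀ u, 0 ≤ φ u := fun u => by
    have := (norm_nonneg u).trans (hl u)
    exact nonneg_of_mul_nonneg_right (by linarith [mul_comm ρ (φ u)]) (by linarith : 0 < ρ) |> fun h => h
  have ha : aff w s t ≤ 1 := by
    rcases le_max_iff.1 h1 with h | h <;> linarith
  have hn : ‖pt w s t‖ ≤ ρ := by
    have := hl (pt w s t)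
    nlinarith
  have c0 : |s| ≤ ρ := by simpa [pt] using (norm_le_pi_norm (pt w s t) 0).trans hn
  have c1 : |t| ≤ ρ := by simpa [pt] using (norm_le_pi_norm (pt w s t) 1).trans hn
  have c2 : |w 3| ≤ ρ := by simpa [pt] using (norm_le_pi_norm (pt w s t) 2).trans hn
  have c3 : |w 4| ≤ ρ := by simpa [pt] using (norm_le_pi_norm (pt w s t) 3).trans hn
  have key : ∀ s' t', |s'| ≤ ρ + 1 → |t'| ≤ ρ + 1 → aff w s' t' ≤ c := by
    intro s' t' hs ht
    refine (hw1 s' t').trans (max_le (hu _ ?_) hc)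
    exact pt_norm_le (by linarith) hs ht (by linarith) (by linarith)
  have hp := hpos (pt w s t)
  rw [abs_le] at c0 c1
  have k1 := key (s + 1) t (by rw [abs_le]; constructor <;> linarith)
    (by rw [abs_le]; constructor <;> linarith)
  have k2 := key (s - 1) t (by rw [abs_le]; constructor <;> linarith)
    (by rw [abs_le]; constructor <;> linarith)
  have k3 := key s (t + 1) (by rw [abs_le]; constructor <;> linarith)
    (by rw [abs_le]; constructor <;> linarith)
  have k4 := key s (t - 1) (by rw [abs_le]; constructor <;> linarith)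
    (by rw [abs_le]; constructor <;> linarith)
  unfold aff at *
  have d1 : |w 1| ≤ c := by rw [abs_le]; constructor <;> linarith
  have d2 : |w 2| ≤ c := by rw [abs_le]; constructor <;> linarith
  have d3 : |w 1 * s| ≤ c * ρ := by
    rw [abs_mul]; exact mul_le_mul d1 (abs_le.2 c0) (abs_nonneg _) (by linarith)
  have d4 : |w 2 * t| ≤ c * ρ := by
    rw [abs_mul]; exact mul_le_mul d2 (abs_le.2 c1) (abs_nonneg _) (by linarith)
  rw [abs_le] at d3 d4
  have d0 : |w 0| ≤ c * (1 + 2 * ρ) := by rw [abs_le]; constructor <;> nlinarith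
  rw [mem_closedBall_zero_iff]
  refine (pi_norm_le_iff_of_nonneg (by positivity)).2 fun i => ?_
  have q1 : c ≤ c * (1 + 2 * ρ) := by nlinarith
  have q2 : ρ ≤ c * (1 + 2 * ρ) := by nlinarith
  fin_cases i
  · simpa using d0
  · simpa using d1.trans q1
  · simpa using d2.trans q1
  · simpa using c2.trans q2
  · simpa using c3.trans q2

/-- Truncated volume. -/
def av (R : ℝ) (φ : V4 → ℝ) : ℝ≥0∞ := volume (Cs φ ∩ Metric.closedBall 0 R)

theorem av_ne_top (R : ℝ) (φ : V4 → ℝ) : av R φ ≠ ⊤ :=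
  ((measure_mono inter_subset_right).trans_lt measure_closedBall_lt_top).ne

theorem vol_Ss_ne_top {ρ c : ℝ} {φ : V4 → ℝ} (h : Bd ρ c φ) : volume (Ss φ) ≠ ⊤ :=
  ((measure_mono (Ss_sub h)).trans_lt measure_closedBall_lt_top).ne

theorem z_eq {ρ c : ℝ} {φ : V4 → ℝ} (h : Bd ρ c φ) (hφ : Continuous φ) :
    z φ = (av (c * (1 + 2 * ρ)) (top1 φ)).toReal - (av (c * (1 + 2 * ρ)) φ).toReal := by
  set R := c * (1 + 2 * ρ)
  have e : Ss φ = (Cs (top1 φ) ∩ Metric.closedBall 0 R) \ (Cs φ ∩ Metric.closedBall 0 R) := by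
    ext w
    constructor
    · intro hw
      exact ⟨⟨hw.1, Ss_sub h hw⟩, fun h' => hw.2 h'.1⟩
    · rintro ⟨⟨h1, h2⟩, h3⟩
      exact ⟨h1, fun h' => h3 ⟨h', h2⟩⟩
  have hsub : Cs φ ∩ Metric.closedBall 0 R ⊆ Cs (top1 φ) ∩ Metric.closedBall 0 R :=
    inter_subset_inter_left _ (Cs_mono (le_top1 φ))
  unfold z
  rw [e, measure_sdiff hsub
    (((Cs_closed hφ).measurableSet.inter measurableSet_closedBall).nullMeasurableSet)
    (av_ne_top R φ)]
  exact ENNReal.toReal_sub_of_le (measure_mono hsub) (av_ne_top R _)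

theorem av_conv (R : ℝ) {φ : V4 → ℝ} {f : ℕ → V4 → ℝ} (hf : ∀ m, Continuous (f m))
    (hle : ∀ m u, φ u ≤ f m u) (hlim : ∀ u, Tendsto (fun m => f m u) atTop (𝓝 (φ u))) :
    Tendsto (fun m => av R (f m)) atTop (𝓝 (av R φ)) := by
  let D : ℕ → Set V5 := fun M => (⋃ m, ⋃ (_ : M ≤ m), Cs (f m)) ∩ Metric.closedBall 0 R
  have hD : Antitone D := by
    intro a b hab
    refine inter_subset_inter_left _ ?_
    intro w hw
    simp only [mem_iUnion] at hw ⊢
    obtain ⟨m, hm, h⟩ := hw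
    exact ⟨m, hab.trans hm, h⟩
  have hm : ∀ M, NullMeasurableSet (D M) volume := fun M =>
    ((MeasurableSet.iUnion fun m => MeasurableSet.iUnion fun _ =>
      (Cs_closed (hf m)).measurableSet).inter measurableSet_closedBall).nullMeasurableSet
  have ht := tendsto_measure_iInter_atTop (μ := (volume : Measure V5)) hm hD
    ⟨0, ((measure_mono inter_subset_right).trans_lt measure_closedBall_lt_top).ne⟩
  have e : ⋂ M, D M = Cs φ ∩ Metric.closedBall 0 R := by
    apply Subset.antisymm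
    · intro w hw
      rw [mem_iInter] at hw
      refine ⟨fun s t => ?_, (hw 0).2⟩
      refine ge_of_tendsto_of_frequently (hlim (pt w s t)) ?_
      rw [frequently_atTop]
      intro M
      have := (hw M).1
      simp only [mem_iUnion] at this
      obtain ⟨m, hm, h⟩ := this
      exact ⟨m, hm, h s t⟩
    · intro w hw
      rw [mem_iInter]
      intro M
      refine ⟨?_, hw.2⟩
      simp only [mem_iUnion]
      exact ⟨M, le_rfl, Cs_mono (hle M) hw.1⟩
  rw [e] at ht
  refine tendsto_of_tendsto_of_tendsto_of_le_of_le tendsto_const_nhds ht ?_ ?_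
  · intro m
    exact measure_mono (inter_subset_inter_left _ (Cs_mono (hle m)))
  · intro m
    refine measure_mono (inter_subset_inter_left _ ?_)
    intro w hw
    simp only [mem_iUnion]
    exact ⟨m, le_rfl, hw⟩

theorem z_conv {ρ c : ℝ} {φ : V4 → ℝ} {f : ℕ → V4 → ℝ} (hφ : Continuous φ)
    (hf : ∀ m, Continuous (f m)) (hb : Bd ρ c φ) (hbf : ∀ m, Bd ρ c (f m))
    (hle : ∀ m u, φ u ≤ f m u) (hlim : ∀ u, Tendsto (fun m => f m u) atTop (𝓝 (φ u))) :
    Tendsto (fun m => z (f m)) atTop (𝓝 (z φ)) := by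
  have e : (fun m => z (f m)) = fun m => (av (c * (1 + 2 * ρ)) (top1 (f m))).toReal
      - (av (c * (1 + 2 * ρ)) (f m)).toReal := funext fun m => z_eq (hbf m) (hf m)
  rw [e, z_eq hb hφ]
  refine Tendsto.sub ?_ ?_
  · refine (ENNReal.tendsto_toReal (av_ne_top _ _)).comp ?_
    refine av_conv _ (fun m => top1_cont (hf m)) (fun m u => max_le_max_right _ (hle m u)) ?_
    intro u
    exact (hlim u).max tendsto_const_nhds
  · exact (ENNReal.tendsto_toReal (av_ne_top _ _)).comp (av_conv _ hf hle hlim)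

theorem av_scale {R l : ℝ} {φ ψ : V4 → ℝ} (hl : 1 ≤ l) (h : ∀ u, ψ u ≤ l * φ u) :
    av R ψ ≤ ENNReal.ofReal (l ^ 3) * av R φ := by
  let σ : V5 →ₗ[ℝ] V5 := Matrix.toLin' (Matrix.diagonal ![l, l, l, 1, 1])
  have hdet : LinearMap.det σ = l ^ 3 := by
    simp only [σ, LinearMap.det_toLin', Matrix.det_diagonal, Fin.prod_univ_five]
    simp; ring
  have hl0 : 0 < l := by linarith
  have hsub : Cs ψ ∩ Metric.closedBall 0 R ⊆ σ '' (Cs φ ∩ Metric.closedBall 0 R) := by
    rintro w ⟨hw1, hw2⟩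
    refine ⟨![w 0 / l, w 1 / l, w 2 / l, w 3, w 4], ⟨fun s t => ?_, ?_⟩, ?_⟩
    · have := (hw1 s t).trans (h _)
      have e : pt ![w 0 / l, w 1 / l, w 2 / l, w 3, w 4] s t = pt w s t := by
        simp [pt]
      rw [e]
      have e2 : aff ![w 0 / l, w 1 / l, w 2 / l, w 3, w 4] s t = aff w s t / l := by
        simp [aff]; ring
      rw [e2, div_le_iff₀ hl0]; linarith
    · rw [mem_closedBall_zero_iff] at hw2 ⊢
      have hR : 0 ≤ R := (norm_nonneg _).trans hw2
      have hi : ∀ i, |w i| ≤ R := fun i => (norm_le_pi_norm w i).trans hw2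
      have hd : ∀ i, |w i| / |l| ≤ R := fun i => by
        rw [abs_of_pos hl0, div_le_iff₀ hl0]; nlinarith [hi i]
      refine (pi_norm_le_iff_of_nonneg hR).2 fun i => ?_
      fin_cases i
      · simpa using hd 0
      · simpa using hd 1
      · simpa using hd 2
      · simpa using hi 3
      · simpa using hi 4
    · ext i
      fin_cases i <;> simp [σ, Matrix.mulVec_diagonal] <;> field_simp
  refine (measure_mono hsub).trans ?_
  rw [Measure.addHaar_image_linearMap, hdet, abs_of_pos (by positivity)]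
  rfl

theorem av_sand {ι : Type} {L : Filter ι} (R : ℝ) {φ : V4 → ℝ} {f : ι → V4 → ℝ} {l : ι → ℝ}
    (hl : Tendsto l L (𝓝 1))
    (h : ∀ᶠ i in L, 1 ≤ l i ∧ (∀ u, f i u ≤ l i * φ u) ∧ ∀ u, φ u ≤ l i * f i u) :
    Tendsto (fun i => (av R (f i)).toReal) L (𝓝 (av R φ).toReal) := by
  have h3 : Tendsto (fun i => l i ^ 3) L (𝓝 1) := by simpa using hl.pow 3
  have up : Tendsto (fun i => l i ^ 3 * (av R φ).toReal) L (𝓝 (av R φ).toReal) := by
    simpa using h3.mul_const (av R φ).toReal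
  have lo : Tendsto (fun i => (av R φ).toReal / l i ^ 3) L (𝓝 (av R φ).toReal) := by
    have := (tendsto_const_nhds (x := (av R φ).toReal)).div h3 one_ne_zero
    rw [div_one] at this
    exact this
  refine tendsto_of_tendsto_of_tendsto_of_le_of_le' lo up ?_ ?_
  · filter_upwards [h] with i hi
    have hp : 0 < l i ^ 3 := by have := hi.1; positivity
    rw [div_le_iff₀ hp, mul_comm]
    have := ENNReal.toReal_mono (ENNReal.mul_ne_top ENNReal.ofReal_ne_top (av_ne_top R (f i)))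
      (av_scale (R := R) hi.1 hi.2.2)
    rwa [ENNReal.toReal_mul, ENNReal.toReal_ofReal hp.le] at this
  · filter_upwards [h] with i hi
    have hp : 0 < l i ^ 3 := by have := hi.1; positivity
    have := ENNReal.toReal_mono (ENNReal.mul_ne_top ENNReal.ofReal_ne_top (av_ne_top R φ))
      (av_scale (R := R) hi.1 hi.2.1)
    rwa [ENNReal.toReal_mul, ENNReal.toReal_ofReal hp.le] at this

theorem z_sand {ι : Type} {L : Filter ι} {ρ c : ℝ} {φ : V4 → ℝ} {f : ι → V4 → ℝ} {l : ι → ℝ}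
    (hφ : Continuous φ) (hf : ∀ i, Continuous (f i)) (hb : Bd ρ c φ)
    (hbf : ∀ᶠ i in L, Bd ρ c (f i)) (hl : Tendsto l L (𝓝 1))
    (h : ∀ᶠ i in L, 1 ≤ l i ∧ (∀ u, f i u ≤ l i * φ u) ∧ ∀ u, φ u ≤ l i * f i u) :
    Tendsto (fun i => z (f i)) L (𝓝 (z φ)) := by
  have e : (fun i => z (f i)) =ᶠ[L] fun i => (av (c * (1 + 2 * ρ)) (top1 (f i))).toReal
      - (av (c * (1 + 2 * ρ)) (f i)).toReal := by
    filter_upwards [hbf] with i hi using z_eq hi (hf i)
  rw [tendsto_congr' e, z_eq hb hφ]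
  refine Tendsto.sub (av_sand _ hl ?_) (av_sand _ hl h)
  filter_upwards [h] with i hi
  have aux : ∀ a b : ℝ, a ≤ l i * b → max a 1 ≤ l i * max b 1 := by
    intro a b hab
    have h1 := hi.1
    refine max_le (hab.trans ?_) ?_
    · exact mul_le_mul_of_nonneg_left (le_max_left _ _) (by linarith)
    · nlinarith [le_max_right b 1]
  exact ⟨hi.1, fun u => aux _ _ (hi.2.1 u), fun u => aux _ _ (hi.2.2 u)⟩

theorem z_pos {ρ c : ℝ} {φ : V4 → ℝ} (h : Bd ρ c φ) (hφ : Continuous φ) (h0 : φ 0 = 0) :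
    0 < z φ := by
  refine ENNReal.toReal_pos ?_ (vol_Ss_ne_top h)
  obtain ⟨hρ, hc, hl, hu⟩ := h
  let U : Set V5 := {w | φ (pt w 0 0) < w 0} ∩ {w | w 0 < 1 / 2} ∩ {w | |w 1| < 1 / (4 * ρ)}
    ∩ {w | |w 2| < 1 / (4 * ρ)}
  have hU : IsOpen U := by
    refine ((IsOpen.inter ?_ ?_).inter ?_).inter ?_
    · exact isOpen_lt (hφ.comp (pt_cont 0 0)) (continuous_apply 0)
    · exact isOpen_lt (continuous_apply 0) continuous_const
    · exact isOpen_lt (continuous_apply 1).abs continuous_const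
    · exact isOpen_lt (continuous_apply 2).abs continuous_const
  have hne : U.Nonempty := by
    refine ⟨![1 / 4, 0, 0, 0, 0], ⟨⟨?_, ?_⟩, ?_⟩, ?_⟩
    · have : pt ![1 / 4, 0, 0, 0, 0] 0 0 = 0 := by
        ext i; fin_cases i <;> simp [pt]
      simp only [mem_ofPred_eq]
      rw [this, h0]; simp
    · simp; norm_num
    · simp; linarith
    · simp; linarith
  have hsub : U ⊆ Ss φ := by
    rintro w ⟨⟨⟨h1, h2⟩, h3⟩, h4⟩
    simp only [mem_ofPred_eq] at h1 h2 h3 h4
    refine ⟨fun s t => ?_, fun hw => ?_⟩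
    · have c0 : |s| ≤ ρ * φ (pt w s t) := by
        simpa [pt] using (norm_le_pi_norm (pt w s t) 0).trans (hl _)
      have c1 : |t| ≤ ρ * φ (pt w s t) := by
        simpa [pt] using (norm_le_pi_norm (pt w s t) 1).trans (hl _)
      have hρ0 : 0 < ρ := by linarith
      have d1 : w 1 * s ≤ φ (pt w s t) / 4 := by
        refine (le_abs_self _).trans ?_
        rw [abs_mul]
        calc |w 1| * |s| ≤ 1 / (4 * ρ) * (ρ * φ (pt w s t)) :=
              mul_le_mul h3.le c0 (abs_nonneg _) (by positivity)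
          _ = φ (pt w s t) / 4 := by field_simp
      have d2 : w 2 * t ≤ φ (pt w s t) / 4 := by
        refine (le_abs_self _).trans ?_
        rw [abs_mul]
        calc |w 2| * |t| ≤ 1 / (4 * ρ) * (ρ * φ (pt w s t)) :=
              mul_le_mul h4.le c1 (abs_nonneg _) (by positivity)
          _ = φ (pt w s t) / 4 := by field_simp
      have := le_max_left (φ (pt w s t)) 1
      have := le_max_right (φ (pt w s t)) 1
      unfold aff top1
      linarith
    · have := hw 0 0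
      unfold aff at this
      linarith
  exact ((hU.measure_pos volume hne).trans_le (measure_mono hsub)).ne'

end

end Pool.Agent.H943Z.MV
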