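import Pool.Agent.H943Z.MV1

set_option autoImplicit false
open MeasureTheory Set Filter Topology
open scoped ENNReal

namespace Pool.Agent.H943Z.MV

noncomputable section

structure Sm (φ : V4 → ℝ) (D : V4 → V4 →L[ℝ] ℝ) (H : V4 → V4 → V4 →L[ℝ] ℝ) : Prop where
  d1 : ∀ u, HasFDerivAt φ (D u) u
  d2 : ∀ u a, HasFDerivAt (fun v => D v a) (H u a) u
  cont : ∀ a b, Continuous fun u => H u a b
  sym : ∀ u a b, H u a b = H u b a
  strict : ∀ u v, u ≠ v → φ u + D u (v - u) < φ v

variable {φ : V4 → ℝ} {D : V4 → V4 →L[ℝ] ℝ} {H : V4 → V4 → V4 →L[ℝ] ℝ}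

theorem Sm.continuous (h : Sm φ D H) : Continuous φ :=
  continuous_iff_continuousAt.2 fun u => (h.d1 u).continuousAt

theorem Sm.le (h : Sm φ D H) (u v : V4) : φ u + D u (v - u) ≤ φ v := by
  by_cases huv : u = v
  · subst huv; simp
  · exact (h.strict u v huv).le

theorem Sm.psd (h : Sm φ D H) (u a : V4) : 0 ≤ H u a a := by
  have h1 : HasDerivAt (fun t : ℝ => u + t • a) a 0 := by
    simpa using ((hasDerivAt_id (0:ℝ)).smul_const a).const_add u
  have h2 : HasDerivAt (fun t : ℝ => D (u + t • a) a) (H u a a) 0 := by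
    have := h.d2 (u + (0:ℝ) • a) a
    have h3 := this.comp_hasDerivAt (0:ℝ) h1
    rw [zero_smul, add_zero] at h3
    exact h3
  refine ge_of_tendsto h2.tendsto_slope_zero_right ?_
  filter_upwards [self_mem_nhdsWithin] with t ht
  have ht' : 0 < t := ht
  have e1 := h.le u (u + t • a)
  have e2 := h.le (u + t • a) u
  simp only [add_sub_cancel_left, map_smul, smul_eq_mul, sub_add_cancel_left, map_neg] at e1 e2
  simp only [zero_add, zero_smul, add_zero, smul_eq_mul]
  refine mul_nonneg (inv_nonneg.2 ht'.le) ?_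
  by_contra hn
  push Not at hn
  nlinarith

theorem Sm.det_nonneg (h : Sm φ D H) (u a b : V4) : 0 ≤ H u a a * H u b b - H u a b ^ 2 := by
  have key : ∀ x : ℝ, 0 ≤ H u a a * (x * x) + (2 * H u a b) * x + H u b b := by
    intro x
    have h1 := h.psd u (x • a + b)
    have h2 : H u (x • a + b) (x • a + b) = x * H u (x • a + b) a + H u (x • a + b) b := by
      simp
    rw [h2, h.sym u (x • a + b) a, h.sym u (x • a + b) b] at h1
    simp only [map_add, map_smul, smul_eq_mul] at h1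
    rw [h.sym u b a] at h1
    linarith
  have := discrim_le_zero key
  unfold discrim at this
  linarith

theorem Sm.comp (h : Sm φ D H) (L : V4 →L[ℝ] V4) (hL : Function.Injective L) :
    Sm (fun u => φ (L u)) (fun u => (D (L u)).comp L) (fun u a => (H (L u) (L a)).comp L) where
  d1 u := (h.d1 (L u)).comp u L.hasFDerivAt
  d2 u a := (h.d2 (L u) (L a)).comp u L.hasFDerivAt
  cont a b := (h.cont (L a) (L b)).comp L.continuous
  sym u a b := h.sym _ _ _
  strict u v huv := by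
    have := h.strict (L u) (L v) (fun e => huv (hL e))
    simpa using this

def e0 : V4 := Pi.single 0 1
def e1 : V4 := Pi.single 1 1

def tl : V5 →L[ℝ] V4 := ContinuousLinearMap.pi fun i => ContinuousLinearMap.proj i.succ

theorem tl_apply (x : V5) (i : Fin 4) : tl x i = x i.succ := rfl

def Gam (φ : V4 → ℝ) (D : V4 → V4 →L[ℝ] ℝ) (x : V5) : V5 :=
  ![1 - x 0 + x 0 * (φ (tl x) - x 1 * D (tl x) e0 - x 2 * D (tl x) e1),
    x 0 * D (tl x) e0, x 0 * D (tl x) e1, x 3, x 4]

theorem pt_Gam (x : V5) (s t : ℝ) :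
    pt (Gam φ D x) s t - tl x = (s - x 1) • e0 + (t - x 2) • e1 := by
  ext i
  fin_cases i <;> simp [pt, Gam, e0, e1, tl_apply]

theorem aff_Gam (x : V5) (s t : ℝ) :
    aff (Gam φ D x) s t = 1 - x 0 + x 0 * (φ (tl x) + D (tl x) (pt (Gam φ D x) s t - tl x)) := by
  rw [pt_Gam]
  simp [aff, Gam]
  ring

theorem pt_Gam_self (x : V5) : pt (Gam φ D x) (x 1) (x 2) = tl x := by
  have := pt_Gam (φ := φ) (D := D) x (x 1) (x 2)
  simpa [sub_eq_zero] using this

def Dom (φ : V4 → ℝ) : Set V5 := {x | x 0 ∈ Ioo (0:ℝ) 1 ∧ φ (tl x) < 1}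

theorem Dom_meas (hφ : Continuous φ) : MeasurableSet (Dom φ) := by
  have : IsOpen (Dom φ) :=
    (isOpen_Ioo.preimage (continuous_apply 0)).inter
      (isOpen_lt (hφ.comp tl.continuous) continuous_const)
  exact this.measurableSet

theorem Gam_sub (h : Sm φ D H) : Gam φ D '' Dom φ ⊆ Ss φ := by
  rintro _ ⟨x, ⟨⟨h0, h1⟩, h2⟩, rfl⟩
  refine ⟨fun s t => ?_, fun hw => ?_⟩
  · rw [aff_Gam]
    have := h.le (tl x) (pt (Gam φ D x) s t)
    have a1 := le_max_left (φ (pt (Gam φ D x) s t)) 1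
    have a2 := le_max_right (φ (pt (Gam φ D x) s t)) 1
    unfold top1
    nlinarith
  · have := hw (x 1) (x 2)
    rw [aff_Gam, pt_Gam_self] at this
    simp at this
    nlinarith

theorem Gam_inj (h : Sm φ D H) : InjOn (Gam φ D) (Dom φ) := by
  have aux : ∀ x ∈ Dom φ, ∀ y ∈ Dom φ, Gam φ D x = Gam φ D y →
      1 - y 0 + y 0 * φ (tl y) = 1 - x 0 + x 0 * (φ (tl x) + D (tl x) (tl y - tl x)) := by
    intro x _ y _ hxy
    have e1 := aff_Gam (φ := φ) (D := D) x (y 1) (y 2)
    have e2 := aff_Gam (φ := φ) (D := D) y (y 1) (y 2)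
    rw [hxy] at e1
    rw [pt_Gam_self] at e1 e2
    rw [e1] at e2
    simpa using e2.symm
  have aux2 : ∀ x ∈ Dom φ, ∀ y ∈ Dom φ, Gam φ D x = Gam φ D y → x 0 ≤ y 0 := by
    intro x hx y hy hxy
    have e := aux x hx y hy hxy
    have l := h.le (tl x) (tl y)
    have h0 := hx.1.1
    have h2 := hy.2
    by_contra hn
    push Not at hn
    nlinarith [mul_le_mul_of_nonneg_left l h0.le, mul_pos (sub_pos.2 hn) (sub_pos.2 h2)]
  intro x hx y hy hxy
  have e0' : x 0 = y 0 := le_antisymm (aux2 x hx y hy hxy) (aux2 y hy x hx hxy.symm)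
  have e := aux x hx y hy hxy
  have ht : tl x = tl y := by
    by_contra hn
    have l := h.strict _ _ hn
    have h0 := hx.1.1
    rw [← e0'] at e
    nlinarith [mul_lt_mul_of_pos_left l h0]
  ext i
  refine Fin.cases e0' (fun j => ?_) i
  exact congrFun ht j

theorem mem_Gam (h : Sm φ D H) {ρ : ℝ} (hρ : 0 ≤ ρ) (hl : ∀ u, ‖u‖ ≤ ρ * φ u) (w : V5)
    (h1 : ∀ s t, φ (pt w s t) ≤ 1 → aff w s t < 1)
    (h2 : ∃ s t, φ (pt w s t) ≤ 1 ∧ φ (pt w s t) < aff w s t) : w ∈ Gam φ D '' Dom φ := by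
  have hc := h.continuous
  have cpt : Continuous fun p : ℝ × ℝ => pt w p.1 p.2 := by
    unfold pt
    refine continuous_pi (fun i => ?_)
    fin_cases i <;> simp <;> fun_prop
  have caff : Continuous fun p : ℝ × ℝ => aff w p.1 p.2 := by unfold aff; fun_prop
  let K : Set (ℝ × ℝ) := {p | φ (pt w p.1 p.2) ≤ 1}
  have hK : IsCompact K := by
    refine Metric.isCompact_of_isClosed_isBounded (isClosed_le (hc.comp cpt) continuous_const) ?_
    refine (Metric.isBounded_closedBall (x := (0 : ℝ × ℝ)) (r := ρ)).subset ?_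
    intro p hp
    have hn : ‖pt w p.1 p.2‖ ≤ ρ := by
      have := hl (pt w p.1 p.2)
      have hp' : φ (pt w p.1 p.2) ≤ 1 := hp
      nlinarith
    rw [mem_closedBall_zero_iff, Prod.norm_def]
    refine max_le ?_ ?_
    · simpa [pt] using (norm_le_pi_norm (pt w p.1 p.2) 0).trans hn
    · simpa [pt] using (norm_le_pi_norm (pt w p.1 p.2) 1).trans hn
  let κ : ℝ × ℝ → ℝ := fun p => (1 - φ (pt w p.1 p.2)) / (1 - aff w p.1 p.2)
  have hκ : ContinuousOn κ K := by
    refine ContinuousOn.div (continuous_const.sub (hc.comp cpt)).continuousOn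
      (continuous_const.sub caff).continuousOn ?_
    intro p hp
    exact (sub_pos.2 (h1 _ _ hp)).ne'
  obtain ⟨s1, t1, q1, q2⟩ := h2
  obtain ⟨⟨s0, t0⟩, hp0, hmax⟩ := hK.exists_isMaxOn ⟨(s1, t1), q1⟩ hκ
  set k := κ (s0, t0) with hk
  have hk1 : 1 < k := by
    have : κ (s1, t1) ≤ k := hmax (show (s1, t1) ∈ K from q1)
    refine lt_of_lt_of_le ?_ this
    simp only [κ]
    rw [lt_div_iff₀ (sub_pos.2 (h1 _ _ q1))]
    linarith
  have a0 : 0 < 1 - aff w s0 t0 := sub_pos.2 (h1 _ _ hp0)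
  have eq0 : 1 - φ (pt w s0 t0) = k * (1 - aff w s0 t0) := by
    rw [hk]; simp only [κ]; field_simp
  have lt0 : φ (pt w s0 t0) < 1 := by nlinarith
  have hle : ∀ s t, φ (pt w s t) ≤ 1 → 1 - φ (pt w s t) - k * (1 - aff w s t) ≤ 0 := by
    intro s t hst
    have : κ (s, t) ≤ k := hmax (show (s, t) ∈ K from hst)
    simp only [κ] at this
    rw [div_le_iff₀ (sub_pos.2 (h1 _ _ hst))] at this
    linarith
  have ds : HasDerivAt (fun s => pt w s t0) e0 s0 := by
    rw [hasDerivAt_pi]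
    intro i
    fin_cases i <;> simp [pt, e0, hasDerivAt_const, hasDerivAt_id']
  have dt : HasDerivAt (fun t => pt w s0 t) e1 t0 := by
    rw [hasDerivAt_pi]
    intro i
    fin_cases i <;> simp [pt, e1, hasDerivAt_const, hasDerivAt_id']
  have g0 : D (pt w s0 t0) e0 = k * w 1 := by
    have d1 := (h.d1 (pt w s0 t0)).comp_hasDerivAt s0 ds
    have d2 : HasDerivAt (fun s => aff w s t0) (w 1) s0 := by
      unfold aff
      simpa using (((hasDerivAt_id s0).const_mul (w 1)).const_add (w 0)).add_const (w 2 * t0)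
    have d3 := (d1.const_sub 1).sub ((d2.const_sub 1).const_mul k)
    have lm : IsLocalMax (fun s => 1 - φ (pt w s t0) - k * (1 - aff w s t0)) s0 := by
      have : ∀ᶠ s in 𝓝 s0, φ (pt w s t0) < 1 :=
        d1.continuousAt.eventually (gt_mem_nhds lt0)
      filter_upwards [this] with s hs
      have := hle s t0 hs.le
      linarith
    have := lm.hasDerivAt_eq_zero d3
    linarith
  have g1 : D (pt w s0 t0) e1 = k * w 2 := by
    have d1 := (h.d1 (pt w s0 t0)).comp_hasDerivAt t0 dt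
    have d2 : HasDerivAt (fun t => aff w s0 t) (w 2) t0 := by
      unfold aff
      simpa using ((hasDerivAt_id t0).const_mul (w 2)).const_add (w 0 + w 1 * s0)
    have d3 := (d1.const_sub 1).sub ((d2.const_sub 1).const_mul k)
    have lm : IsLocalMax (fun t => 1 - φ (pt w s0 t) - k * (1 - aff w s0 t)) t0 := by
      have : ∀ᶠ t in 𝓝 t0, φ (pt w s0 t) < 1 :=
        d1.continuousAt.eventually (gt_mem_nhds lt0)
      filter_upwards [this] with t ht
      have := hle s0 t ht.le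
      linarith
    have := lm.hasDerivAt_eq_zero d3
    linarith
  have hk0 : 0 < k := by linarith
  have htl : tl ![1 / k, s0, t0, w 3, w 4] = pt w s0 t0 := by
    ext i; fin_cases i <;> simp [tl_apply, pt]
  refine ⟨![1 / k, s0, t0, w 3, w 4], ⟨⟨?_, ?_⟩, ?_⟩, ?_⟩
  · simpa using hk0
  · simpa using inv_lt_one_of_one_lt₀ hk1
  · rw [htl]; exact lt0
  · unfold Gam
    rw [htl, g0, g1]
    unfold aff at eq0
    ext i
    fin_cases i
    · simp; field_simp; linarith
    · simp; field_simp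
    · simp; field_simp
    · simp
    · simp

theorem vol_Ss_eq (h : Sm φ D H) {ρ : ℝ} (hρ : 0 ≤ ρ) (hl : ∀ u, ‖u‖ ≤ ρ * φ u) :
    volume (Ss φ) = volume (Gam φ D '' Dom φ) := by
  refine le_antisymm ?_ (measure_mono (Gam_sub h))
  let sh : ℕ → V5 := fun m => Pi.single 0 (-(1 / ((m:ℝ) + 1)))
  let A : ℕ → Set V5 := fun n => {w | ∀ m, n ≤ m → w + sh m ∈ Gam φ D '' Dom φ}
  have hA : Monotone A := fun a b hab w hw m hm => hw m (hab.trans hm)
  have hsub : Ss φ ⊆ ⋃ n, A n := by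
    rintro w ⟨hw1, hw2⟩
    simp only [Cs, mem_ofPred_eq, not_forall, not_le] at hw2
    obtain ⟨s, t, hst⟩ := hw2
    obtain ⟨n, hn⟩ := exists_nat_one_div_lt (sub_pos.2 hst)
    refine mem_iUnion.2 ⟨n, fun m hm => ?_⟩
    have p1 : ∀ s t, pt (w + sh m) s t = pt w s t := by
      intro s t; simp [pt, sh]
    have p2 : ∀ s t, aff (w + sh m) s t = aff w s t - 1 / ((m:ℝ) + 1) := by
      intro s t; simp [aff, sh]; ring
    have hm0 : 0 < 1 / ((m:ℝ) + 1) := by positivity
    have hmn : 1 / ((m:ℝ) + 1) ≤ 1 / ((n:ℝ) + 1) := Nat.one_div_le_one_div hm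
    refine mem_Gam h hρ hl _ (fun s' t' h' => ?_) ⟨s, t, ?_, ?_⟩
    · rw [p1] at h'
      rw [p2]
      have := hw1 s' t'
      unfold top1 at this
      rw [max_eq_right h'] at this
      linarith
    · rw [p1]
      have := hw1 s t
      unfold top1 at this
      rcases le_max_iff.1 this with h' | h' <;> linarith
    · rw [p1, p2]; linarith
  refine (measure_mono hsub).trans ?_
  rw [hA.measure_iUnion]
  refine iSup_le fun n => ?_
  have : A n ⊆ (fun w => w + sh n) ⁻¹' (Gam φ D '' Dom φ) := fun w hw => hw n le_rfl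
  refine (measure_mono this).trans ?_
  rw [measure_preimage_add_right]

theorem det5 (a b c d e f g h i j k l m n o : ℝ) :
    Matrix.det !![a, b, c, d, e; f, g, h, i, j; k, l, m, n, o; 0, 0, 0, 1, 0; 0, 0, 0, 0, 1]
      = a * (g * m - h * l) - b * (f * m - h * k) + c * (f * l - g * k) := by
  simp [Matrix.det_succ_row_zero, Fin.sum_univ_succ, Fin.succAbove]
  ring

theorem Gam_deriv (h : Sm φ D H) (x : V5) : ∃ G : V5 →L[ℝ] V5, HasFDerivAt (Gam φ D) G x ∧
    G.det = x 0 ^ 2 * (φ (tl x) - 1) *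
      (H (tl x) e0 e0 * H (tl x) e1 e1 - H (tl x) e0 e1 ^ 2) := by
  have p : ∀ i : Fin 5, HasFDerivAt (fun y : V5 => y i)
      (ContinuousLinearMap.proj (R := ℝ) (φ := fun _ : Fin 5 => ℝ) i) x :=
    fun i => hasFDerivAt_apply i x
  have a := (h.d1 (tl x)).comp x tl.hasFDerivAt
  have b0 := (h.d2 (tl x) e0).comp x tl.hasFDerivAt
  have b1 := (h.d2 (tl x) e1).comp x tl.hasFDerivAt
  have f0 := ((p 0).const_sub 1).add ((p 0).mul ((a.sub ((p 1).mul b0)).sub ((p 2).mul b1)))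
  have f1 := (p 0).mul b0
  have f2 := (p 0).mul b1
  have pack : ∀ A B C : V5 →L[ℝ] ℝ, HasFDerivAt (fun y => Gam φ D y 0) A x →
      HasFDerivAt (fun y => Gam φ D y 1) B x → HasFDerivAt (fun y => Gam φ D y 2) C x →
      HasFDerivAt (Gam φ D) (ContinuousLinearMap.pi
        ![A, B, C, ContinuousLinearMap.proj 3, ContinuousLinearMap.proj 4]) x := by
    intro A B C hA hB hC
    refine hasFDerivAt_pi.2 fun i => ?_
    fin_cases i
    · exact hA
    · exact hB
    · exact hC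
    · exact p 3
    · exact p 4
  refine ⟨_, pack _ _ _ f0 f1 f2, ?_⟩
  · have t0 : tl (Pi.single 0 1) = 0 := by ext i; fin_cases i <;> simp [tl_apply]
    have t1 : tl (Pi.single 1 1) = e0 := by ext i; fin_cases i <;> simp [tl_apply, e0]
    have t2 : tl (Pi.single 2 1) = e1 := by ext i; fin_cases i <;> simp [tl_apply, e1]
    unfold ContinuousLinearMap.det
    rw [← LinearMap.det_toMatrix']
    set u := tl x
    set a3 := tl (Pi.single 3 1)
    set a4 := tl (Pi.single 4 1)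
    have hM : ∀ M : Matrix (Fin 5) (Fin 5) ℝ, M 3 0 = 0 → M 3 1 = 0 → M 3 2 = 0 → M 3 3 = 1 →
        M 3 4 = 0 → M 4 0 = 0 → M 4 1 = 0 → M 4 2 = 0 → M 4 3 = 0 → M 4 4 = 1 →
        M.det = M 0 0 * (M 1 1 * M 2 2 - M 1 2 * M 2 1) - M 0 1 * (M 1 0 * M 2 2 - M 1 2 * M 2 0)
          + M 0 2 * (M 1 0 * M 2 1 - M 1 1 * M 2 0) := by
      intro M q0 q1 q2 q3 q4 r0 r1 r2 r3 r4
      rw [← det5 (M 0 0) (M 0 1) (M 0 2) (M 0 3) (M 0 4) (M 1 0) (M 1 1) (M 1 2) (M 1 3) (M 1 4)
        (M 2 0) (M 2 1) (M 2 2) (M 2 3) (M 2 4)]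
      congr 1
      ext i j
      fin_cases i <;> fin_cases j <;> simp [*]
    rw [hM _ (by simp) (by simp) (by simp) (by simp) (by simp) (by simp) (by simp) (by simp)
      (by simp) (by simp)]
    simp [t0, t1, t2]
    rw [h.sym u e1 e0]
    ring

def c0 : ℝ≥0∞ := ∫⁻ l in Ioo (0:ℝ) 1, ENNReal.ofReal (l ^ 2)

theorem c0_ne_top : c0 ≠ ⊤ := by
  have : c0 ≤ ∫⁻ _ in Ioo (0:ℝ) 1, 1 := by
    refine setLIntegral_mono' measurableSet_Ioo fun l hl => ?_
    rw [ENNReal.ofReal_le_one]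
    nlinarith [hl.1, hl.2]
  refine ne_top_of_le_ne_top ?_ this
  simp

theorem vol_Ss_formula (h : Sm φ D H) {ρ : ℝ} (hρ : 0 ≤ ρ) (hl : ∀ u, ‖u‖ ≤ ρ * φ u) :
    volume (Ss φ) = c0 * ∫⁻ u, ENNReal.ofReal
      (max (1 - φ u) 0 * (H u e0 e0 * H u e1 e1 - H u e0 e1 ^ 2)) := by
  rw [vol_Ss_eq h hρ hl]
  choose G hG1 hG2 using Gam_deriv h
  have hm := Dom_meas h.continuous
  rw [← lintegral_abs_det_fderiv_eq_addHaar_image volume hm
    (fun x _ => (hG1 x).hasFDerivWithinAt) (Gam_inj h), ← lintegral_indicator hm]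
  let F : ℝ → ℝ≥0∞ := (Ioo (0:ℝ) 1).indicator fun l => ENNReal.ofReal (l ^ 2)
  let J : V4 → ℝ≥0∞ := fun u => ENNReal.ofReal
      (max (1 - φ u) 0 * (H u e0 e0 * H u e1 e1 - H u e0 e1 ^ 2))
  have hF : Measurable F := Measurable.indicator (by fun_prop) measurableSet_Ioo
  have hJ : Measurable J := by
    refine ENNReal.measurable_ofReal.comp (Continuous.measurable ?_)
    have := h.continuous
    have := h.cont e0 e0
    have := h.cont e1 e1
    have := h.cont e0 e1
    fun_prop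
  have e : ∀ x : V5, (Dom φ).indicator (fun x => ENNReal.ofReal |(G x).det|) x
      = F (x 0) * J (tl x) := by
    intro x
    by_cases h0 : x 0 ∈ Ioo (0:ℝ) 1
    · by_cases h1 : φ (tl x) < 1
      · rw [indicator_of_mem (show x ∈ Dom φ from ⟨h0, h1⟩)]
        simp only [F, J]
        rw [indicator_of_mem h0, ← ENNReal.ofReal_mul (sq_nonneg _), hG2,
          max_eq_left (by linarith)]
        congr 1
        have hd := h.det_nonneg (tl x) e0 e1
        rw [abs_of_nonpos]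
        · ring
        · exact mul_nonpos_of_nonpos_of_nonneg
            (mul_nonpos_of_nonneg_of_nonpos (sq_nonneg _) (by linarith)) hd
      · rw [indicator_of_notMem (show x ∉ Dom φ from fun hx => h1 hx.2)]
        simp only [J]
        rw [max_eq_right (by linarith)]
        simp
    · rw [indicator_of_notMem (show x ∉ Dom φ from fun hx => h0 hx.1)]
      simp only [F]
      rw [indicator_of_notMem h0]
      simp
  simp_rw [e]
  have mp := volume_preserving_piFinSuccAbove (fun _ : Fin 5 => ℝ) 0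
  have e2 := mp.lintegral_comp (f := fun p : ℝ × V4 => F p.1 * J p.2)
    ((hF.comp measurable_fst).mul (hJ.comp measurable_snd))
  have e3 : ∫⁻ x : V5, F (x 0) * J (tl x)
      = ∫⁻ p : ℝ × V4, F p.1 * J p.2 := by
    rw [← e2]
    rfl
  rw [e3, Measure.volume_eq_prod, lintegral_prod_mul hF.aemeasurable hJ.aemeasurable]
  congr 1
  simp only [F]
  rw [lintegral_indicator measurableSet_Ioo]
  rfl

end

end Pool.Agent.H943Z.MV
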