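import Mathlib

set_option autoImplicit false
open Set Filter Topology Matrix

namespace Pool.Agent.H943Z.MVR

noncomputable section

abbrev V4 := Fin 4 → ℝ
abbrev M4 := Matrix (Fin 4) (Fin 4) ℝ
abbrev G4 := Matrix.SpecialLinearGroup (Fin 4) ℝ

def br (v w : V4) (M : M4) : ℝ := (M *ᵥ v) 0 * (M *ᵥ w) 1 - (M *ᵥ w) 0 * (M *ᵥ v) 1
def psi (v w : V4) : G4 → ℝ := fun g => br v w g.1 ^ 2
def Wt : Submodule ℝ (G4 → ℝ) := Submodule.span ℝ (range fun p : V4 × V4 => psi p.1 p.2)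

theorem psi_mem (v w : V4) : psi v w ∈ Wt := Submodule.subset_span ⟨(v, w), rfl⟩

def mn (i j : Fin 4) (g : G4) : ℝ := g.1 0 i * g.1 1 j - g.1 0 j * g.1 1 i
def PP (p q : Fin 4 × Fin 4) : G4 → ℝ :=
  fun g => mn p.1 q.1 g * mn p.2 q.2 g + mn p.1 q.2 g * mn p.2 q.1 g

theorem PP_mem (p q : Fin 4 × Fin 4) : PP p q ∈ Wt := by
  let e : Fin 4 → V4 := fun i => Pi.single i 1
  have : PP p q = (1 / 2 : ℝ) • ((psi (e p.1 + e p.2) (e q.1 + e q.2) - psi (e p.1) (e q.1 + e q.2)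
      - psi (e p.2) (e q.1 + e q.2)) - (psi (e p.1 + e p.2) (e q.1) - psi (e p.1) (e q.1)
      - psi (e p.2) (e q.1)) - (psi (e p.1 + e p.2) (e q.2) - psi (e p.1) (e q.2)
      - psi (e p.2) (e q.2))) := by
    funext g
    simp only [PP, mn, psi, br, e, Pi.smul_apply, Pi.sub_apply, smul_eq_mul, mulVec_add,
      Pi.add_apply, mulVec_single_one, col_apply]
    ring
  rw [this]
  refine Wt.smul_mem _ (Wt.sub_mem (Wt.sub_mem ?_ ?_) ?_) <;>
    exact Wt.sub_mem (Wt.sub_mem (psi_mem _ _) (psi_mem _ _)) (psi_mem _ _)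

def bil (H : Fin 4 × Fin 4 → ℝ) (x y : V4) : ℝ := ∑ p : Fin 4 × Fin 4, H p * x p.1 * y p.2

theorem sumPP (H H' : Fin 4 × Fin 4 → ℝ) (g : G4) :
    ∑ p, ∑ q, H p * H' q * PP p q g =
      bil H (g.1 0) (g.1 0) * bil H' (g.1 1) (g.1 1) + bil H (g.1 0) (g.1 0) * bil H' (g.1 1) (g.1 1)
      + bil H (g.1 1) (g.1 1) * bil H' (g.1 0) (g.1 0)
      + bil H (g.1 1) (g.1 1) * bil H' (g.1 0) (g.1 0)
      - bil H (g.1 0) (g.1 1) * bil H' (g.1 1) (g.1 0)
      - bil H (g.1 1) (g.1 0) * bil H' (g.1 0) (g.1 1)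
      - bil H (g.1 0) (g.1 1) * bil H' (g.1 0) (g.1 1)
      - bil H (g.1 1) (g.1 0) * bil H' (g.1 1) (g.1 0) := by
  simp only [bil, Finset.sum_mul_sum, ← Finset.sum_add_distrib, ← Finset.sum_sub_distrib]
  refine Finset.sum_congr rfl fun p _ => Finset.sum_congr rfl fun q _ => ?_
  simp only [PP, mn]
  ring

theorem bil_rank (v x y : V4) : bil (fun p => v p.1 * v p.2) x y = (x ⬝ᵥ v) * (y ⬝ᵥ v) := by
  simp only [bil, dotProduct, Finset.sum_mul_sum, Fintype.sum_prod_type]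
  refine Finset.sum_congr rfl fun p _ => Finset.sum_congr rfl fun q _ => ?_
  ring

theorem psi_eq (v w : V4) :
    psi v w = ∑ p : Fin 4 × Fin 4, ∑ q : Fin 4 × Fin 4,
      ((1 / 2 : ℝ) * ((v p.1 * v p.2) * (w q.1 * w q.2))) • PP p q := by
  funext g
  have := sumPP (fun p => v p.1 * v p.2) (fun p => w p.1 * w p.2) g
  simp only [bil_rank] at this
  simp only [Finset.sum_apply, Pi.smul_apply, smul_eq_mul, mul_assoc (1 / 2 : ℝ),
    ← Finset.mul_sum]
  rw [this]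
  simp only [psi, br, mulVec]
  ring

instance : FiniteDimensional ℝ Wt := by
  have : Wt ≤ Submodule.span ℝ (range fun r : (Fin 4 × Fin 4) × (Fin 4 × Fin 4) => PP r.1 r.2) := by
    refine Submodule.span_le.2 ?_
    rintro _ ⟨⟨v, w⟩, rfl⟩
    simp only [psi_eq]
    refine Submodule.sum_mem _ fun p _ => Submodule.sum_mem _ fun q _ => Submodule.smul_mem _ _ ?_
    exact Submodule.subset_span ⟨(p, q), rfl⟩
  have hfin := FiniteDimensional.span_of_finite ℝ
    (finite_range fun r : (Fin 4 × Fin 4) × (Fin 4 × Fin 4) => PP r.1 r.2)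
  exact Submodule.finiteDimensional_of_le this

def R (k : G4) : (G4 → ℝ) →ₗ[ℝ] (G4 → ℝ) := LinearMap.funLeft ℝ ℝ fun g => g * k

theorem R_apply (k : G4) (F : G4 → ℝ) (g : G4) : R k F g = F (g * k) := rfl

theorem R_psi (k : G4) (v w : V4) : R k (psi v w) = psi (k.1 *ᵥ v) (k.1 *ᵥ w) := by
  funext g
  simp [R_apply, psi, br]

theorem R_mem (k : G4) : ∀ F ∈ Wt, R k F ∈ Wt := by
  intro F hF
  have : Wt ≤ Wt.comap (R k) := by
    refine Submodule.span_le.2 ?_
    rintro _ ⟨⟨v, w⟩, rfl⟩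
    simp only [SetLike.mem_coe, Submodule.mem_comap, R_psi]
    exact psi_mem _ _
  exact this hF

def rho0 : Representation ℝ G4 Wt where
  toFun k := (R k).restrict (R_mem k)
  map_one' := by
    ext F g
    simp [R_apply]
  map_mul' a b := by
    ext F g
    simp [R_apply, mul_assoc]

theorem rho0_coe (k : G4) (F : Wt) : (rho0 k F : G4 → ℝ) = R k F := rfl

def PolyFun (f : G4 → ℝ) : Prop :=
  ∃ P : MvPolynomial (Fin 4 × Fin 4) ℝ, ∀ g : G4,
    f g = MvPolynomial.eval (fun p => g.1 p.1 p.2) P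

theorem PolyFun.const (c : ℝ) : PolyFun fun _ => c := ⟨MvPolynomial.C c, fun _ => by simp⟩

theorem PolyFun.coord (i j : Fin 4) : PolyFun fun g => g.1 i j :=
  ⟨MvPolynomial.X (i, j), fun _ => by simp⟩

theorem PolyFun.add {f g : G4 → ℝ} (hf : PolyFun f) (hg : PolyFun g) :
    PolyFun fun x => f x + g x := by
  obtain ⟨P, hP⟩ := hf
  obtain ⟨Q, hQ⟩ := hg
  exact ⟨P + Q, fun x => by simp [hP, hQ]⟩

theorem PolyFun.mul {f g : G4 → ℝ} (hf : PolyFun f) (hg : PolyFun g) :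
    PolyFun fun x => f x * g x := by
  obtain ⟨P, hP⟩ := hf
  obtain ⟨Q, hQ⟩ := hg
  exact ⟨P * Q, fun x => by simp [hP, hQ]⟩

theorem PolyFun.sum {ι : Type} (s : Finset ι) {f : ι → G4 → ℝ} (hf : ∀ i, PolyFun (f i)) :
    PolyFun fun x => ∑ i ∈ s, f i x := by
  classical
  induction s using Finset.induction_on with
  | empty => simpa using PolyFun.const 0
  | insert a s ha ih =>
    simp only [Finset.sum_insert ha]
    exact (hf a).add ih

theorem PolyFun.mv (v : V4) (i : Fin 4) : PolyFun fun g => (g.1 *ᵥ v) i := by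
  simp only [mulVec, dotProduct]
  exact PolyFun.sum _ fun j => (PolyFun.coord i j).mul (PolyFun.const _)

theorem poly_rho0 (l : Wt →ₗ[ℝ] ℝ) (F : Wt) : PolyFun fun k => l (rho0 k F) := by
  obtain ⟨F, hF⟩ := F
  induction hF using Submodule.span_induction with
  | mem x hx =>
    obtain ⟨⟨v, w⟩, rfl⟩ := hx
    have : ∀ k : G4, rho0 k ⟨psi v w, psi_mem v w⟩ = ∑ p : Fin 4 × Fin 4, ∑ q : Fin 4 × Fin 4,
        ((1 / 2 : ℝ) * (((k.1 *ᵥ v) p.1 * (k.1 *ᵥ v) p.2) * ((k.1 *ᵥ w) q.1 * (k.1 *ᵥ w) q.2))) •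
          (⟨PP p q, PP_mem p q⟩ : Wt) := by
      intro k
      apply Subtype.ext
      rw [rho0_coe, R_psi, psi_eq]
      simp
    have e : (fun k => l (rho0 k ⟨psi v w, psi_mem v w⟩)) = fun k => ∑ p : Fin 4 × Fin 4,
        ∑ q : Fin 4 × Fin 4,
        ((1 / 2 : ℝ) * (((k.1 *ᵥ v) p.1 * (k.1 *ᵥ v) p.2) * ((k.1 *ᵥ w) q.1 * (k.1 *ᵥ w) q.2))) *
          l (⟨PP p q, PP_mem p q⟩ : Wt) := by
      funext k
      rw [this]
      simp only [map_sum, map_smul, smul_eq_mul]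
    change PolyFun (fun k => l (rho0 k ⟨psi v w, psi_mem v w⟩))
    rw [e]
    refine PolyFun.sum _ fun p => PolyFun.sum _ fun q => PolyFun.mul ?_ (PolyFun.const _)
    exact (PolyFun.const _).mul (((PolyFun.mv _ _).mul (PolyFun.mv _ _)).mul
      ((PolyFun.mv _ _).mul (PolyFun.mv _ _)))
  | zero =>
    have : (⟨0, Submodule.zero_mem _⟩ : Wt) = 0 := rfl
    change PolyFun (fun k => l (rho0 k (0 : Wt)))
    simpa using PolyFun.const 0
  | add x y hx hy ihx ihy =>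
    change PolyFun (fun k => l (rho0 k ((⟨x, hx⟩ : Wt) + ⟨y, hy⟩)))
    simp only [map_add]
    exact ihx.add ihy
  | smul a x hx ih =>
    change PolyFun (fun k => l (rho0 k (a • (⟨x, hx⟩ : Wt))))
    simp only [map_smul, smul_eq_mul]
    exact (PolyFun.const a).mul ih

structure Ext (F : G4 → ℝ) (Fh : M4 → ℝ) : Prop where
  eq : ∀ g : G4, F g = Fh g.1
  cont : Continuous Fh
  hom : ∀ (t : ℝ) (M : M4), Fh (t • M) = t ^ 4 * Fh M
  rows : ∀ M M' : M4, M 0 = M' 0 → M 1 = M' 1 → Fh M = Fh M'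
  blk : ∀ M : M4, M 0 2 = 0 → M 0 3 = 0 → M 1 2 = 0 → M 1 3 = 0 →
    Fh M = (M 0 0 * M 1 1 - M 0 1 * M 1 0) ^ 2 * Fh 1

theorem exists_ext {F : G4 → ℝ} (hF : F ∈ Wt) : ∃ Fh, Ext F Fh := by
  induction hF using Submodule.span_induction with
  | mem x hx =>
    obtain ⟨⟨v, w⟩, rfl⟩ := hx
    refine ⟨fun M => br v w M ^ 2, fun g => rfl, ?_, ?_, ?_, ?_⟩
    · simp only [br, mulVec, dotProduct]
      fun_prop
    · intro t M
      simp only [br, smul_mulVec, Pi.smul_apply, smul_eq_mul]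
      ring
    · intro M M' h0 h1
      simp only [br, mulVec, h0, h1]
    · intro M a b c d
      simp only [br, one_mulVec]
      simp only [mulVec, dotProduct, Fin.sum_univ_four, a, b, c, d]
      ring
  | zero => exact ⟨0, fun _ => rfl, continuous_const, by simp, by simp, by simp⟩
  | add x y _ _ ihx ihy =>
    obtain ⟨A, hA⟩ := ihx
    obtain ⟨B, hB⟩ := ihy
    refine ⟨fun M => A M + B M, fun g => by simp [hA.eq, hB.eq], hA.cont.add hB.cont, ?_, ?_, ?_⟩
    · intro t M; rw [hA.hom, hB.hom]; ring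
    · intro M M' h0 h1; rw [hA.rows M M' h0 h1, hB.rows M M' h0 h1]
    · intro M a b c d; rw [hA.blk M a b c d, hB.blk M a b c d]; ring
  | smul a x _ ih =>
    obtain ⟨A, hA⟩ := ih
    refine ⟨fun M => a * A M, fun g => by simp [hA.eq], continuous_const.mul hA.cont, ?_, ?_, ?_⟩
    · intro t M; rw [hA.hom]; ring
    · intro M M' h0 h1; rw [hA.rows M M' h0 h1]
    · intro M a b c d; rw [hA.blk M a b c d]; ring

theorem ev_ne (a b c d : ℝ) : ∀ᶠ s in 𝓝[≠] (0:ℝ), (a + s) * (d + s) - b * c ≠ 0 := by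
  by_cases h0 : a * d - b * c = 0
  · by_cases h1 : a + d = 0
    · filter_upwards [self_mem_nhdsWithin] with s hs
      have hs' : s ≠ 0 := hs
      have : (a + s) * (d + s) - b * c = s * s := by linear_combination h0 + s * h1
      rw [this]; exact mul_ne_zero hs' hs'
    · have : ∀ᶠ s in 𝓝 (0:ℝ), a + d + s ≠ 0 := by
        have hc : ContinuousAt (fun s : ℝ => a + d + s) 0 := by fun_prop
        exact hc.eventually_ne (by simpa using h1)
      filter_upwards [self_mem_nhdsWithin, nhdsWithin_le_nhds this] with s hs h2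
      have hs' : s ≠ 0 := hs
      have : (a + s) * (d + s) - b * c = s * (a + d + s) := by linear_combination h0
      rw [this]; exact mul_ne_zero hs' h2
  · have hc : ContinuousAt (fun s : ℝ => (a + s) * (d + s) - b * c) 0 := by fun_prop
    exact nhdsWithin_le_nhds (hc.eventually_ne (by simpa using h0))

def phi0 : G4 → ℝ := psi (Pi.single 0 1) (Pi.single 1 1)

theorem phi0_apply (g : G4) : phi0 g = (g.1 0 0 * g.1 1 1 - g.1 0 1 * g.1 1 0) ^ 2 := by
  simp [phi0, psi, br]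

theorem det4 (M : M4) (h0 : M 2 0 = 0) (h1 : M 2 1 = 0) (h2 : M 3 0 = 0) (h3 : M 3 1 = 0)
    (h4 : M 2 3 = 0) (h5 : M 3 2 = 0) :
    M.det = (M 0 0 * M 1 1 - M 0 1 * M 1 0) * (M 2 2 * M 3 3) := by
  simp [Matrix.det_succ_row_zero, Fin.sum_univ_succ, Fin.succAbove, h0, h1, h2, h3, h4, h5]
  ring

theorem irred (M : Submodule ℝ (G4 → ℝ)) (hM : M ≤ Wt) (hinv : ∀ k, ∀ F ∈ M, R k F ∈ M)
    (hne : M ≠ ⊥) : Wt ≤ M := by
  have hfd : FiniteDimensional ℝ M := Submodule.finiteDimensional_of_le hM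
  have hcl : IsClosed (M : Set (G4 → ℝ)) := M.closed_of_finiteDimensional
  obtain ⟨F0, hF0, hF0ne⟩ := (Submodule.ne_bot_iff M).1 hne
  obtain ⟨g0, hg0⟩ : ∃ g, F0 g ≠ 0 := by
    by_contra hn
    push Not at hn
    exact hF0ne (funext hn)
  have hF : R g0 F0 ∈ M := hinv _ _ hF0
  set F := R g0 F0 with hFd
  have hF1 : F 1 ≠ 0 := by simpa [hFd, R_apply] using hg0
  obtain ⟨Fh, hE⟩ := exists_ext (hM hF)
  have h1 : Fh 1 ≠ 0 := by rw [hE.eq] at hF1; simpa using hF1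
  have hphi : phi0 ∈ M := by
    have : Fh 1 • phi0 ∈ M := by
      refine hcl.mem_of_tendsto (f := fun s : ℝ => fun g : G4 =>
        Fh (g.1 * diagonal ![1, 1, s ^ 2, s ^ 2])) (b := 𝓝[≠] (0:ℝ)) ?_ ?_
      · rw [tendsto_pi_nhds]
        intro g
        have hc : Continuous fun s : ℝ => Fh (g.1 * diagonal ![1, 1, s ^ 2, s ^ 2]) := by
          refine hE.cont.comp (continuous_const.matrix_mul (Continuous.matrix_diagonal ?_))
          refine continuous_pi fun i => ?_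
          fin_cases i <;> simp <;> fun_prop
        have h2 := (hc.tendsto 0).mono_left (nhdsWithin_le_nhds (s := {0}ᶜ))
        rw [hE.blk _ (by simp) (by simp) (by simp) (by simp)] at h2
        simpa [phi0_apply, mul_comm] using h2
      · filter_upwards [self_mem_nhdsWithin] with s hs
        have hs' : s ≠ 0 := hs
        let k : G4 := ⟨diagonal ![s⁻¹, s⁻¹, s, s], by
          rw [det_diagonal, Fin.prod_univ_four]; simp; field_simp⟩
        have : (fun g : G4 => Fh (g.1 * diagonal ![1, 1, s ^ 2, s ^ 2])) = s ^ 4 • R k F := by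
          funext g
          rw [Pi.smul_apply, R_apply, hE.eq, smul_eq_mul, ← hE.hom]
          congr 1
          change _ = s • (g.1 * diagonal ![s⁻¹, s⁻¹, s, s])
          rw [← Matrix.mul_smul, ← diagonal_smul]
          congr 2
          ext i
          fin_cases i <;> simp [hs', sq]
        rw [this]
        exact M.smul_mem _ (hinv _ _ hF)
    have := M.smul_mem (Fh 1)⁻¹ this
    rwa [smul_smul, inv_mul_cancel₀ h1, one_smul] at this
  have gen : ∀ v w : V4, v 0 * w 1 - w 0 * v 1 ≠ 0 → psi v w ∈ M := by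
    intro v w hd
    let k : G4 := ⟨!![v 0, w 0, 0, 0; v 1, w 1, 0, 0; v 2, w 2, (v 0 * w 1 - w 0 * v 1)⁻¹, 0;
        v 3, w 3, 0, 1], by
      rw [← det_transpose, det4 _ (by simp) (by simp) (by simp) (by simp) (by simp) (by simp)]
      simp
      rw [mul_comm (v 1) (w 0)]
      exact mul_inv_cancel₀ hd⟩
    have := hinv k _ hphi
    rw [phi0, R_psi] at this
    convert this using 2
    · ext i; fin_cases i <;> simp [k]
    · ext i; fin_cases i <;> simp [k]
  refine Submodule.span_le.2 ?_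
  rintro _ ⟨⟨v, w⟩, rfl⟩
  refine hcl.mem_of_tendsto (f := fun s : ℝ =>
    psi (v + s • Pi.single 0 1) (w + s • Pi.single 1 1)) (b := 𝓝[≠] (0:ℝ)) ?_ ?_
  · rw [tendsto_pi_nhds]
    intro g
    have hc : Continuous fun s : ℝ =>
        psi (v + s • Pi.single 0 1) (w + s • Pi.single 1 1) g := by
      simp only [psi, br, mulVec_add, mulVec_smul, Pi.add_apply, Pi.smul_apply, smul_eq_mul]
      fun_prop
    simpa using (hc.tendsto 0).mono_left (nhdsWithin_le_nhds (s := {0}ᶜ))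
  · filter_upwards [ev_ne (v 0) (w 0) (v 1) (w 1)] with s hs
    apply gen
    simpa using hs

theorem fixed_eq {F : G4 → ℝ} (hF : F ∈ Wt)
    (hN : ∀ g : G4, (∀ i j, j < i → g.1 i j = 0) → (∀ i, g.1 i i = 1) → R g F = F)
    (h1 : F 1 = 0) : F = 0 := by
  obtain ⟨Fh, hE⟩ := exists_ext hF
  have h1' : Fh 1 = 0 := by rw [hE.eq] at h1; simpa using h1
  have gen : ∀ M : M4, M 0 0 * M 1 1 - M 0 1 * M 1 0 ≠ 0 → Fh M = 0 := by
    intro M hd
    set δ := M 0 0 * M 1 1 - M 0 1 * M 1 0 with hδ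
    let g : G4 := ⟨!![M 0 0, M 0 1, 0, 0; M 1 0, M 1 1, 0, 0; 0, 0, δ⁻¹, 0; 0, 0, 0, 1], by
      rw [det4 _ (by simp) (by simp) (by simp) (by simp) (by simp) (by simp)]
      simp
      rw [← hδ]
      field_simp⟩
    let n : G4 := ⟨!![1, 0, (M 1 1 * M 0 2 - M 0 1 * M 1 2) / δ, (M 1 1 * M 0 3 - M 0 1 * M 1 3) / δ;
        0, 1, (M 0 0 * M 1 2 - M 1 0 * M 0 2) / δ, (M 0 0 * M 1 3 - M 1 0 * M 0 3) / δ;
        0, 0, 1, 0; 0, 0, 0, 1], by
      rw [det4 _ (by simp) (by simp) (by simp) (by simp) (by simp) (by simp)]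
      simp⟩
    have e1 := congrFun (hN n (by
      intro i j hij
      fin_cases i <;> fin_cases j <;> simp [n] at hij ⊢) (by
      intro i; fin_cases i <;> simp [n])) g
    rw [R_apply, hE.eq, hE.eq, hE.blk g.1 (by simp [g]) (by simp [g]) (by simp [g]) (by simp [g]),
      h1', mul_zero] at e1
    rw [← e1]
    apply hE.rows
    · ext j
      change _ = (g.1 * n.1) 0 j
      fin_cases j <;> simp [g, n, Matrix.mul_apply, Fin.sum_univ_four] <;> field_simp <;> ring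
    · ext j
      change _ = (g.1 * n.1) 1 j
      fin_cases j <;> simp [g, n, Matrix.mul_apply, Fin.sum_univ_four] <;> field_simp <;> ring
  funext g
  rw [hE.eq]
  have hc : Continuous fun s : ℝ => Fh (g.1 + s • (1 : M4)) := hE.cont.comp (by fun_prop)
  have h2 := (hc.tendsto 0).mono_left (nhdsWithin_le_nhds (s := {0}ᶜ))
  have h3 : (fun s : ℝ => Fh (g.1 + s • (1 : M4))) =ᶠ[𝓝[≠] 0] fun _ => 0 := by
    filter_upwards [ev_ne (g.1 0 0) (g.1 0 1) (g.1 1 0) (g.1 1 1)] with s hs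
    apply gen
    simpa using hs
  have := tendsto_nhds_unique (h2.congr' h3) tendsto_const_nhds
  simpa using this

theorem not_adm {F : G4 → ℝ} (hF : F ∈ Wt)
    (hN : ∀ g : G4, (∀ i j, j < i → g.1 i j = 0) → (∀ i, g.1 i i = 1) → R g F = F)
    (k : G4) (hk : k.1 = diagonal ![1, 2, 1 / 2, 1]) (hT : R k F = F) : F = 0 := by
  refine fixed_eq hF hN ?_
  obtain ⟨Fh, hE⟩ := exists_ext hF
  have e := congrFun hT 1
  rw [R_apply, one_mul, hE.eq k, hk, hE.blk _ (by simp) (by simp) (by simp) (by simp)] at e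
  have e1 : F 1 = Fh 1 := by rw [hE.eq]; simp
  rw [← e1] at e
  simp at e
  linarith

theorem phi0_fixed (g : G4) (h0 : ∀ i j, j < i → g.1 i j = 0) (h1 : ∀ i, g.1 i i = 1) :
    R g phi0 = phi0 := by
  funext x
  rw [R_apply, phi0_apply, phi0_apply]
  change ((x.1 * g.1) 0 0 * (x.1 * g.1) 1 1 - (x.1 * g.1) 0 1 * (x.1 * g.1) 1 0) ^ 2 = _
  simp only [Matrix.mul_apply, Fin.sum_univ_four, h1, h0 1 0 (by decide), h0 2 0 (by decide),
    h0 3 0 (by decide), h0 2 1 (by decide), h0 3 1 (by decide)]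
  ring

theorem phi0_diag (g : G4) (h0 : ∀ i j, i ≠ j → g.1 i j = 0) :
    R g phi0 = (g.1 0 0 ^ 2 * g.1 1 1 ^ 2) • phi0 := by
  funext x
  rw [R_apply, Pi.smul_apply, phi0_apply, phi0_apply]
  change ((x.1 * g.1) 0 0 * (x.1 * g.1) 1 1 - (x.1 * g.1) 0 1 * (x.1 * g.1) 1 0) ^ 2 = _
  simp only [Matrix.mul_apply, Fin.sum_univ_four, h0 1 0 (by decide), h0 2 0 (by decide),
    h0 3 0 (by decide), h0 2 1 (by decide), h0 3 1 (by decide), h0 0 1 (by decide), smul_eq_mul]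
  ring

theorem phi0_ne : phi0 ≠ 0 := by
  intro h
  have := congrFun h 1
  simp [phi0_apply] at this

end

end Pool.Agent.H943Z.MVR
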