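import Pool.Agent.H943Z.MV2
import Pool.Agent.H943Z.MV3

set_option autoImplicit false
open MeasureTheory Set Filter Topology Matrix
open scoped ENNReal Convolution

namespace Pool.Agent.H943Z.MV

open Pool.Agent.H943Z.MVR (G4 Wt PP PP_mem bil sumPP)

noncomputable section

def LT (g : G4) : V4 →L[ℝ] V4 := LinearMap.toContinuousLinearMap (Matrix.toLin' g.1ᵀ)

theorem LT_apply (g : G4) (u : V4) : LT g u = g.1ᵀ *ᵥ u := rfl

theorem LT_mul (g k : G4) (u : V4) : LT (g * k) u = LT k (LT g u) := by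
  simp [LT_apply]

theorem LT_one (u : V4) : LT 1 u = u := by simp [LT_apply]

theorem LT_inv (g : G4) (u : V4) : LT g⁻¹ (LT g u) = u := by
  rw [← LT_mul, mul_inv_cancel, LT_one]

theorem LT_inj (g : G4) : Function.Injective (LT g) :=
  Function.LeftInverse.injective (LT_inv g)

theorem LT_e0 (g : G4) : LT g e0 = g.1 0 := by
  ext i; simp [LT_apply, e0]

theorem LT_e1 (g : G4) : LT g e1 = g.1 1 := by
  ext i; simp [LT_apply, e1]

theorem LT_mp (g : G4) : MeasurePreserving (LT g) volume volume := by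
  refine ⟨(LT g).continuous.measurable, ?_⟩
  have hd : (g.1ᵀ).det = 1 := by rw [det_transpose]; exact g.2
  have := Real.map_matrix_volume_pi_eq_smul_volume_pi (M := g.1ᵀ) (by rw [hd]; exact one_ne_zero)
  rw [hd] at this
  simp only [inv_one, abs_one, ENNReal.ofReal_one, one_smul] at this
  exact this

theorem lower_comp {φ : V4 → ℝ} {ρ : ℝ} (hρ : 0 < ρ) (hl : ∀ u, ‖u‖ ≤ ρ * φ u) (g : G4) :
    ∃ ρ' : ℝ, 0 < ρ' ∧ ∀ u, ‖u‖ ≤ ρ' * φ (LT g u) := by
  refine ⟨(‖LT g⁻¹‖ + 1) * ρ, by positivity, fun u => ?_⟩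
  have h1 : ‖u‖ ≤ ‖LT g⁻¹‖ * ‖LT g u‖ := by
    conv_lhs => rw [← LT_inv g u]
    exact (LT g⁻¹).le_opNorm _
  have h2 := hl (LT g u)
  have h3 := norm_nonneg (LT g u)
  have h4 := norm_nonneg (LT g⁻¹)
  nlinarith

theorem sm_of_contDiff {φ : V4 → ℝ} (h2 : ContDiff ℝ 2 φ) (hc : StrictConvexOn ℝ univ φ) :
    Sm φ (fderiv ℝ φ)
      (fun u a => (ContinuousLinearMap.apply ℝ ℝ a).comp (fderiv ℝ (fderiv ℝ φ) u)) := by
  have hd1 : ContDiff ℝ 1 (fderiv ℝ φ) := h2.fderiv_right (by norm_num)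
  have d1 : ∀ u, HasFDerivAt φ (fderiv ℝ φ u) u := fun u =>
    (h2.differentiable (by norm_num) u).hasFDerivAt
  refine ⟨d1, fun u a => ?_, fun a b => ?_, fun u a b => ?_, fun u v huv => ?_⟩
  · exact (ContinuousLinearMap.apply ℝ ℝ a).hasFDerivAt.comp u
      (hd1.differentiable (by norm_num) u).hasFDerivAt
  · have := hd1.continuous_fderiv (by norm_num)
    simp only [ContinuousLinearMap.comp_apply, ContinuousLinearMap.apply_apply]
    fun_prop
  · exact (h2.contDiffAt.isSymmSndFDerivAt (by simp)) b a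
  · have hs : StrictConvexOn ℝ univ (fun t : ℝ => φ (u + t • (v - u))) := by
      refine ⟨convex_univ, fun x _ y _ hxy a b ha hb hab => ?_⟩
      have hne : u + x • (v - u) ≠ u + y • (v - u) := by
        intro e
        have := smul_left_injective ℝ (sub_ne_zero.2 huv.symm) (add_left_cancel e)
        exact hxy this
      have := hc.2 (mem_univ _) (mem_univ _) hne ha hb hab
      convert this using 2
      have hb' : b = 1 - a := by linarith
      subst hb'
      ext i; simp; ring
    have h1 : HasDerivAt (fun t : ℝ => u + t • (v - u)) (v - u) 0 := by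
      simpa using ((hasDerivAt_id (0:ℝ)).smul_const (v - u)).const_add u
    have h3 := (d1 (u + (0:ℝ) • (v - u))).comp_hasDerivAt (0:ℝ) h1
    rw [zero_smul, add_zero] at h3
    have := hs.lt_slope_of_hasDerivAt (mem_univ 0) (mem_univ 1) zero_lt_one h3
    rw [slope_def_field] at this
    simp only [one_smul, add_sub_cancel, zero_smul, add_zero, sub_zero, div_one] at this
    linarith

variable {φ : V4 → ℝ} {D : V4 → V4 →L[ℝ] ℝ} {H : V4 → V4 → V4 →L[ℝ] ℝ}

theorem lin_expand (A : V4 →L[ℝ] ℝ) (y : V4) : A y = ∑ k, y k * A (Pi.single k 1) := by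
  conv_lhs => rw [pi_eq_sum_univ' y]
  simp

theorem Sm.bil_eq (h : Sm φ D H) (v x y : V4) :
    bil (fun p => H v (Pi.single p.1 1) (Pi.single p.2 1)) x y = H v x y := by
  rw [lin_expand (H v x) y]
  simp only [bil, Fintype.sum_prod_type]
  rw [Finset.sum_comm]
  refine Finset.sum_congr rfl fun k _ => ?_
  rw [h.sym v x, lin_expand (H v (Pi.single k 1)) x, Finset.mul_sum]
  refine Finset.sum_congr rfl fun i _ => ?_
  rw [h.sym v (Pi.single k 1)]
  ring

theorem smooth_mem (h : Sm φ D H) {ρ : ℝ} (hρ : 0 < ρ) (hl : ∀ u, ‖u‖ ≤ ρ * φ u) :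
    (fun g : G4 => z (fun u => φ (LT g u))) ∈ Wt := by
  let Hc : V4 → Fin 4 × Fin 4 → ℝ := fun v p => H v (Pi.single p.1 1) (Pi.single p.2 1)
  let I : Fin 4 × Fin 4 → Fin 4 × Fin 4 → V4 → ℝ :=
    fun p q v => 1 / 4 * max (1 - φ v) 0 * (Hc v p * Hc v q)
  have hφ := h.continuous
  have hI : ∀ p q, Integrable (I p q) := by
    intro p q
    refine Continuous.integrable_of_hasCompactSupport ?_ ?_
    · have := h.cont (Pi.single p.1 1) (Pi.single p.2 1)
      have := h.cont (Pi.single q.1 1) (Pi.single q.2 1)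
      simp only [I, Hc]
      fun_prop
    · refine HasCompactSupport.intro (isCompact_closedBall (0 : V4) ρ) fun v hv => ?_
      rw [mem_closedBall_zero_iff, not_le] at hv
      have := hl v
      have h1 : 1 < φ v := by
        by_contra hn
        push Not at hn
        nlinarith
      simp only [I]
      rw [max_eq_right (by linarith)]
      simp
  have e : (fun g : G4 => z (fun u => φ (LT g u)))
      = ∑ p, ∑ q, (c0.toReal * ∫ v, I p q v) • PP p q := by
    funext g
    obtain ⟨ρ', hρ', hl'⟩ := lower_comp hρ hl g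
    have f := vol_Ss_formula (h.comp (LT g) (LT_inj g)) hρ'.le hl'
    simp only [ContinuousLinearMap.comp_apply, LT_e0, LT_e1] at f
    let J : V4 → ℝ := fun v => max (1 - φ v) 0 *
      (H v (g.1 0) (g.1 0) * H v (g.1 1) (g.1 1) - H v (g.1 0) (g.1 1) ^ 2)
    have hJ : Continuous J := by
      have := h.cont (g.1 0) (g.1 0)
      have := h.cont (g.1 1) (g.1 1)
      have := h.cont (g.1 0) (g.1 1)
      simp only [J]
      fun_prop
    have f2 := (LT_mp g).lintegral_comp (f := fun v => ENNReal.ofReal (J v))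
      (ENNReal.measurable_ofReal.comp hJ.measurable)
    have f3 : ∫ v, J v = (∫⁻ v, ENNReal.ofReal (J v)).toReal :=
      integral_eq_lintegral_of_nonneg_ae (Eventually.of_forall fun v =>
        mul_nonneg (le_max_right _ _) (h.det_nonneg _ _ _)) hJ.aestronglyMeasurable
    have f4 : ∀ v, J v = ∑ p, ∑ q, I p q v * PP p q g := by
      intro v
      have := sumPP (Hc v) (Hc v) g
      simp only [Hc, h.bil_eq] at this
      simp only [I, mul_assoc (1 / 4 * max (1 - φ v) 0), ← Finset.mul_sum, Hc]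
      rw [this, h.sym v (g.1 1) (g.1 0)]
      simp only [J]
      ring
    unfold z
    rw [f, ENNReal.toReal_mul]
    erw [f2]
    rw [← f3]
    simp_rw [f4]
    rw [integral_finsetSum _ fun p _ =>
      integrable_finsetSum _ fun q _ => (hI p q).mul_const _]
    simp only [Finset.sum_apply, Pi.smul_apply, smul_eq_mul, Finset.mul_sum]
    refine Finset.sum_congr rfl fun p _ => ?_
    rw [integral_finsetSum _ fun q _ => (hI p q).mul_const _, Finset.mul_sum]
    refine Finset.sum_congr rfl fun q _ => ?_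
    rw [integral_mul_const]
    ring
  rw [e]
  exact Wt.sum_mem fun p _ => Wt.sum_mem fun q _ => Wt.smul_mem _ (PP_mem p q)

theorem sq_strict : StrictConvexOn ℝ univ (fun u : V4 => u ⬝ᵥ u) := by
  refine ⟨convex_univ, fun x _ y _ hxy a b ha hb hab => ?_⟩
  have h1 : 0 < (x - y) ⬝ᵥ (x - y) := by
    refine lt_of_le_of_ne (Finset.sum_nonneg fun i _ => mul_self_nonneg _) fun e => ?_
    exact hxy (sub_eq_zero.1 (dotProduct_self_eq_zero.1 e.symm))
  have hb' : b = 1 - a := by linarith
  subst hb'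
  simp only [add_dotProduct, dotProduct_add, smul_dotProduct, dotProduct_smul, smul_eq_mul,
    sub_dotProduct, dotProduct_sub, dotProduct_comm y x] at h1 ⊢
  nlinarith [mul_pos (mul_pos ha hb) h1]

theorem exists_approx {h : V4 → ℝ} (hc : ConvexOn ℝ univ h) {L : ℝ} (hL : 0 ≤ L)
    (hlip : ∀ u v, h u ≤ h v + L * ‖u - v‖) (hcont : Continuous h) (ε : ℝ) (hε : 0 < ε) :
    ∃ f : V4 → ℝ, ContDiff ℝ 2 f ∧ StrictConvexOn ℝ univ f ∧ (∀ u, h u ≤ f u) ∧
      ∀ u, f u ≤ h u + ε * (2 * L + u ⬝ᵥ u) := by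
  let b : ContDiffBump (0 : V4) := ⟨ε / 2, ε, by positivity, by linarith⟩
  let c : V4 → ℝ := b.normed volume ⋆[ContinuousLinearMap.lsmul ℝ ℝ, volume] h
  have c1 : ContDiff ℝ 2 c :=
    b.hasCompactSupport_normed.contDiff_convolution_left (n := 2) _ b.contDiff_normed
      hcont.locallyIntegrable
  have c2 : ∀ u, dist (c u) (h u) ≤ L * ε := by
    intro u
    refine ContDiffBump.dist_normed_convolution_le hcont.aestronglyMeasurable fun x hx => ?_
    have hx' : ‖x - u‖ ≤ ε := by
      rw [← dist_eq_norm]; exact (Metric.mem_ball.1 hx).le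
    have a1 := hlip x u
    have a2 := hlip u x
    rw [norm_sub_rev] at a2
    rw [Real.dist_eq, abs_le]
    constructor <;> nlinarith
  have c3 : ConvexOn ℝ univ c := by
    refine ⟨convex_univ, fun x _ y _ a a' ha ha' hab => ?_⟩
    have ex : ∀ w, Integrable (fun t => b.normed volume t • h (w - t)) := fun w =>
      (b.hasCompactSupport_normed.convolutionExists_left (ContinuousLinearMap.lsmul ℝ ℝ)
        b.continuous_normed hcont.locallyIntegrable w).integrable
    simp only [c, convolution_lsmul, smul_eq_mul a, smul_eq_mul a']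
    rw [← integral_const_mul, ← integral_const_mul,
      ← integral_add ((ex x).const_mul a) ((ex y).const_mul a')]
    refine integral_mono (ex _) (((ex x).const_mul a).add ((ex y).const_mul a')) fun t => ?_
    have k := hc.2 (mem_univ (x - t)) (mem_univ (y - t)) ha ha' hab
    have e : a • (x - t) + a' • (y - t) = a • x + a' • y - t := by
      have hb' : a' = 1 - a := by linarith
      subst hb'
      ext i; simp; ring
    rw [e] at k
    have k2 := mul_le_mul_of_nonneg_left k (b.nonneg_normed (μ := volume) t)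
    simp only [smul_eq_mul] at k2 ⊢
    linarith
  refine ⟨fun u => (c u + L * ε) + ε * (u ⬝ᵥ u), ?_, ?_, fun u => ?_, fun u => ?_⟩
  · refine (c1.add contDiff_const).add (contDiff_const.mul ?_)
    simp only [dotProduct]
    fun_prop
  · have s1 : ConvexOn ℝ univ (fun u => c u + L * ε) := c3.add_const _
    have s2 : StrictConvexOn ℝ univ (fun u : V4 => ε * (u ⬝ᵥ u)) := by
      refine ⟨convex_univ, fun x _ y _ hxy a b ha hb hab => ?_⟩
      have := mul_lt_mul_of_pos_left (sq_strict.2 (mem_univ x) (mem_univ y) hxy ha hb hab) hε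
      simp only [smul_eq_mul] at this ⊢
      linarith
    exact s1.add_strictConvexOn s2
  · have := c2 u
    rw [Real.dist_eq, abs_le] at this
    have h1 : 0 ≤ u ⬝ᵥ u := Finset.sum_nonneg fun i _ => mul_self_nonneg _
    nlinarith [this.1]
  · have := c2 u
    rw [Real.dist_eq, abs_le] at this
    nlinarith [this.2]

theorem bd_of {φ Ψ : V4 → ℝ} {ρ0 : ℝ} (hρ : 0 < ρ0) (hl : ∀ u, ‖u‖ ≤ ρ0 * φ u)
    (hΨ : Continuous Ψ) :
    ∃ ρ c, ∀ ψ : V4 → ℝ, (∀ u, φ u ≤ 2 * ψ u) → (∀ u, ψ u ≤ Ψ u) → Bd ρ c ψ := by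
  obtain ⟨c, hc⟩ := (isCompact_closedBall (0 : V4) (1 + 2 * ρ0 + 1)).bddAbove_image
    hΨ.continuousOn
  refine ⟨1 + 2 * ρ0, max c 1, fun ψ h1 h2 => ⟨by linarith, le_max_right _ _, fun u => ?_,
    fun u hu => ?_⟩⟩
  · have a := hl u
    have a2 := h1 u
    have a3 : 0 ≤ φ u := by
      by_contra hn
      push Not at hn
      nlinarith [norm_nonneg u]
    nlinarith
  · refine (h2 u).trans ((hc ⟨u, ?_, rfl⟩).trans (le_max_left _ _))
    rwa [mem_closedBall_zero_iff]

theorem nonneg_of_lower {φ : V4 → ℝ} {ρ0 : ℝ} (hρ : 0 < ρ0) (hl : ∀ u, ‖u‖ ≤ ρ0 * φ u) (u : V4) :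
    0 ≤ φ u := by
  by_contra hn
  push Not at hn
  nlinarith [norm_nonneg u, hl u]

theorem convex_mem {h : V4 → ℝ} (hc : ConvexOn ℝ univ h) {L : ℝ} (hL : 0 ≤ L)
    (hlip : ∀ u v, h u ≤ h v + L * ‖u - v‖) (hcont : Continuous h) {ρ : ℝ} (hρ : 0 < ρ)
    (hl : ∀ u, ‖u‖ ≤ ρ * h u) : (fun g : G4 => z (fun u => h (LT g u))) ∈ Wt := by
  choose f f1 f2 f3 f4 using fun m : ℕ =>
    exists_approx hc hL hlip hcont (1 / ((m:ℝ) + 1)) (by positivity)
  have hcl : IsClosed (Wt : Set (G4 → ℝ)) := Wt.closed_of_finiteDimensional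
  refine hcl.mem_of_tendsto (f := fun m => fun g : G4 => z (fun u => f m (LT g u)))
    (b := atTop) ?_ (Eventually.of_forall fun m => ?_)
  · rw [tendsto_pi_nhds]
    intro g
    obtain ⟨ρ', hρ', hl'⟩ := lower_comp hρ hl g
    have hq : ∀ u : V4, 0 ≤ 2 * L + u ⬝ᵥ u := fun u =>
      add_nonneg (by linarith) (Finset.sum_nonneg fun i _ => mul_self_nonneg _)
    obtain ⟨ρ1, c1, hb⟩ := bd_of (Ψ := fun u => h (LT g u) + (2 * L + LT g u ⬝ᵥ LT g u)) hρ' hl'
      (by
        have := (LT g).continuous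
        simp only [dotProduct]
        fun_prop)
    have hn := nonneg_of_lower hρ hl
    refine z_conv (hcont.comp (LT g).continuous)
      (fun m => (f1 m).continuous.comp (LT g).continuous)
      (hb _ (fun u => by linarith [hn (LT g u)]) (fun u => by linarith [hq (LT g u)]))
      (fun m => hb _ (fun u => by linarith [hn (LT g u), f3 m (LT g u)]) (fun u => ?_))
      (fun m u => f3 m _) (fun u => ?_)
    · refine (f4 m _).trans ?_
      have : 1 / ((m:ℝ) + 1) ≤ 1 := by
        rw [div_le_one (by positivity)]; linarith [Nat.cast_nonneg (α := ℝ) m]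
      nlinarith [hq (LT g u)]
    · have t : Tendsto (fun m : ℕ => h (LT g u) + 1 / ((m:ℝ) + 1) * (2 * L + LT g u ⬝ᵥ LT g u))
          atTop (𝓝 (h (LT g u))) := by
        have := (tendsto_one_div_add_atTop_nhds_zero_nat (𝕜 := ℝ)).mul_const
          (2 * L + LT g u ⬝ᵥ LT g u)
        simpa using this.const_add (h (LT g u))
      exact tendsto_of_tendsto_of_tendsto_of_le_of_le tendsto_const_nhds t (fun m => f3 m _)
        (fun m => f4 m _)
  · refine smooth_mem (sm_of_contDiff (f1 m) (f2 m)) hρ fun u => (hl u).trans ?_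
    exact mul_le_mul_of_nonneg_left (f3 m u) hρ.le

end

end Pool.Agent.H943Z.MV
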