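import Pool.Agent.H943Z.MV4

set_option autoImplicit false
open MeasureTheory Set Filter Topology Matrix
open scoped ENNReal

namespace Pool.Agent.H943Z.MV

open Pool.Agent.H943Z.MVR (G4 Wt R rho0)

noncomputable section

def hK (K : ConvexBody V4) (u : V4) : ℝ := sSup ((fun x => u ⬝ᵥ x) '' (K : Set V4))

theorem dot_cont (u : V4) : Continuous fun x : V4 => u ⬝ᵥ x := by
  simp only [dotProduct]; fun_prop

theorem le_hK (K : ConvexBody V4) (u : V4) {x : V4} (hx : x ∈ (K : Set V4)) : u ⬝ᵥ x ≤ hK K u :=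
  le_csSup (K.isCompact.image (dot_cont u)).bddAbove ⟨x, hx, rfl⟩

theorem exists_hK (K : ConvexBody V4) (u : V4) : ∃ x ∈ (K : Set V4), u ⬝ᵥ x = hK K u :=
  (K.isCompact.image (dot_cont u)).sSup_mem (K.nonempty.image _)

theorem dot_le (u y : V4) : u ⬝ᵥ y ≤ 4 * ‖y‖ * ‖u‖ := by
  have : ∀ i, u i * y i ≤ ‖y‖ * ‖u‖ := fun i => by
    refine (le_abs_self _).trans ?_
    rw [abs_mul, mul_comm]
    exact mul_le_mul (norm_le_pi_norm y i) (norm_le_pi_norm u i) (abs_nonneg _) (norm_nonneg _)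
  simp only [dotProduct, Fin.sum_univ_four]
  linarith [this 0, this 1, this 2, this 3]

theorem hK_convex (K : ConvexBody V4) : ConvexOn ℝ univ (hK K) := by
  refine ⟨convex_univ, fun x _ y _ a b ha hb _ => ?_⟩
  obtain ⟨w, hw, e⟩ := exists_hK K (a • x + b • y)
  rw [← e]
  simp only [add_dotProduct, smul_dotProduct, smul_eq_mul]
  exact add_le_add (mul_le_mul_of_nonneg_left (le_hK K x hw) ha)
    (mul_le_mul_of_nonneg_left (le_hK K y hw) hb)

theorem hK_lip (K : ConvexBody V4) :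
    ∃ L : ℝ, 0 ≤ L ∧ ∀ u v, hK K u ≤ hK K v + L * ‖u - v‖ := by
  obtain ⟨r, hr⟩ := K.isBounded.exists_norm_le
  obtain ⟨x0, hx0⟩ := K.nonempty
  have hr0 : 0 ≤ r := (norm_nonneg _).trans (hr x0 hx0)
  refine ⟨4 * r, by positivity, fun u v => ?_⟩
  obtain ⟨w, hw, e⟩ := exists_hK K u
  have h1 := le_hK K v hw
  have h2 := dot_le (u - v) w
  rw [sub_dotProduct] at h2
  have h3 := hr w hw
  nlinarith [norm_nonneg (u - v)]

theorem hK_cont (K : ConvexBody V4) : Continuous (hK K) := by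
  obtain ⟨L, hL, h⟩ := hK_lip K
  refine (LipschitzWith.of_dist_le_mul (K := ⟨L, hL⟩) fun u v => ?_).continuous
  have a1 := h u v
  have a2 := h v u
  rw [norm_sub_rev] at a2
  rw [Real.dist_eq, dist_eq_norm, abs_le]
  change -(L * _) ≤ _ ∧ _ ≤ L * _
  constructor <;> linarith

theorem hK_zero (K : ConvexBody V4) : hK K 0 = 0 := by
  obtain ⟨w, _, e⟩ := exists_hK K 0
  rw [← e]; simp

theorem hK_lower (K : ConvexBody V4) (h0 : (0 : V4) ∈ interior (K : Set V4)) :
    ∃ ρ : ℝ, 0 < ρ ∧ ∀ u, ‖u‖ ≤ ρ * hK K u := by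
  obtain ⟨r, hr, hb⟩ := Metric.mem_nhds_iff.1 (mem_interior_iff_mem_nhds.1 h0)
  refine ⟨2 / r, by positivity, fun u => ?_⟩
  have h00 : 0 ≤ hK K u := by
    simpa using le_hK K u (interior_subset h0)
  refine (pi_norm_le_iff_of_nonneg (by positivity)).2 fun i => ?_
  have m : ∀ t : ℝ, |t| < r → u i * t ≤ hK K u := by
    intro t ht
    have : (Pi.single i t : V4) ∈ (K : Set V4) := by
      apply hb
      rw [mem_ball_zero_iff, Pi.norm_single]
      exact ht
    simpa using le_hK K u this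
  have m1 := m (r / 2) (by rw [abs_of_pos (by positivity)]; linarith)
  have m2 := m (-(r / 2)) (by rw [abs_neg, abs_of_pos (by positivity)]; linarith)
  rw [Real.norm_eq_abs, div_mul_eq_mul_div, le_div_iff₀ hr]
  rcases abs_cases (u i) with h | h <;> rw [h.1] <;> linarith

theorem hK_union {K L M : ConvexBody V4} (h : (M : Set V4) = (K : Set V4) ∪ L) (u : V4) :
    hK M u = max (hK K u) (hK L u) := by
  apply le_antisymm
  · obtain ⟨w, hw, e⟩ := exists_hK M u
    rw [← e]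
    rw [h] at hw
    rcases hw with hw | hw
    · exact (le_hK K u hw).trans (le_max_left _ _)
    · exact (le_hK L u hw).trans (le_max_right _ _)
  · refine max_le ?_ ?_
    · obtain ⟨w, hw, e⟩ := exists_hK K u
      rw [← e]; exact le_hK M u (by rw [h]; exact Or.inl hw)
    · obtain ⟨w, hw, e⟩ := exists_hK L u
      rw [← e]; exact le_hK M u (by rw [h]; exact Or.inr hw)

theorem hK_inter {K L M N : ConvexBody V4} (h : (M : Set V4) = (K : Set V4) ∪ L)
    (h' : (N : Set V4) = (K : Set V4) ∩ L) (u : V4) : hK N u = min (hK K u) (hK L u) := by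
  apply le_antisymm
  · obtain ⟨w, hw, e⟩ := exists_hK N u
    rw [← e]
    rw [h'] at hw
    exact le_min (le_hK K u hw.1) (le_hK L u hw.2)
  · obtain ⟨x, hx, ex⟩ := exists_hK K u
    obtain ⟨y, hy, ey⟩ := exists_hK L u
    have hseg : segment ℝ x y ⊆ (K : Set V4) ∪ L := by
      rw [← h]
      exact M.convex.segment_subset (by rw [h]; exact Or.inl hx) (by rw [h]; exact Or.inr hy)
    obtain ⟨c, hc1, hc2⟩ := isPreconnected_closed_iff.1 (convex_segment x y).isPreconnected _ _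
      K.isClosed L.isClosed hseg ⟨x, left_mem_segment ℝ x y, hx⟩ ⟨y, right_mem_segment ℝ x y, hy⟩
    obtain ⟨a, b, ha, hb, hab, rfl⟩ := hc1
    have := le_hK N u (by rw [h']; exact hc2)
    simp only [dotProduct_add, dotProduct_smul, smul_eq_mul] at this
    rw [ex, ey] at this
    have m1 := mul_le_mul_of_nonneg_left (min_le_left (hK K u) (hK L u)) ha
    have m2 := mul_le_mul_of_nonneg_left (min_le_right (hK K u) (hK L u)) hb
    have : (a + b) * min (hK K u) (hK L u) ≤ hK N u := by linarith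
    rwa [hab, one_mul] at this

theorem hK_image {K M : ConvexBody V4} (g : G4)
    (h : (M : Set V4) = (fun x => g.1 *ᵥ x) '' (K : Set V4)) (u : V4) :
    hK M u = hK K (LT g u) := by
  unfold hK
  rw [h, image_image]
  congr 2
  funext x
  rw [LT_apply, dotProduct_mulVec, mulVec_transpose]

theorem hK_haus (K K' : ConvexBody V4) (u : V4) : hK K' u ≤ hK K u + 4 * dist K' K * ‖u‖ := by
  obtain ⟨w, hw, e⟩ := exists_hK K' u
  obtain ⟨x, hx, ex⟩ := K.isCompact.exists_infDist_eq_dist K.nonempty w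
  have h1 := Metric.infDist_le_hausdorffDist_of_mem hw (ConvexBody.hausdorffEDist_ne_top (L := K))
  rw [ex, ConvexBody.hausdorffDist_coe, dist_eq_norm] at h1
  have h2 := dot_le u (w - x)
  rw [dotProduct_sub] at h2
  have h3 := le_hK K u hx
  nlinarith [norm_nonneg u]

abbrev K0 := {K : ConvexBody V4 // (0 : V4) ∈ interior (K : Set V4)}

theorem zeta_mem (K : K0) : (fun g : G4 => z (fun u => hK K.1 (LT g u))) ∈ Wt := by
  obtain ⟨L, hL, h⟩ := hK_lip K.1
  obtain ⟨ρ, hρ, hl⟩ := hK_lower K.1 K.2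
  exact convex_mem (hK_convex K.1) hL h (hK_cont K.1) hρ hl

def zeta (K : K0) : Wt := ⟨fun g : G4 => z (fun u => hK K.1 (LT g u)), zeta_mem K⟩

theorem bd_K0 (K : K0) (g : G4) : ∃ ρ c, Bd ρ c (fun u => hK K.1 (LT g u)) := by
  obtain ⟨ρ, hρ, hl⟩ := hK_lower K.1 K.2
  obtain ⟨ρ', hρ', hl'⟩ := lower_comp hρ hl g
  obtain ⟨ρ1, c1, hb⟩ := bd_of hρ' hl' ((hK_cont K.1).comp (LT g).continuous)
  exact ⟨ρ1, c1, hb _ (fun u => by linarith [nonneg_of_lower hρ' hl' u]) (fun u => le_rfl)⟩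

theorem zeta_val (K L M N : K0) (h : (M.1 : Set V4) = (K.1 : Set V4) ∪ L.1)
    (h' : (N.1 : Set V4) = (K.1 : Set V4) ∩ L.1) : zeta M + zeta N = zeta K + zeta L := by
  apply Subtype.ext
  funext g
  change z _ + z _ = z _ + z _
  have e1 : (fun u => hK M.1 (LT g u)) = fun u => max (hK K.1 (LT g u)) (hK L.1 (LT g u)) :=
    funext fun u => hK_union h _
  have e2 : (fun u => hK N.1 (LT g u)) = fun u => min (hK K.1 (LT g u)) (hK L.1 (LT g u)) :=
    funext fun u => hK_inter h h' _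
  have hc : ConvexOn ℝ univ fun u => min (hK K.1 (LT g u)) (hK L.1 (LT g u)) := by
    rw [← e2]
    have := (hK_convex N.1).comp_linearMap (LT g : V4 →ₗ[ℝ] V4)
    simpa [Function.comp_def] using this
  have v := vol_val ((hK_cont K.1).comp (LT g).continuous) ((hK_cont L.1).comp (LT g).continuous) hc
  obtain ⟨_, _, b1⟩ := bd_K0 K g
  obtain ⟨_, _, b2⟩ := bd_K0 L g
  obtain ⟨_, _, b3⟩ := bd_K0 M g
  obtain ⟨_, _, b4⟩ := bd_K0 N g
  unfold z
  rw [← ENNReal.toReal_add (vol_Ss_ne_top b3) (vol_Ss_ne_top b4),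
    ← ENNReal.toReal_add (vol_Ss_ne_top b1) (vol_Ss_ne_top b2), e1, e2]
  exact congrArg ENNReal.toReal v

theorem zeta_equiv (k : G4) (K M : K0)
    (h : (M.1 : Set V4) = (fun x => k.1 *ᵥ x) '' (K.1 : Set V4)) : zeta M = rho0 k (zeta K) := by
  apply Subtype.ext
  funext g
  change z _ = z _
  congr 1
  funext u
  rw [hK_image k h, LT_mul]

theorem zeta_cont : Continuous zeta := by
  refine Continuous.subtype_mk (continuous_pi fun g => ?_) _
  rw [continuous_iff_continuousAt]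
  intro K
  obtain ⟨ρ, hρ, hl⟩ := hK_lower K.1 K.2
  obtain ⟨ρ', hρ', hl'⟩ := lower_comp hρ hl g
  have hn := nonneg_of_lower hρ hl
  obtain ⟨ρ1, c1, hb⟩ := bd_of (Ψ := fun u => 2 * hK K.1 (LT g u)) hρ' hl'
    (continuous_const.mul ((hK_cont K.1).comp (LT g).continuous))
  have td : Tendsto (fun K' : K0 => 4 * dist K'.1 K.1 * ρ) (𝓝 K) (𝓝 0) := by
    have : Continuous fun K' : K0 => 4 * dist K'.1 K.1 * ρ := by fun_prop
    simpa using this.tendsto K
  have ev : ∀ᶠ K' : K0 in 𝓝 K, 4 * dist K'.1 K.1 * ρ < 1 / 2 :=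
    td.eventually (gt_mem_nhds (by norm_num))
  have key : ∀ᶠ K' : K0 in 𝓝 K, 1 ≤ 1 + 2 * (4 * dist K'.1 K.1 * ρ) ∧
      1 + 2 * (4 * dist K'.1 K.1 * ρ) ≤ 2 ∧
      (∀ v, hK K'.1 v ≤ (1 + 2 * (4 * dist K'.1 K.1 * ρ)) * hK K.1 v) ∧
      ∀ v, hK K.1 v ≤ (1 + 2 * (4 * dist K'.1 K.1 * ρ)) * hK K'.1 v := by
    filter_upwards [ev] with K' hK'
    have d0 : 0 ≤ dist K'.1 K.1 := dist_nonneg
    set t := 4 * dist K'.1 K.1 * ρ with ht
    have t0 : 0 ≤ t := by positivity
    have q : ∀ v, 4 * dist K'.1 K.1 * ‖v‖ ≤ t * hK K.1 v := fun v => by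
      rw [ht, mul_assoc _ ρ]
      exact mul_le_mul_of_nonneg_left (hl v) (by positivity)
    refine ⟨by linarith, by linarith, fun v => ?_, fun v => ?_⟩
    · have := hK_haus K.1 K'.1 v
      nlinarith [q v, hn v]
    · have := hK_haus K'.1 K.1 v
      rw [dist_comm] at this
      have a1 : (1 - t) * hK K.1 v ≤ hK K'.1 v := by nlinarith [q v]
      have a2 := mul_le_mul_of_nonneg_left a1 (by linarith : 0 ≤ 1 + 2 * t)
      have a3 : 0 ≤ t * (1 - 2 * t) * hK K.1 v :=
        mul_nonneg (mul_nonneg t0 (by linarith)) (hn v)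
      nlinarith
  refine z_sand (l := fun K' : K0 => 1 + 2 * (4 * dist K'.1 K.1 * ρ))
    (f := fun K' : K0 => fun u => hK K'.1 (LT g u))
    ((hK_cont K.1).comp (LT g).continuous)
    (fun K' => (hK_cont K'.1).comp (LT g).continuous)
    (hb _ (fun u => by linarith [hn (LT g u)]) (fun u => by linarith [hn (LT g u)])) ?_ ?_ ?_
  · filter_upwards [key] with K' h
    have hn' : ∀ v, 0 ≤ hK K'.1 v := fun v => by
      simpa using le_hK K'.1 v (interior_subset K'.2)
    refine hb _ (fun u => (h.2.2.2 _).trans ?_) (fun u => (h.2.2.1 _).trans ?_)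
    · exact mul_le_mul_of_nonneg_right h.2.1 (hn' _)
    · exact mul_le_mul_of_nonneg_right h.2.1 (hn _)
  · simpa using (td.const_mul 2).const_add 1
  · filter_upwards [key] with K' h
    exact ⟨h.1, fun u => h.2.2.1 _, fun u => h.2.2.2 _⟩

theorem zeta_ne (K : K0) : zeta K ≠ 0 := by
  intro h
  have h1 : z (fun u => hK K.1 (LT 1 u)) = 0 := congrFun (congrArg Subtype.val h) 1
  obtain ⟨_, _, b⟩ := bd_K0 K 1
  have := z_pos b ((hK_cont K.1).comp (LT 1).continuous) (by simp [hK_zero])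
  linarith

def ball0 : K0 := ⟨⟨Metric.closedBall 0 1, convex_closedBall _ _, isCompact_closedBall _ _,
    ⟨0, by simp⟩⟩, by
  rw [mem_interior_iff_mem_nhds]
  exact Metric.closedBall_mem_nhds _ one_pos⟩

end

end Pool.Agent.H943Z.MV
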