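import Mathlib

set_option autoImplicit false

namespace Pool.Agent.H943Z.ThV

/-- Cantor space -/
abbrev C : Type := ℕ → Bool

/-- prepend a letter -/
def cons (b : Bool) (w : C) : C
  | 0 => b
  | k + 1 => w k

/-- drop the first letter -/
def tail (w : C) : C := fun k => w (k + 1)

@[simp] theorem cons_zero (b : Bool) (w : C) : cons b w 0 = b := rfl
@[simp] theorem cons_succ (b : Bool) (w : C) (k : ℕ) : cons b w (k + 1) = w k := rfl
@[simp] theorem cons_one (b : Bool) (w : C) : cons b w 1 = w 0 := rfl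
@[simp] theorem tail_cons (b : Bool) (w : C) : tail (cons b w) = w := rfl
@[simp] theorem tail_apply (w : C) (k : ℕ) : tail w k = w (k + 1) := rfl

theorem cons_tail (w : C) : cons (w 0) (tail w) = w := by
  funext k
  cases k <;> rfl

theorem eq_cons {w : C} {b : Bool} (h : w 0 = b) : w = cons b (tail w) := by
  rw [← h, cons_tail]

theorem cons_inj (b : Bool) : Function.Injective (cons b) := fun _ _ h => congrArg tail h

@[simp] theorem cons_eq_iff (b c : Bool) (u v : C) : cons b u = cons c v ↔ b = c ∧ u = v :=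
  ⟨fun h => ⟨congrFun h 0, congrArg tail h⟩, fun h => by rw [h.1, h.2]⟩

theorem cases2 (w : C) : ∃ b u, w = cons b u := ⟨_, _, (cons_tail w).symm⟩

/-- agreement of initial segments -/
def Ag (n : ℕ) (x y : C) : Prop := ∀ i < n, x i = y i

theorem Ag.mono {n m : ℕ} {x y : C} (h : Ag n x y) (hm : m ≤ n) : Ag m x y :=
  fun i hi => h i (lt_of_lt_of_le hi hm)

theorem Ag.cons {n : ℕ} {x y : C} (h : Ag n x y) (b : Bool) : Ag (n + 1) (cons b x) (cons b y) := by
  intro i hi
  cases i with
  | zero => rfl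
  | succ i => exact h i (by omega)

/-- local prefix replacement with given lengths -/
def LocN (g : C → C) (w : C) (n m : ℕ) : Prop :=
  ∀ w', Ag n w' w → Ag m (g w') (g w) ∧ ∀ k, g w' (m + k) = w' (n + k)

theorem LocN.add {g : C → C} {w : C} {n m : ℕ} (h : LocN g w n m) (j : ℕ) :
    LocN g w (n + j) (m + j) := by
  intro w' hw
  obtain ⟨h1, h2⟩ := h w' (hw.mono (by omega))
  obtain ⟨-, h3⟩ := h w (fun _ _ => rfl)
  refine ⟨fun i hi => ?_, fun k => ?_⟩
  · by_cases him : i < m
    · exact h1 i him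
    · obtain ⟨k, rfl⟩ : ∃ k, i = m + k := ⟨i - m, by omega⟩
      rw [h2, h3]
      exact hw _ (by omega)
  · rw [add_assoc, h2, add_assoc]

/-- Thompson's group V -/
def V : Subgroup (Equiv.Perm C) where
  carrier := {g | ∀ w, ∃ n m, LocN g w n m}
  one_mem' := fun w => ⟨0, 0, fun w' _ => ⟨fun _ hi => absurd hi (by omega), fun _ => rfl⟩⟩
  mul_mem' := by
    intro f g hf hg w
    obtain ⟨n, m, h1⟩ := hg w
    obtain ⟨n', m', h2⟩ := hf (g w)
    refine ⟨n + n', m' + m, fun w' hw => ?_⟩
    obtain ⟨a1, a2⟩ := h1.add n' w' hw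
    obtain ⟨b1, b2⟩ := h2.add m (g w') (by rwa [add_comm])
    refine ⟨b1, fun k => ?_⟩
    rw [Equiv.Perm.mul_apply, b2, add_comm n' m, a2]
  inv_mem' := by
    intro g hg w
    obtain ⟨n, m, h1⟩ := hg (g⁻¹ w)
    refine ⟨m, n, fun w' hw => ?_⟩
    let z : C := fun k => if k < n then g⁻¹ w k else w' (m + (k - n))
    have hz : Ag n z (g⁻¹ w) := fun i hi => if_pos hi
    obtain ⟨a1, a2⟩ := h1 z hz
    have e : g z = w' := by
      funext i
      by_cases him : i < m
      · rw [a1 i him, hw i him]
        simp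
      · obtain ⟨k, rfl⟩ : ∃ k, i = m + k := ⟨i - m, by omega⟩
        rw [a2]
        simp [z]
    have e' : g⁻¹ w' = z := by rw [← e]; simp
    rw [e']
    exact ⟨hz, fun k => by simp [z]⟩

theorem mem_V {g : Equiv.Perm C} : g ∈ V ↔ ∀ w, ∃ n m, LocN g w n m := Iff.rfl

theorem V_cont {g : Equiv.Perm C} (hg : g ∈ V) (w : C) (i : ℕ) :
    ∃ n, ∀ w', Ag n w' w → g w' i = g w i := by
  obtain ⟨n, m, h⟩ := hg w
  exact ⟨n + (i + 1), fun w' hw => (h.add (i + 1) w' hw).1 i (by omega)⟩

/-- prefix concatenation as in the frozen statement -/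
def cat (u : List Bool) (w : C) : C :=
  fun k => if h : k < u.length then u.get ⟨k, h⟩ else w (k - u.length)

/-- `D` is a prefix table of `g` -/
def Table (D : List (List Bool × List Bool)) (g : Equiv.Perm C) : Prop :=
  (∀ w : C, ∃ p ∈ D, ∀ i : ℕ, ∀ h : i < p.1.length, w i = p.1.get ⟨i, h⟩) ∧
    ∀ p ∈ D, ∀ w : C, g (cat p.1 w) = cat p.2 w

theorem eq_cat (u : List Bool) (w : C) (h : ∀ i : ℕ, ∀ h : i < u.length, w i = u.get ⟨i, h⟩) :
    w = cat u (fun k => w (u.length + k)) := by
  funext k
  unfold cat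
  split_ifs with hk
  · exact h k hk
  · congr 1
    omega

theorem Table.unique {D : List (List Bool × List Bool)} {g g' : Equiv.Perm C} (h : Table D g)
    (h' : Table D g') : g = g' := by
  ext1 w
  obtain ⟨p, hp, hw⟩ := h.1 w
  rw [eq_cat p.1 w hw, h.2 p hp, h'.2 p hp]

theorem Table.mem {D : List (List Bool × List Bool)} {g : Equiv.Perm C} (h : Table D g) :
    g ∈ V := by
  intro w
  obtain ⟨p, hp, hw⟩ := h.1 w
  refine ⟨p.1.length, p.2.length, fun w' hw' => ?_⟩
  have e1 := eq_cat p.1 w hw
  have e2 := eq_cat p.1 w' fun i hi => (hw' i hi).trans (hw i hi)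
  have f1 := (congrArg g e1).trans (h.2 p hp _)
  have f2 := (congrArg g e2).trans (h.2 p hp _)
  rw [f1, f2]
  refine ⟨fun i hi => by simp [cat, hi], fun k => by simp [cat]⟩

theorem exists_table {g : Equiv.Perm C} (hg : g ∈ V) : ∃ D, Table D g := by
  classical
  choose n m h using hg
  have hU : ∀ w : C, {w' | Ag (n w) w' w} ∈ nhds w := by
    intro w
    have : {w' | Ag (n w) w' w} = ⋂ i ∈ Finset.range (n w), {w' : C | w' i = w i} := by
      ext w'
      simp [Ag]
    rw [this, Filter.biInter_finset_mem]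
    intro i _
    have ho : IsOpen ((fun w' : C => w' i) ⁻¹' {w i}) :=
      (isOpen_discrete {w i}).preimage (continuous_apply i)
    exact ho.mem_nhds rfl
  obtain ⟨t, ht⟩ := CompactSpace.elim_nhds_subcover _ hU
  refine ⟨t.toList.map fun w => (List.ofFn fun i : Fin (n w) => w i,
    List.ofFn fun i : Fin (m w) => g w i), ?_, ?_⟩
  · intro w
    have : w ∈ ⋃ x ∈ t, {w' | Ag (n x) w' x} := by rw [ht]; trivial
    obtain ⟨x, hx, hw⟩ := Set.mem_iUnion₂.1 this
    refine ⟨_, List.mem_map_of_mem (Finset.mem_toList.2 hx), fun i hi => ?_⟩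
    simp only [List.length_ofFn] at hi
    simpa using hw i hi
  · intro p hp w
    obtain ⟨x, -, rfl⟩ := List.mem_map.1 hp
    obtain ⟨a1, a2⟩ := h x (cat (List.ofFn fun i : Fin (n x) => x i) w) (by
      intro i hi
      simp [cat, hi])
    funext i
    by_cases him : i < m x
    · rw [a1 i him]
      simp [cat, him]
    · obtain ⟨k, rfl⟩ : ∃ k, i = m x + k := ⟨i - m x, by omega⟩
      rw [a2]
      simp [cat]

/-- copy of a permutation on the cone of a letter -/
noncomputable def sub (c : Bool) : Equiv.Perm C →* Equiv.Perm C :=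
  Equiv.Perm.viaEmbeddingHom ⟨cons c, cons_inj c⟩

theorem sub_cons (c : Bool) (g : Equiv.Perm C) (u : C) : sub c g (cons c u) = cons c (g u) :=
  Equiv.Perm.viaEmbedding_apply g ⟨cons c, cons_inj c⟩ u

theorem sub_ne (c : Bool) (g : Equiv.Perm C) (y : C) (h : y 0 ≠ c) : sub c g y = y := by
  apply Equiv.Perm.viaEmbedding_apply_of_notMem
  rintro ⟨u, rfl⟩
  exact h rfl

@[simp] theorem sub_ff (g : Equiv.Perm C) (u : C) :
    sub false g (cons false u) = cons false (g u) := sub_cons _ _ _
@[simp] theorem sub_tt (g : Equiv.Perm C) (u : C) :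
    sub true g (cons true u) = cons true (g u) := sub_cons _ _ _
@[simp] theorem sub_ft (g : Equiv.Perm C) (u : C) :
    sub false g (cons true u) = cons true u := sub_ne _ _ _ (by simp)
@[simp] theorem sub_tf (g : Equiv.Perm C) (u : C) :
    sub true g (cons false u) = cons false u := sub_ne _ _ _ (by simp)

theorem sub_inj (c : Bool) : Function.Injective (sub c) :=
  Equiv.Perm.viaEmbeddingHom_injective _

theorem sub_mem (c : Bool) {g : Equiv.Perm C} (hg : g ∈ V) : sub c g ∈ V := by
  intro w
  by_cases hw : w 0 = c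
  · obtain ⟨n, m, h⟩ := hg (tail w)
    refine ⟨n + 1, m + 1, fun w' hw' => ?_⟩
    have h0 : w' 0 = c := (hw' 0 (by omega)).trans hw
    obtain ⟨a1, a2⟩ := h (tail w') fun i hi => hw' (i + 1) (by omega)
    rw [eq_cons hw, eq_cons h0, sub_cons, sub_cons]
    refine ⟨a1.cons c, fun k => ?_⟩
    rw [add_right_comm, add_right_comm n, cons_succ, cons_succ, a2]
  · refine ⟨1, 1, fun w' hw' => ?_⟩
    have h0 : w' 0 ≠ c := by rw [hw' 0 (by omega)]; exact hw
    rw [sub_ne c g w hw, sub_ne c g w' h0]
    exact ⟨hw', fun _ => rfl⟩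

theorem restrict {x : Equiv.Perm C} (hx : x ∈ V) (h : ∀ u, x (cons true u) = cons true u) :
    ∃ x' ∈ V, x = sub false x' := by
  have key : ∀ y : Equiv.Perm C, (∀ u, y (cons true u) = cons true u) →
      ∀ u, y (cons false u) = cons false (tail (y (cons false u))) := by
    intro y hy u
    apply eq_cons
    by_contra hne
    have h1 : y (cons false u) 0 = true := by simpa using hne
    have h2 := eq_cons h1
    rw [← hy] at h2
    simpa using y.injective h2
  have hinv : ∀ u, x⁻¹ (cons true u) = cons true u := fun u => by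
    rw [Equiv.Perm.inv_eq_iff_eq, h]
  let x' : Equiv.Perm C :=
    { toFun := fun u => tail (x (cons false u))
      invFun := fun u => tail (x⁻¹ (cons false u))
      left_inv := fun u => by
        simp only
        rw [← key x h]
        simp
      right_inv := fun u => by
        simp only
        rw [← key x⁻¹ hinv]
        simp }
  refine ⟨x', ?_, ?_⟩
  · intro w
    obtain ⟨n, m, h1⟩ := hx (cons false w)
    refine ⟨n, m, fun w' hw => ?_⟩
    obtain ⟨a1, a2⟩ := h1.add 1 (cons false w') (hw.cons false)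
    refine ⟨fun i hi => a1 (i + 1) (by omega), fun k => ?_⟩
    have := a2 k
    rw [add_right_comm, add_right_comm n, cons_succ] at this
    exact this
  · ext1 y
    obtain ⟨b, u, rfl⟩ := cases2 y
    cases b
    · rw [sub_ff]
      exact key x h u
    · rw [sub_ft, h]

/-- swap of the two halves -/
def s : Equiv.Perm C where
  toFun w := cons (!w 0) (tail w)
  invFun w := cons (!w 0) (tail w)
  left_inv w := by simp [cons_tail]
  right_inv w := by simp [cons_tail]

@[simp] theorem s_cons (b : Bool) (u : C) : s (cons b u) = cons (!b) u := rfl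

theorem s_mem : s ∈ V := by
  intro w
  refine ⟨1, 1, fun w' hw' => ⟨fun i hi => ?_, fun k => ?_⟩⟩
  · obtain rfl : i = 0 := by omega
    show (!w' 0) = !w 0
    rw [hw' 0 (by omega)]
  · rw [add_comm]
    rfl

/-- the generator `x0` -/
def a : Equiv.Perm C where
  toFun w := if w 0 = false then cons false w else
    if w 1 = false then cons false (cons true (tail (tail w))) else tail w
  invFun w := if w 0 = true then cons true w else
    if w 1 = false then tail w else cons true (cons false (tail (tail w)))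
  left_inv w := by
    obtain ⟨b, u, rfl⟩ := cases2 w
    obtain ⟨c, v, rfl⟩ := cases2 u
    cases b <;> cases c <;> simp
  right_inv w := by
    obtain ⟨b, u, rfl⟩ := cases2 w
    obtain ⟨c, v, rfl⟩ := cases2 u
    cases b <;> cases c <;> simp

@[simp] theorem a_f (u : C) : a (cons false u) = cons false (cons false u) := rfl
@[simp] theorem a_tf (u : C) : a (cons true (cons false u)) = cons false (cons true u) := rfl
@[simp] theorem a_tt (u : C) : a (cons true (cons true u)) = cons true u := rfl

theorem a_mem : a ∈ V := by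
  intro w
  obtain ⟨b, u, rfl⟩ := cases2 w
  obtain ⟨c, v, rfl⟩ := cases2 u
  have key : ∀ w', Ag 2 w' (cons b (cons c v)) → w' = cons b (cons c (tail (tail w'))) := by
    intro w' h
    have h0 : w' 0 = b := h 0 (by omega)
    have h1 : tail w' 0 = c := h 1 (by omega)
    rw [← eq_cons h1, ← eq_cons h0]
  have z : ∀ x y : C, Ag 0 x y := fun _ _ _ hi => absurd hi (by omega)
  cases b
  · refine ⟨2, 3, fun w' hw => ?_⟩
    rw [key w' hw, a_f, a_f]
    exact ⟨(((z _ _).cons _).cons _).cons _, fun k => by rw [add_comm 3, add_comm 2]; rfl⟩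
  · cases c
    · refine ⟨2, 2, fun w' hw => ?_⟩
      rw [key w' hw, a_tf, a_tf]
      exact ⟨((z _ _).cons _).cons _, fun k => by rw [add_comm 2]; rfl⟩
    · refine ⟨2, 1, fun w' hw => ?_⟩
      rw [key w' hw, a_tt, a_tt]
      exact ⟨(z _ _).cons _, fun k => by rw [add_comm 1, add_comm 2]; rfl⟩

end Pool.Agent.H943Z.ThV
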