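import Mathlib
import Pool.Agent.H943Z.ThV1

set_option autoImplicit false

namespace Pool.Agent.H943Z.ThV

/-- second contraction -/
noncomputable def t1 : Equiv.Perm C := sub false s * a

theorem t1_mem : t1 ∈ V := V.mul_mem (sub_mem _ s_mem) a_mem

theorem t1_f (u : C) : t1 (cons false u) = cons false (cons true u) := by simp [t1]

/-- An element of V commuting with three fixed elements supported on the right half
fixes the right half. -/
theorem fix_of_comm {x : Equiv.Perm C} (hx : x ∈ V) (h1 : x * sub true a = sub true a * x)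
    (h2 : x * sub true t1 = sub true t1 * x) (h3 : x * sub true s = sub true s * x) (u : C) :
    x (cons true u) = cons true u := by
  have c1 : ∀ y, x (sub true a y) = sub true a (x y) := fun y => congrArg (fun g => g y) h1
  have c2 : ∀ y, x (sub true t1 y) = sub true t1 (x y) := fun y => congrArg (fun g => g y) h2
  have c3 : ∀ y, x (sub true s y) = sub true s (x y) := fun y => congrArg (fun g => g y) h3
  have pres : ∀ u, ∃ v, x (cons true u) = cons true v := by
    intro u
    obtain ⟨b, v, hv⟩ := cases2 (x (cons true u))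
    cases b
    · exfalso
      have := c3 (cons true u)
      rw [hv, sub_tf, ← hv, sub_tt] at this
      have h4 := cons_inj _ (x.injective this)
      obtain ⟨b, r, rfl⟩ := cases2 u
      cases b <;> simp at h4
    · exact ⟨v, hv⟩
  have base : ∃ p q, x (cons true (cons false p)) = cons true (cons false q) := by
    by_contra hcon
    push Not at hcon
    have all : ∀ i p, x (cons true (cons false p)) (i + 1) = true := by
      intro i
      have first : ∀ p, ∃ r, x (cons true (cons false p)) = cons true (cons true r) := by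
        intro p
        obtain ⟨v, hv⟩ := pres (cons false p)
        obtain ⟨b, r, rfl⟩ := cases2 v
        cases b
        · exact absurd hv (hcon p r)
        · exact ⟨r, hv⟩
      induction i with
      | zero =>
        intro p
        obtain ⟨r, hr⟩ := first p
        rw [hr]
        rfl
      | succ i ih =>
        intro p
        obtain ⟨r, hr⟩ := first p
        have e := c1 (cons true (cons false p))
        rw [hr, sub_tt, sub_tt, a_f] at e
        obtain ⟨b, r', rfl⟩ := cases2 r
        cases b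
        · rw [a_tf] at e
          exact absurd e (hcon _ _)
        · have := ih (cons false p)
          rw [e, a_tt] at this
          rw [hr]
          exact this
    have e : ∀ p, x (cons true (cons false p)) = fun _ => true := by
      intro p
      funext i
      cases i with
      | zero =>
        obtain ⟨v, hv⟩ := pres (cons false p)
        rw [hv]
        rfl
      | succ i => exact all i p
    have := x.injective ((e (fun _ => true)).trans (e (fun _ => false)).symm)
    simp only [cons_eq_iff, true_and] at this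
    exact absurd (congrFun this 0) (by simp)
  have appr : ∀ n z, ∃ p q, Ag n p z ∧ Ag n q z ∧
      x (cons true (cons false p)) = cons true (cons false q) := by
    intro n
    induction n with
    | zero =>
      intro z
      obtain ⟨p, q, h⟩ := base
      exact ⟨p, q, fun _ hi => absurd hi (by omega), fun _ hi => absurd hi (by omega), h⟩
    | succ n ih =>
      intro z
      obtain ⟨b, z', rfl⟩ := cases2 z
      obtain ⟨p, q, a1, a2, h⟩ := ih z'
      refine ⟨cons b p, cons b q, a1.cons b, a2.cons b, ?_⟩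
      cases b
      · have := c1 (cons true (cons false p))
        rwa [h, sub_tt, sub_tt, a_f, a_f] at this
      · have := c2 (cons true (cons false p))
        rwa [h, sub_tt, sub_tt, t1_f, t1_f] at this
  have fx : ∀ z, x (cons true (cons false z)) = cons true (cons false z) := by
    intro z
    funext i
    obtain ⟨n, hn⟩ := V_cont hx (cons true (cons false z)) i
    obtain ⟨p, q, a1, a2, h⟩ := appr (n + i) z
    rw [← hn _ (((a1.cons false).cons true).mono (by omega)), h]
    exact (a2.cons false).cons true i (by omega)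
  obtain ⟨b, z, rfl⟩ := cases2 u
  cases b
  · exact fx z
  · have := c3 (cons true (cons false z))
    rwa [fx, sub_tt, s_cons, Bool.not_false] at this

theorem sub_comm (g h : Equiv.Perm C) : sub false g * sub true h = sub true h * sub false g := by
  ext1 y
  obtain ⟨b, u, rfl⟩ := cases2 y
  cases b <;> simp

/-- repeated letter -/
def rep (b : Bool) : ℕ → C → C
  | 0, w => w
  | n + 1, w => cons b (rep b n w)

theorem rep_lt (b : Bool) (n : ℕ) (w : C) (i : ℕ) (hi : i < n) : rep b n w i = b := by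
  induction n generalizing i with
  | zero => omega
  | succ n ih =>
    cases i with
    | zero => rfl
    | succ i => exact ih i (by omega)

theorem rep_add (b : Bool) (n : ℕ) (w : C) (k : ℕ) : rep b n w (n + k) = w k := by
  induction n with
  | zero => simp [rep]
  | succ n ih => rw [add_right_comm]; exact ih

theorem rep_rep (b : Bool) (n m : ℕ) (w : C) : rep b n (rep b m w) = rep b (n + m) w := by
  induction n with
  | zero => simp [rep]
  | succ n ih => rw [add_right_comm, rep, rep, ih]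

/-- coordinates on the complement of the two fixed points -/
def pt (k : ℤ) (v : C) : C := (a ^ k) (cons true (cons false v))

theorem zpow_pt (j k : ℤ) (v : C) : (a ^ j) (pt k v) = pt (j + k) v := by
  rw [pt, pt, zpow_add, Equiv.Perm.mul_apply]

theorem a_pt (k : ℤ) (v : C) : a (pt k v) = pt (k + 1) v := by
  rw [add_comm, ← zpow_pt, zpow_one]

theorem pt_zero (v : C) : pt 0 v = cons true (cons false v) := rfl

theorem pt_pos (k : ℕ) (v : C) : pt ((k : ℤ) + 1) v = rep false (k + 1) (cons true v) := by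
  induction k with
  | zero => rw [← a_pt]; rfl
  | succ k ih => rw [← a_pt, Nat.cast_succ, ih]; rfl

theorem pt_neg (k : ℕ) (v : C) : pt (-(k : ℤ)) v = rep true (k + 1) (cons false v) := by
  induction k with
  | zero => rfl
  | succ k ih =>
    apply a.injective
    rw [a_pt, Nat.cast_succ, show -((k : ℤ) + 1) + 1 = -k by ring, ih]
    rfl

theorem pt_inj {k k' : ℤ} {v v' : C} (h : pt k v = pt k' v') : k = k' ∧ v = v' := by
  have h1 : pt (-k' + k) v = pt 0 v' := by rw [← zpow_pt, h, zpow_pt, neg_add_cancel]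
  rcases lt_trichotomy (-k' + k) 0 with hc | hc | hc
  · obtain ⟨j, hj⟩ : ∃ j : ℕ, -k' + k = -((j + 1 : ℕ) : ℤ) := ⟨(-(-k' + k) - 1).toNat, by omega⟩
    rw [hj, pt_neg, pt_zero] at h1
    exact absurd (congrFun h1 1) (by simp [rep])
  · rw [hc, pt_zero, pt_zero] at h1
    simp only [cons_eq_iff, true_and] at h1
    exact ⟨by omega, h1⟩
  · obtain ⟨j, hj⟩ : ∃ j : ℕ, -k' + k = (j : ℤ) + 1 := ⟨(-k' + k - 1).toNat, by omega⟩
    rw [hj, pt_pos, pt_zero] at h1
    exact absurd (congrFun h1 0) (by simp [rep])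

theorem exists_rep (b : Bool) (i : ℕ) : ∀ y : C, y i = !b → ∃ k u, y = rep b k (cons (!b) u) := by
  induction i with
  | zero => exact fun y hy => ⟨0, tail y, eq_cons hy⟩
  | succ i ih =>
    intro y hy
    by_cases h0 : y 0 = !b
    · exact ⟨0, tail y, eq_cons h0⟩
    · obtain ⟨k, u, h⟩ := ih (tail y) hy
      refine ⟨k + 1, u, ?_⟩
      rw [rep, ← h]
      apply eq_cons
      cases b <;> simpa using h0

/-- constant sequences -/
def cst (b : Bool) : C := fun _ => b

theorem cst_eq (b : Bool) : cst b = cons b (cst b) := (cons_tail (cst b)).symm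

theorem tri (y : C) : (∃ b, y = cst b) ∨ ∃ k v, y = pt k v := by
  by_cases h : ∀ i, y i = y 0
  · exact Or.inl ⟨y 0, funext h⟩
  · right
    push Not at h
    obtain ⟨i, hi⟩ := h
    obtain ⟨k, u, hk⟩ := exists_rep (y 0) i y (by cases h1 : y 0 <;> simp_all)
    cases k with
    | zero =>
      have := congrFun hk 0
      simp [rep] at this
    | succ k =>
      cases h1 : y 0
      · rw [h1] at hk
        exact ⟨k + 1, u, by rw [pt_pos]; exact hk⟩
      · rw [h1] at hk
        exact ⟨-k, u, by rw [pt_neg]; exact hk⟩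

theorem a_cst (b : Bool) : a (cst b) = cst b := by
  cases b
  · conv_lhs => rw [cst_eq, a_f, ← cst_eq, ← cst_eq]
  · conv_lhs => rw [cst_eq, cst_eq, a_tt, ← cst_eq]

theorem zpow_cst (j : ℤ) (b : Bool) : (a ^ j) (cst b) = cst b :=
  Equiv.Perm.zpow_apply_eq_self_of_apply_eq_self (a_cst b) j

theorem ext_pt {g h : Equiv.Perm C} (h1 : ∀ b, g (cst b) = h (cst b))
    (h2 : ∀ k v, g (pt k v) = h (pt k v)) : g = h := by
  ext1 y
  rcases tri y with ⟨b, rfl⟩ | ⟨k, v, rfl⟩
  · exact h1 b
  · exact h2 k v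

theorem fix_cst {w h : Equiv.Perm C} (hw : w ∈ V) (e : h * w = w * a)
    (hh : ∀ b, h (cst b) = cst b) (b : Bool) : w (cst b) = cst b := by
  have e1 : a (w⁻¹ (cst b)) = w⁻¹ (cst b) := by
    have := congrArg (fun g => g (w⁻¹ (cst b))) e
    simp only [Equiv.Perm.mul_apply, Equiv.Perm.coe_inv, Equiv.apply_symm_apply, hh] at this
    rw [Equiv.Perm.eq_inv_iff_eq]
    exact this.symm
  rcases tri (w⁻¹ (cst b)) with ⟨c, hc⟩ | ⟨k, v, hk⟩
  · obtain ⟨n, m, hl⟩ := V.inv_mem hw (cst b)
    have := (hl (cst b) (fun _ _ => rfl)).2 0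
    rw [hc] at this
    have hcb : c = b := this
    rw [hcb, Equiv.Perm.inv_eq_iff_eq] at hc
    exact hc.symm
  · rw [hk, a_pt] at e1
    have := (pt_inj e1).1
    omega

theorem germ_rep {w : Equiv.Perm C} (hw : w ∈ V) (b : Bool) (h : w (cst b) = cst b) :
    ∃ n m, ∀ u, w (rep b n u) = rep b m u := by
  obtain ⟨n, m, hl⟩ := hw (cst b)
  refine ⟨n, m, fun u => ?_⟩
  obtain ⟨a1, a2⟩ := hl (rep b n u) fun i hi => rep_lt b n u i hi
  funext i
  by_cases him : i < m
  · rw [a1 i him, h, rep_lt b m u i him]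
    rfl
  · obtain ⟨k, rfl⟩ : ∃ k, i = m + k := ⟨i - m, by omega⟩
    rw [a2, rep_add, rep_add]

theorem germ_pos {w : Equiv.Perm C} (hw : w ∈ V) (h : w (cst false) = cst false) :
    ∃ i N : ℤ, ∀ k, N ≤ k → ∀ v, w (pt k v) = pt (k + i) v := by
  obtain ⟨n, m, hl⟩ := germ_rep hw false h
  refine ⟨m - n, n + 1, fun k hk v => ?_⟩
  obtain ⟨j, rfl⟩ : ∃ j : ℕ, k = ((n + j : ℕ) : ℤ) + 1 := ⟨(k - n - 1).toNat, by omega⟩
  rw [show ((n + j : ℕ) : ℤ) + 1 + (m - n) = ((m + j : ℕ) : ℤ) + 1 by push_cast; ring,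
    pt_pos, pt_pos, add_assoc, add_assoc, ← rep_rep, ← rep_rep false m, hl]

theorem germ_neg {w : Equiv.Perm C} (hw : w ∈ V) (h : w (cst true) = cst true) :
    ∃ i N : ℤ, ∀ k, k ≤ N → ∀ v, w (pt k v) = pt (k + i) v := by
  obtain ⟨n, m, hl⟩ := germ_rep hw true h
  refine ⟨n - m, -n, fun k hk v => ?_⟩
  obtain ⟨j, rfl⟩ : ∃ j : ℕ, k = -((n + j : ℕ) : ℤ) := ⟨(-k - n).toNat, by omega⟩
  rw [show -((n + j : ℕ) : ℤ) + (n - m) = -((m + j : ℕ) : ℤ) by push_cast; ring,
    pt_neg, pt_neg, add_assoc, add_assoc, ← rep_rep, ← rep_rep true m, hl]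

theorem centralizer {x : Equiv.Perm C} (hx : x ∈ V) (e : a * x = x * a) : ∃ i : ℤ, x = a ^ i := by
  have f := fix_cst hx e a_cst
  obtain ⟨i, N, h⟩ := germ_pos hx (f false)
  refine ⟨i, ext_pt (fun b => by rw [f, zpow_cst]) fun k v => ?_⟩
  have c : a ^ (k - N) * x = x * a ^ (k - N) := (Commute.zpow_left e _).eq
  have e1 : pt k v = (a ^ (k - N)) (pt N v) := by rw [zpow_pt, sub_add_cancel]
  have e2 := congrArg (fun g => g (pt N v)) c
  simp only [Equiv.Perm.mul_apply] at e2
  rw [zpow_pt i, e1, ← e2, h N le_rfl, zpow_pt]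
  congr 1
  ring

theorem zpow_eq_one {c : ℤ} (h : ∀ v, (a ^ c) v = v) : c = 0 := by
  have := h (pt 0 (cst false))
  rw [zpow_pt] at this
  simpa using (pt_inj this).1

/-- copy of `a` on the zeroth fundamental domain -/
noncomputable def b : Equiv.Perm C := sub true (sub false a)

theorem b_mem : b ∈ V := sub_mem _ (sub_mem _ a_mem)

/-- `g` acts on the `k`-th fundamental domain as the power `f k` of `a` -/
structure P (g : Equiv.Perm C) (f : ℤ → ℤ) : Prop where
  mem : g ∈ V
  cst : ∀ c, g (cst c) = cst c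
  pt : ∀ k v, g (pt k v) = pt k ((a ^ f k) v)

theorem P.mul {g h : Equiv.Perm C} {f f' : ℤ → ℤ} (p : P g f) (q : P h f') :
    P (g * h) (fun k => f k + f' k) :=
  ⟨V.mul_mem p.mem q.mem, fun c => by rw [Equiv.Perm.mul_apply, q.cst, p.cst],
    fun k v => by rw [Equiv.Perm.mul_apply, q.pt, p.pt, zpow_add, Equiv.Perm.mul_apply]⟩

theorem P.inv {g : Equiv.Perm C} {f : ℤ → ℤ} (p : P g f) : P g⁻¹ (fun k => -f k) :=
  ⟨V.inv_mem p.mem, fun c => by rw [Equiv.Perm.inv_eq_iff_eq, p.cst],
    fun k v => by rw [Equiv.Perm.inv_eq_iff_eq, p.pt, zpow_neg]; simp⟩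

theorem P.one : P 1 (fun _ => 0) := ⟨V.one_mem, fun _ => rfl, fun _ _ => rfl⟩

theorem P.congr {g : Equiv.Perm C} {f f' : ℤ → ℤ} (p : P g f) (h : ∀ k, f k = f' k) : P g f' := by
  rwa [← funext h]

theorem P.zpow {g : Equiv.Perm C} {f : ℤ → ℤ} (p : P g f) (m : ℤ) :
    P (g ^ m) (fun k => m * f k) := by
  induction m using Int.induction_on with
  | zero => simpa using P.one
  | succ m ih => rw [zpow_add_one]; exact (ih.mul p).congr fun k => by ring
  | pred m ih => rw [zpow_sub_one]; exact (ih.mul p.inv).congr fun k => by ring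

theorem P.conj {g : Equiv.Perm C} {f : ℤ → ℤ} (p : P g f) (n : ℤ) :
    P (a ^ n * g * (a ^ n)⁻¹) (fun k => f (k - n)) := by
  refine ⟨V.mul_mem (V.mul_mem (V.zpow_mem a_mem n) p.mem) (V.inv_mem (V.zpow_mem a_mem n)),
    fun c => ?_, fun k v => ?_⟩
  · rw [← zpow_neg, Equiv.Perm.mul_apply, Equiv.Perm.mul_apply, zpow_cst, p.cst, zpow_cst]
  · rw [← zpow_neg, Equiv.Perm.mul_apply, Equiv.Perm.mul_apply, zpow_pt, p.pt, zpow_pt,
      add_neg_cancel_left, neg_add_eq_sub]

theorem P.unique {g h : Equiv.Perm C} {f f' : ℤ → ℤ} (p : P g f) (q : P h f')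
    (e : ∀ k, f k = f' k) : g = h :=
  ext_pt (fun c => by rw [p.cst, q.cst]) fun k v => by rw [p.pt, q.pt, e]

/-- indicator of a point -/
def dl (n k : ℤ) : ℤ := if k = n then 1 else 0

theorem P_b : P b (dl 0) := by
  refine ⟨b_mem, fun c => ?_, fun k v => ?_⟩
  · cases c
    · rw [cst_eq, b, sub_tf]
    · rw [cst_eq, cst_eq, b, sub_tt, sub_ft]
  · rcases lt_trichotomy k 0 with hc | hc | hc
    · obtain ⟨j, rfl⟩ : ∃ j : ℕ, k = -((j + 1 : ℕ) : ℤ) := ⟨(-k - 1).toNat, by omega⟩
      rw [dl, if_neg hc.ne, zpow_zero, pt_neg, pt_neg, rep, rep, b, sub_tt, sub_ft]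
      rfl
    · subst hc
      simp [dl, pt_zero, b]
    · obtain ⟨j, rfl⟩ : ∃ j : ℕ, k = (j : ℤ) + 1 := ⟨(k - 1).toNat, by omega⟩
      rw [dl, if_neg hc.ne', zpow_zero, pt_pos, pt_pos, rep, b, sub_tf]
      rfl

theorem P_dl (n : ℤ) : ∃ g, P g (dl n) :=
  ⟨_, (P_b.conj n).congr fun k => by simp only [dl, sub_eq_zero]⟩

theorem exists_FG (n : ℤ) : ∃ (x w : Equiv.Perm C) (F G : ℤ → ℤ), P x F ∧ P w G ∧
    (∀ k, F k - F (k - 1) = dl 0 k - dl n k) ∧ ∀ k, G k - G (k - 1) = F k - n * dl 0 k := by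
  induction n using Int.induction_on with
  | zero => exact ⟨1, 1, _, _, P.one, P.one, by simp, by simp⟩
  | succ n ih =>
    obtain ⟨x, w, F, G, p, q, h1, h2⟩ := ih
    obtain ⟨g, hg⟩ := P_dl n
    refine ⟨_, _, _, _, p.mul hg, q.mul p.inv, fun k => ?_, fun k => ?_⟩
    · have e : dl n (k - 1) = dl (n + 1) k := by simp only [dl, sub_eq_iff_eq_add]
      have := h1 k
      rw [e]
      linarith
    · have := h1 k
      have := h2 k
      linarith
  | pred n ih =>
    obtain ⟨x, w, F, G, p, q, h1, h2⟩ := ih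
    obtain ⟨g, hg⟩ := P_dl (-n - 1)
    have e : ∀ k, dl (-n - 1) (k - 1) = dl (-n) k := fun k => by simp only [dl, sub_left_inj]
    refine ⟨_, _, _, _, p.mul hg.inv, q.mul (p.mul hg.inv), fun k => ?_, fun k => ?_⟩
    · have := h1 k
      rw [e]
      linarith
    · have := h1 k
      have := h2 k
      rw [e]
      linarith

theorem exists_sol (n m : ℤ) : ∃ (x w : Equiv.Perm C) (F G : ℤ → ℤ), P x F ∧ P w G ∧
    x * a * x⁻¹ = b ^ m * (a ^ n * (b ^ m)⁻¹ * (a ^ n)⁻¹) * a ∧
    x * (b ^ (n * m))⁻¹ * a = w * a * w⁻¹ := by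
  obtain ⟨x, w, F, G, p, q, h1, h2⟩ := exists_FG n
  refine ⟨x ^ m, w ^ m, _, _, p.zpow m, q.zpow m, ?_, ?_⟩
  · have e := ((p.zpow m).mul ((p.zpow m).inv.conj 1)).unique
      ((P_b.zpow m).mul ((P_b.zpow m).inv.conj n)) (fun k => by
        have e : dl 0 (k - n) = dl n k := by simp only [dl, sub_eq_zero]
        have := h1 k
        rw [e]
        linear_combination m * this)
    rw [← e]
    group
  · have e := ((p.zpow m).mul (P_b.zpow (n * m)).inv).unique
      ((q.zpow m).mul ((q.zpow m).inv.conj 1)) (fun k => by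
        have := h2 k
        linear_combination -m * this)
    rw [e]
    group

theorem mono {w : Equiv.Perm C} (hw : w ∈ V) (d : ℤ) (e : b ^ d * a * w = w * a) : d = 0 := by
  have pb := P_b.zpow d
  have f := fix_cst hw e fun c => by rw [Equiv.Perm.mul_apply, a_cst, pb.cst]
  obtain ⟨i, N, h⟩ := germ_pos hw (f false)
  obtain ⟨i', N', h'⟩ := germ_neg hw (f true)
  have st : ∀ k v, w (pt (k + 1) v) = (b ^ d) (a (w (pt k v))) := by
    intro k v
    have := congrArg (fun g => g (pt k v)) e
    simp only [Equiv.Perm.mul_apply, a_pt] at this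
    exact this.symm
  set k0 := min N' (-i' - 1) with hk0
  have it : ∀ (t : ℕ) (v : C), w (pt (k0 + t) v) =
      pt (k0 + i' + t) (if 0 ≤ k0 + i' + t then (a ^ d) v else v) := by
    intro t v
    induction t with
    | zero => 
      rw [if_neg (by omega)]
      simpa using h' k0 (by omega) v
    | succ t ih =>
      rw [Nat.cast_succ, ← add_assoc, st, ih, a_pt, pb.pt, ← add_assoc]
      congr 1
      by_cases h0 : k0 + i' + t + 1 = 0
      · rw [dl, if_pos h0, if_neg (by omega), if_pos (by omega), mul_one]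
      · rw [dl, if_neg h0, mul_zero, zpow_zero]
        by_cases h1 : 0 ≤ k0 + i' + t
        · rw [if_pos h1, if_pos (by omega)]
          rfl
        · rw [if_neg h1, if_neg (by omega)]
          rfl
  apply zpow_eq_one
  intro v
  obtain ⟨t, ht⟩ : ∃ t : ℕ, N ≤ k0 + t ∧ 0 ≤ k0 + i' + t :=
    ⟨(max (N - k0) (-(k0 + i'))).toNat, by omega⟩
  have := it t v
  rw [h _ ht.1, if_pos ht.2] at this
  exact (pt_inj this).2.symm

theorem core (n m r : ℤ) : (∃ x ∈ V, ∃ w ∈ V,
    x * a * x⁻¹ = b ^ m * (a ^ n * (b ^ m)⁻¹ * (a ^ n)⁻¹) * a ∧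
    x * (b ^ r)⁻¹ * a = w * a * w⁻¹) ↔ r = n * m := by
  obtain ⟨x0, w0, F, G, p, q, h1, h2⟩ := exists_sol n m
  constructor
  · rintro ⟨x, hx, w, hw, e1, e2⟩
    obtain ⟨j, hj⟩ := centralizer (V.mul_mem (V.inv_mem p.mem) hx) (by
      have : x * a * x⁻¹ = x0 * a * x0⁻¹ := e1.trans h1.symm
      calc a * (x0⁻¹ * x) = x0⁻¹ * (x0 * a * x0⁻¹) * x := by group
        _ = x0⁻¹ * (x * a * x⁻¹) * x := by rw [this]
        _ = _ := by group)
    have ex : x = x0 * a ^ j := by rw [← hj]; group
    have pr := (P_b.zpow r).inv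
    have e3 : x0 * a ^ j * (b ^ r)⁻¹ * a * w = w * a := by rw [← ex, e2]; group
    have f := fix_cst hw e3 fun c => by
      simp only [Equiv.Perm.mul_apply]
      rw [a_cst, pr.cst, zpow_cst, p.cst]
    obtain ⟨i, N, h⟩ := germ_pos hw (f false)
    have j0 : j = 0 := by
      have := congrArg (fun g => g (pt N (cst false))) e3
      simp only [Equiv.Perm.mul_apply] at this
      rw [h N le_rfl, a_pt, a_pt, h _ (by omega), pr.pt, zpow_pt, p.pt] at this
      have := (pt_inj this).1
      omega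
    rw [j0, zpow_zero, mul_one] at e3
    have c1 : x0 * (b ^ r)⁻¹ = b ^ (n * m - r) * (x0 * (b ^ (n * m))⁻¹) :=
      (p.mul pr).unique ((P_b.zpow _).mul (p.mul (P_b.zpow _).inv)) fun k => by ring
    have c2 : b ^ (n * m - r) * w0 = w0 * b ^ (n * m - r) :=
      ((P_b.zpow _).mul q).unique (q.mul (P_b.zpow _)) fun k => by ring
    have := mono (V.mul_mem (V.inv_mem q.mem) hw) (n * m - r) (by
      calc b ^ (n * m - r) * a * (w0⁻¹ * w)
          = w0⁻¹ * (w0 * b ^ (n * m - r)) * a * w0⁻¹ * w := by group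
        _ = w0⁻¹ * (b ^ (n * m - r) * (w0 * a * w0⁻¹)) * w := by rw [← c2]; group
        _ = w0⁻¹ * (b ^ (n * m - r) * (x0 * (b ^ (n * m))⁻¹) * a * w) := by rw [← h2]; group
        _ = _ := by rw [← c1, e3]; group)
    omega
  · rintro rfl
    exact ⟨x0, p.mem, w0, q.mem, h1, h2⟩

/-- conjugator from the left half to the zeroth fundamental domain inside it -/
noncomputable def t : Equiv.Perm C := sub false (s * a) * a

theorem t_mem : t ∈ V := V.mul_mem (sub_mem _ (V.mul_mem s_mem a_mem)) a_mem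

theorem t_conj : t * sub false a * t⁻¹ = sub false b := by
  rw [mul_inv_eq_iff_eq_mul]
  ext1 y
  obtain ⟨c, u, rfl⟩ := cases2 y
  cases c
  · simp [t, b]
  · obtain ⟨c, u, rfl⟩ := cases2 u
    cases c
    · obtain ⟨c, u, rfl⟩ := cases2 u
      cases c <;> simp [t, b]
    · simp [t, b]

end Pool.Agent.H943Z.ThV
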