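import Mathlib
import Pool.Agent.H943Z.ThV2
import Pool.Agent.Helper844.Sys

set_option autoImplicit false

namespace Pool.Agent.H943Z.ThV

open Pool.Agent.Helper844.Sys Pool.Agent.Helper844.Dio

/-- tables -/
abbrev Tb : Type := List (List Bool × List Bool)
/-- words -/
abbrev Wd : Type := List ((ℕ ⊕ Tb) × Bool)

open Classical in
/-- the permutation described by a table -/
noncomputable def tau (D : Tb) : Equiv.Perm C :=
  if h : ∃ g, Table D g then h.choose else 1

theorem tau_eq {D : Tb} {g : Equiv.Perm C} (h : Table D g) : tau D = g := by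
  have h1 : ∃ g, Table D g := ⟨g, h⟩
  rw [tau, dif_pos h1]
  exact h1.choose_spec.unique h

/-- value of a word -/
def ev (σ : ℕ → Equiv.Perm C) (τ : Tb → Equiv.Perm C) (e : Wd) : Equiv.Perm C :=
  (e.map (fun x => if x.2 then Sum.elim σ τ x.1 else (Sum.elim σ τ x.1)⁻¹)).prod

theorem ev_append (σ : ℕ → Equiv.Perm C) (τ : Tb → Equiv.Perm C) (e e' : Wd) :
    ev σ τ (e ++ e') = ev σ τ e * ev σ τ e' := by simp [ev]

/-- all constants are genuine tables -/
def Good (e : Wd) : Prop := ∀ x ∈ e, ∀ D, x.1 = Sum.inr D → Table D (tau D)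

theorem Good.append {e e' : Wd} (h : Good e) (h' : Good e') : Good (e ++ e') := by
  intro x hx
  rcases List.mem_append.1 hx with hx | hx
  · exact h x hx
  · exact h' x hx

/-- functions given by words -/
def IsW (f : (ℕ → Equiv.Perm C) → Equiv.Perm C) : Prop :=
  ∃ e : Wd, Good e ∧ ∀ σ, ev σ tau e = f σ

theorem IsW.var (n : ℕ) : IsW fun σ => σ n :=
  ⟨[(Sum.inl n, true)], by intro x hx D h; simp at hx; subst hx; simp at h, fun σ => by simp [ev]⟩

theorem IsW.const {g : Equiv.Perm C} (hg : g ∈ V) : IsW fun _ => g := by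
  obtain ⟨D, hD⟩ := exists_table hg
  refine ⟨[(Sum.inr D, true)], ?_, fun σ => by simp [ev, tau_eq hD]⟩
  intro x hx D' h
  rw [List.mem_singleton] at hx
  subst hx
  obtain rfl : D = D' := by simpa using h
  rwa [tau_eq hD]

theorem IsW.mul {f g : (ℕ → Equiv.Perm C) → Equiv.Perm C} (hf : IsW f) (hg : IsW g) :
    IsW fun σ => f σ * g σ := by
  obtain ⟨e, h1, h2⟩ := hf
  obtain ⟨e', h1', h2'⟩ := hg
  exact ⟨e ++ e', h1.append h1', fun σ => by rw [ev_append, h2, h2']⟩

theorem IsW.inv {f : (ℕ → Equiv.Perm C) → Equiv.Perm C} (hf : IsW f) : IsW fun σ => (f σ)⁻¹ := by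
  obtain ⟨e, h1, h2⟩ := hf
  refine ⟨(e.map fun x => (x.1, !x.2)).reverse, ?_, fun σ => ?_⟩
  · intro x hx D h
    rw [List.mem_reverse, List.mem_map] at hx
    obtain ⟨y, hy, rfl⟩ := hx
    exact h1 y hy D h
  · beta_reduce
    rw [← h2]
    clear h1 h2
    induction e with
    | nil => simp [ev]
    | cons y e ih =>
      rw [List.map_cons, List.reverse_cons, ev_append, ih]
      obtain ⟨y, c⟩ := y
      cases c <;> simp [ev]

theorem IsW.zpow {f : (ℕ → Equiv.Perm C) → Equiv.Perm C} (hf : IsW f) (m : ℤ) :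
    IsW fun σ => (f σ) ^ m := by
  induction m using Int.induction_on with
  | zero => simpa using IsW.const V.one_mem
  | succ m ih => simpa only [zpow_add_one] using ih.mul hf
  | pred m ih => simpa only [zpow_sub_one] using ih.mul hf.inv

/-- predicates given by systems of equations -/
def IsS (p : (ℕ → Equiv.Perm C) → Prop) : Prop :=
  ∃ L : List Wd, (∀ e ∈ L, Good e) ∧ ∀ σ, (∀ e ∈ L, ev σ tau e = 1) ↔ p σ

theorem IsS.eq {f g : (ℕ → Equiv.Perm C) → Equiv.Perm C} (hf : IsW f) (hg : IsW g) :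
    IsS fun σ => f σ = g σ := by
  obtain ⟨e, h1, h2⟩ := hf.mul hg.inv
  exact ⟨[e], by simpa using h1, fun σ => by simp [h2, mul_inv_eq_one]⟩

theorem IsS.and {p q : (ℕ → Equiv.Perm C) → Prop} (hp : IsS p) (hq : IsS q) :
    IsS fun σ => p σ ∧ q σ := by
  obtain ⟨L, h1, h2⟩ := hp
  obtain ⟨L', h1', h2'⟩ := hq
  refine ⟨L ++ L', fun e he => ?_, fun σ => ?_⟩
  · rcases List.mem_append.1 he with he | he
    · exact h1 e he
    · exact h1' e he
  · beta_reduce
    rw [← h2, ← h2']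
    simp only [List.mem_append, or_imp, forall_and]

theorem IsS.all {ι : Type} (l : List ι) {p : ι → (ℕ → Equiv.Perm C) → Prop}
    (hp : ∀ i, IsS (p i)) : IsS fun σ => ∀ i ∈ l, p i σ := by
  induction l with
  | nil => exact ⟨[], by simp, by simp⟩
  | cons i l ih => simpa only [List.forall_mem_cons] using (hp i).and ih

/-- the integer `n` as an element of V -/
noncomputable def N (n : ℤ) : Equiv.Perm C := (sub false a) ^ n

theorem a1_mem : sub false a ∈ V := sub_mem _ a_mem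

theorem N_mem (n : ℤ) : N n ∈ V := V.zpow_mem a1_mem n

theorem N_eq (n : ℤ) : N n = sub false (a ^ n) := by rw [N, map_zpow]

theorem N_eq_one {n : ℤ} (h : N n = 1) : n = 0 := by
  rw [N_eq, ← map_one (sub false)] at h
  exact zpow_eq_one fun v => by rw [sub_inj _ h]; rfl

theorem t_N (n : ℤ) : t * N n * t⁻¹ = sub false (b ^ n) := by
  rw [N, map_zpow, ← t_conj, conj_zpow]

/-- supported on the left half -/
def Lf (x : Equiv.Perm C) : Prop :=
  x * sub true a = sub true a * x ∧ x * sub true t1 = sub true t1 * x ∧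
    x * sub true s = sub true s * x

theorem Lf_sub (g : Equiv.Perm C) : Lf (sub false g) := ⟨sub_comm _ _, sub_comm _ _, sub_comm _ _⟩

theorem Lf.ex {x : Equiv.Perm C} (h : Lf x) (hx : x ∈ V) : ∃ x' ∈ V, x = sub false x' :=
  restrict hx (fix_of_comm hx h.1 h.2.1 h.2.2)

theorem IsS.lf (n : ℕ) : IsS fun σ => Lf (σ n) := by
  have k : ∀ g ∈ V, IsS fun σ => σ n * sub true g = sub true g * σ n := fun g hg =>
    IsS.eq ((IsW.var n).mul (IsW.const (sub_mem _ hg))) ((IsW.const (sub_mem _ hg)).mul (IsW.var n))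
  exact (k _ a_mem).and ((k _ t1_mem).and (k _ s_mem))

/-- being an integer -/
def Zp (y : Equiv.Perm C) : Prop := Lf y ∧ sub false a * y = y * sub false a

theorem Zp_N (n : ℤ) : Zp (N n) :=
  ⟨by rw [N_eq]; exact Lf_sub _, (Commute.self_zpow _ n).eq⟩

theorem Zp.ex {y : Equiv.Perm C} (h : Zp y) (hy : y ∈ V) : ∃ n, y = N n := by
  obtain ⟨x, hx, rfl⟩ := h.1.ex hy
  obtain ⟨i, rfl⟩ := centralizer hx (sub_inj false (by rw [map_mul, map_mul]; exact h.2))
  exact ⟨i, (N_eq i).symm⟩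

theorem IsS.zp (n : ℕ) : IsS fun σ => Zp (σ n) :=
  (IsS.lf n).and (IsS.eq ((IsW.const a1_mem).mul (IsW.var n)) ((IsW.var n).mul (IsW.const a1_mem)))

/-- multiplication gadget -/
def Mp (y z r x w : Equiv.Perm C) : Prop :=
  Lf x ∧ Lf w ∧ Zp r ∧
    x * sub false a * x⁻¹ = t * z * t⁻¹ * (y * (t * z * t⁻¹)⁻¹ * y⁻¹) * sub false a ∧
    x * (t * r * t⁻¹)⁻¹ * sub false a = w * sub false a * w⁻¹

theorem IsS.mp (i j k l m : ℕ) : IsS fun σ => Mp (σ i) (σ j) (σ k) (σ l) (σ m) := by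
  have A := IsW.const a1_mem
  have T := IsW.const t_mem
  have v := IsW.var
  have c : ∀ n, IsW fun σ => t * σ n * t⁻¹ := fun n => (T.mul (v n)).mul T.inv
  exact (IsS.lf l).and ((IsS.lf m).and ((IsS.zp k).and
    ((IsS.eq (((v l).mul A).mul (v l).inv)
      (((c j).mul (((v i).mul (c j).inv).mul (v i).inv)).mul A)).and
    (IsS.eq (((v l).mul (c k).inv).mul A) (((v m).mul A).mul (v m).inv)))))

theorem Mp.sound {n m : ℤ} {r x w : Equiv.Perm C} (hr : r ∈ V) (hx : x ∈ V) (hw : w ∈ V)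
    (h : Mp (N n) (N m) r x w) : r = N (n * m) := by
  obtain ⟨h1, h2, h3, h4, h5⟩ := h
  obtain ⟨x', hx', rfl⟩ := h1.ex hx
  obtain ⟨w', hw', rfl⟩ := h2.ex hw
  obtain ⟨c, rfl⟩ := h3.ex hr
  rw [t_N, N_eq] at h4
  rw [t_N] at h5
  simp only [← map_inv, ← map_mul] at h4 h5
  rw [(core n m c).1 ⟨x', hx', w', hw', sub_inj _ h4, sub_inj _ h5⟩]

theorem Mp.compl (n m : ℤ) : ∃ x ∈ V, ∃ w ∈ V, Mp (N n) (N m) (N (n * m)) x w := by
  obtain ⟨x, hx, w, hw, h1, h2⟩ := (core n m (n * m)).2 rfl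
  refine ⟨_, sub_mem false hx, _, sub_mem false hw, Lf_sub _, Lf_sub _, Zp_N _, ?_, ?_⟩
  · rw [t_N, N_eq]
    simp only [← map_inv, ← map_mul, h1]
  · rw [t_N]
    simp only [← map_inv, ← map_mul, h2]

theorem N_lin (e p a' x b' y c' z d : ℤ) :
    N p ^ e * N x ^ a' * N y ^ b' * N z ^ c' * N d = N (e * p + a' * x + b' * y + c' * z + d) := by
  simp only [N, ← zpow_mul, ← zpow_add]
  congr 1
  ring

theorem exists_group_system (S : ℕ → Prop) (hS : REPred S) :
    ∃ (f : ℕ) (L : List Wd), (∀ e ∈ L, Good e) ∧ ∀ n : ℕ,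
      (∃ σ : ℕ → Equiv.Perm C, (∀ i, σ i ∈ V) ∧ (∀ e ∈ L, ev σ tau e = 1) ∧
        σ f = N (1 - 4 * n)) ↔ S n := by
  classical
  obtain ⟨W, _, f, L, hL⟩ := exists_system S (dprm hS)
  obtain ⟨c, hc⟩ := exists_injective_nat (W ⊕ (W × W) × Fin 3)
  obtain ⟨L', g1, g2⟩ := (IsS.all (Finset.univ : Finset W).toList
      (p := fun v σ => Zp (σ (c (Sum.inl v)))) fun v => IsS.zp _).and
    (IsS.all L (p := fun q σ =>
      Mp (σ (c (Sum.inl q.i))) (σ (c (Sum.inl q.j))) (σ (c (Sum.inr ((q.i, q.j), 0))))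
        (σ (c (Sum.inr ((q.i, q.j), 1)))) (σ (c (Sum.inr ((q.i, q.j), 2)))) ∧
      σ (c (Sum.inr ((q.i, q.j), 0))) ^ q.e * σ (c (Sum.inl q.k)) ^ q.a *
        σ (c (Sum.inl q.l)) ^ q.b * σ (c (Sum.inl q.m)) ^ q.c * N q.d = 1) fun q =>
      (IsS.mp _ _ _ _ _).and (IsS.eq ((((((IsW.var _).zpow _).mul ((IsW.var _).zpow _)).mul
        ((IsW.var _).zpow _)).mul ((IsW.var _).zpow _)).mul (IsW.const (N_mem _)))
        (IsW.const V.one_mem)))
  refine ⟨c (Sum.inl f), L', g1, fun n => ?_⟩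
  have e0 : S n ↔ ∃ x : W → ℤ, x f = 1 - 4 * n ∧ ∀ q ∈ L, q.Holds x := by
    rw [hL]
    constructor
    · exact fun h => ⟨n, h, rfl⟩
    · rintro ⟨m, hm, h⟩
      have : n = m := by omega
      rwa [this]
  rw [e0]
  constructor
  · rintro ⟨σ, h1, h2, h3⟩
    obtain ⟨a1, a2⟩ := (g2 σ).1 h2
    choose x hx using fun v => (a1 v (by simp)).ex (h1 _)
    refine ⟨x, ?_, fun q hq => ?_⟩
    · rw [hx] at h3
      have : N (x f - (1 - 4 * n)) = 1 := by
        rw [N, zpow_sub]
        exact mul_inv_eq_one.2 h3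
      have := N_eq_one this
      omega
    · obtain ⟨b1, b2⟩ := a2 q hq
      rw [hx, hx] at b1
      rw [b1.sound (h1 _) (h1 _) (h1 _), hx, hx, hx, N_lin] at b2
      exact N_eq_one b2
  · rintro ⟨x, h1, h2⟩
    choose X hX Y hY hM using Mp.compl
    let val : W ⊕ (W × W) × Fin 3 → Equiv.Perm C := Sum.elim (fun v => N (x v))
      (fun p => ![N (x p.1.1 * x p.1.2), X (x p.1.1) (x p.1.2), Y (x p.1.1) (x p.1.2)] p.2)
    have hv : ∀ z, val z ∈ V := by
      rintro (v | ⟨p, i⟩)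
      · exact N_mem _
      · fin_cases i
        · exact N_mem _
        · exact hX _ _
        · exact hY _ _
    let σ : ℕ → Equiv.Perm C := Function.extend c val fun _ => 1
    have hσ : ∀ z, σ (c z) = val z := fun z => hc.extend_apply _ _ z
    refine ⟨σ, fun i => ?_, (g2 σ).2 ⟨fun v _ => ?_, fun q hq => ?_⟩, ?_⟩
    · by_cases hi : ∃ z, c z = i
      · obtain ⟨z, rfl⟩ := hi
        rw [hσ]
        exact hv z
      · simp only [σ]
        rw [Function.extend_apply' _ _ _ hi]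
        exact V.one_mem
    · rw [hσ]
      exact Zp_N _
    · simp only [hσ]
      refine ⟨hM _ _, ?_⟩
      have := N_lin q.e (x q.i * x q.j) q.a (x q.k) q.b (x q.l) q.c (x q.m) q.d
      rw [h2 q hq] at this
      exact this
    · rw [hσ, ← h1]
      rfl

/-- the predicate of the frozen statement -/
def Phi (S : List Wd) : Prop :=
  ∃ σ : ℕ → Equiv.Perm C, ∃ τ : Tb → Equiv.Perm C, (∀ n : ℕ, ∃ D : Tb, Table D (σ n)) ∧
    (∀ e ∈ S, ∀ x ∈ e, ∀ D : Tb, x.1 = Sum.inr D → Table D (τ D)) ∧ ∀ e ∈ S, ev σ τ e = 1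

theorem Phi_iff (S : List Wd) (hS : ∀ e ∈ S, Good e) :
    Phi S ↔ ∃ σ : ℕ → Equiv.Perm C, (∀ i, σ i ∈ V) ∧ ∀ e ∈ S, ev σ tau e = 1 := by
  constructor
  · rintro ⟨σ, τ, h1, h2, h3⟩
    refine ⟨σ, fun i => (h1 i).choose_spec.mem, fun e he => ?_⟩
    rw [← h3 e he]
    unfold ev
    congr 1
    refine List.map_congr_left fun x hx => ?_
    have : Sum.elim σ tau x.1 = Sum.elim σ τ x.1 := by
      rcases hx1 : x.1 with i | D
      · rfl
      · exact tau_eq (h2 e he x hx D hx1)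
    rw [this]
  · rintro ⟨σ, h1, h2⟩
    exact ⟨σ, tau, fun n => exists_table (h1 n), fun e he => hS e he, h2⟩

theorem undecidable : ¬ ComputablePred Phi := by
  intro hp
  let S : ℕ → Prop := fun n => (Nat.Partrec.Code.eval (Denumerable.ofNat Nat.Partrec.Code n) 0).Dom
  have hre : REPred S :=
    (ComputablePred.halting_problem_re 0).comp (Computable.ofNat Nat.Partrec.Code)
  have hnc : ¬ ComputablePred S := by
    intro h
    apply ComputablePred.halting_problem 0
    have := ComputablePred.computable_of_manyOneReducible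
      (p := fun c : Nat.Partrec.Code => (c.eval 0).Dom) (q := S)
      ⟨Encodable.encode, Computable.encode, fun c => by simp [S]⟩ h
    exact this
  obtain ⟨f, L, g, hL⟩ := exists_group_system S hre
  obtain ⟨e1, k1, k2⟩ := (IsW.const (N_mem (-1))).mul (IsW.var f)
  obtain ⟨D, hD⟩ := exists_table (N_mem 4)
  let F : ℕ → List Wd := fun n =>
    (e1 ++ (List.range n).map fun _ => ((Sum.inr D : ℕ ⊕ Tb), true)) :: L
  have hF : Computable F :=
    (Primrec.list_cons.comp (Primrec.list_append.comp (Primrec.const e1)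
      (Primrec.list_map Primrec.list_range (Primrec.const _).to₂)) (Primrec.const L)).to_comp
  apply hnc
  refine ComputablePred.computable_of_manyOneReducible ⟨F, hF, fun n => ?_⟩ hp
  have gd : ∀ e ∈ F n, Good e := by
    intro e he
    rcases List.mem_cons.1 he with rfl | he
    · refine k1.append ?_
      intro x hx D' h
      obtain ⟨_, -, rfl⟩ := List.mem_map.1 hx
      obtain rfl : D = D' := by simpa using h
      rwa [tau_eq hD]
    · exact g e he
  have ee : ∀ σ, ev σ tau (e1 ++ (List.range n).map fun _ => ((Sum.inr D : ℕ ⊕ Tb), true)) = 1 ↔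
      σ f = N (1 - 4 * n) := by
    intro σ
    have : ev σ tau ((List.range n).map fun _ => ((Sum.inr D : ℕ ⊕ Tb), true)) = N (4 * n) := by
      simp [ev, Function.comp_def, tau_eq hD, N, zpow_mul]
    rw [ev_append, k2, this, mul_eq_one_iff_eq_inv, ← eq_inv_mul_iff_mul_eq]
    simp only [N, ← zpow_neg, ← zpow_add, neg_neg, sub_eq_add_neg]
  rw [Phi_iff _ gd, ← hL]
  simp only [F, List.forall_mem_cons, ee]
  exact exists_congr fun σ => by tauto

end Pool.Agent.H943Z.ThV
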